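import Pool.Agent.MP_582538_al.Yoneda

-- ======== part 0: formerly Pool.Agent.MP_582538_al.Res
section MrgPart0

set_option autoImplicit false

namespace Pool.Agent.MP_582538_al

open Module TensorProduct

variable {R : Type} [CommRing R]

theorem map_mem_smul_top {P Q : Type} [AddCommGroup P] [Module R P] [AddCommGroup Q] [Module R Q]
    (I : Ideal R) (f : P →ₗ[R] Q) {x : P} (hx : x ∈ I • (⊤ : Submodule R P)) :
    f x ∈ I • (⊤ : Submodule R Q) :=
  Submodule.smul_top_le_comap_smul_top I f hx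

theorem mem_smul_top_iff_repr {P ι : Type} [AddCommGroup P] [Module R P] (b : Basis ι R P)
    (I : Ideal R) (x : P) : x ∈ I • (⊤ : Submodule R P) ↔ ∀ i, b.repr x i ∈ I := by
  constructor
  · intro hx i
    have := map_mem_smul_top I (b.coord i) hx
    simpa using this
  · intro h
    rw [← b.linearCombination_repr x, Finsupp.linearCombination_apply, Finsupp.sum]
    exact Submodule.sum_mem _ fun i _ => Submodule.smul_mem_smul (h i) trivial

theorem kill_smul_top {k P V : Type} [Field k] [Algebra R k] [AddCommGroup P] [Module R P]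
    [AddCommGroup V] [Module R V] [Module k V] [IsScalarTower R k V] (l : P →ₗ[R] V) {x : P}
    (hx : x ∈ RingHom.ker (algebraMap R k) • (⊤ : Submodule R P)) : l x = 0 := by
  refine Submodule.smul_induction_on hx ?_ ?_
  · intro r hr y _
    rw [map_smul, ← algebraMap_smul k r, RingHom.mem_ker.mp hr, zero_smul]
  · intro x y hx hy
    rw [map_add, hx, hy, add_zero]

/-- A minimal complex of free modules, in total form. -/
structure Cx (m : Ideal R) (P I : Type) [AddCommGroup P] [Module R P] where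
  b : Basis I R P
  dg : I → ℕ
  D : P →ₗ[R] P
  D_deg : ∀ i, D (b i) ∈ Sp b (fun j => dg j + 1 = dg i)
  DD : ∀ x, D (D x) = 0
  min : ∀ x, D x ∈ m • (⊤ : Submodule R P)

section Cx

variable {m : Ideal R} {P I Q I' : Type} [AddCommGroup P] [Module R P] [AddCommGroup Q]
  [Module R Q]

/-- The sign operator of a complex. -/
noncomputable def Cx.σ (X : Cx m P I) : P →ₗ[R] P := sgn X.b X.dg

theorem Cx.σ_basis (X : Cx m P I) (i : I) : X.σ (X.b i) = (-1 : R) ^ X.dg i • X.b i :=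
  sgn_basis _ _ _

theorem Cx.σ_D (X : Cx m P I) (x : P) : X.σ (X.D x) = - X.D (X.σ x) := by
  have := sgn_comm X.b X.dg X.b X.dg X.D 1 (fun i => Sp_mono _ (by intro j h; omega) (X.D_deg i)) x
  simpa [Cx.σ] using this

theorem Cx.σ_pow_D (X : Cx m P I) (n : ℕ) (x : P) :
    (X.σ ^ n) (X.D x) = (-1 : R) ^ n • X.D ((X.σ ^ n) x) := by
  induction n with
  | zero => simp
  | succ n ih => rw [pow_succ', End.mul_apply, ih, map_smul, X.σ_D, pow_succ]; simp

theorem Cx.σ_pow_basis (X : Cx m P I) (n : ℕ) (i : I) :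
    (X.σ ^ n) (X.b i) = (-1 : R) ^ (n * X.dg i) • X.b i := by
  induction n with
  | zero => simp
  | succ n ih =>
    rw [pow_succ', End.mul_apply, ih, map_smul, X.σ_basis, smul_smul, ← pow_add, add_mul, one_mul]

theorem Cx.σ_pow_mem (X : Cx m P I) (n : ℕ) {p : I → Prop} {x : P} (hx : x ∈ Sp X.b p) :
    (X.σ ^ n) x ∈ Sp X.b p := by
  refine Sp_map X.b _ _ ?_ hx
  intro i hi
  rw [X.σ_pow_basis]
  exact Submodule.smul_mem _ _ (basis_mem_Sp _ hi)

theorem tmul_mem_Sp (b : Basis I R P) (b' : Basis I' R Q) {p : I → Prop} {q : I' → Prop}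
    {s : I × I' → Prop} (h : ∀ i j, p i → q j → s (i, j)) {x : P} {y : Q} (hx : x ∈ Sp b p)
    (hy : y ∈ Sp b' q) : x ⊗ₜ[R] y ∈ Sp (b.tensorProduct b') s := by
  refine Sp_map b ((TensorProduct.mk R P Q).flip y) _ ?_ hx
  intro i hi
  refine Sp_map b' (TensorProduct.mk R P Q (b i)) _ ?_ hy
  intro j hj
  rw [TensorProduct.mk_apply, ← Basis.tensorProduct_apply]
  exact basis_mem_Sp _ (h i j hi hj)

/-- Tensor product of complexes. -/
noncomputable def Cx.tensor (X : Cx m P I) (Y : Cx m Q I') : Cx m (P ⊗[R] Q) (I × I') where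
  b := X.b.tensorProduct Y.b
  dg v := X.dg v.1 + Y.dg v.2
  D := TensorProduct.map X.D LinearMap.id + TensorProduct.map X.σ Y.D
  D_deg := by
    rintro ⟨i, j⟩
    simp only [Basis.tensorProduct_apply, LinearMap.add_apply, map_tmul, LinearMap.id_apply]
    refine Submodule.add_mem _ ?_ ?_
    · refine tmul_mem_Sp (q := fun j' => Y.dg j' = Y.dg j) _ _ ?_ (X.D_deg i)
        (basis_mem_Sp _ rfl)
      intro i' j' h1 h2
      dsimp only
      omega
    · refine tmul_mem_Sp (p := fun i' => X.dg i' = X.dg i) _ _ ?_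
        (sgn_mem _ _ (basis_mem_Sp _ rfl)) (Y.D_deg j)
      intro i' j' h1 h2
      dsimp only
      omega
  DD := by
    intro x
    induction x using TensorProduct.induction_on with
    | zero => simp
    | tmul x y => simp [X.DD, Y.DD, X.σ_D, neg_tmul]
    | add x y hx hy => rw [map_add, map_add, hx, hy, add_zero]
  min := by
    intro x
    induction x using TensorProduct.induction_on with
    | zero => simp
    | tmul x y =>
      simp only [LinearMap.add_apply, map_tmul, LinearMap.id_apply]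
      exact Submodule.add_mem _ (map_mem_smul_top m ((TensorProduct.mk R P Q).flip y) (X.min x))
        (map_mem_smul_top m (TensorProduct.mk R P Q (X.σ x)) (Y.min y))
    | add x y hx hy => rw [map_add]; exact Submodule.add_mem _ hx hy

theorem Cx.tensor_D (X : Cx m P I) (Y : Cx m Q I') (x : P) (y : Q) :
    (X.tensor Y).D (x ⊗ₜ y) = X.D x ⊗ₜ y + X.σ x ⊗ₜ Y.D y := by
  simp [Cx.tensor]

theorem Cx.tensor_b (X : Cx m P I) (Y : Cx m Q I') (i : I) (j : I') :
    (X.tensor Y).b (i, j) = X.b i ⊗ₜ Y.b j := by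
  simp [Cx.tensor]

theorem Cx.tensor_dg (X : Cx m P I) (Y : Cx m Q I') (i : I) (j : I') :
    (X.tensor Y).dg (i, j) = X.dg i + Y.dg j := rfl

theorem Cx.tensor_σ (X : Cx m P I) (Y : Cx m Q I') (x : P) (y : Q) :
    (X.tensor Y).σ (x ⊗ₜ y) = X.σ x ⊗ₜ Y.σ y := by
  have : (X.tensor Y).σ = TensorProduct.map X.σ Y.σ := by
    refine (X.tensor Y).b.ext ?_
    rintro ⟨i, j⟩
    rw [Cx.σ_basis, Cx.tensor_b, Cx.tensor_dg, map_tmul, Cx.σ_basis, Cx.σ_basis, pow_add,
      smul_tmul_smul]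
  rw [this, map_tmul]

/-- Chain maps lowering the degree by `n`. -/
structure CM (X : Cx m P I) (Y : Cx m Q I') (n : ℕ) (φ : P →ₗ[R] Q) : Prop where
  hom : ∀ i, φ (X.b i) ∈ Sp Y.b (fun j => Y.dg j + n = X.dg i)
  comm : ∀ x, Y.D (φ x) = φ (X.D x)

theorem CM.apply {X : Cx m P I} {Y : Cx m Q I'} {n : ℕ} {φ : P →ₗ[R] Q} (h : CM X Y n φ)
    {p : I → Prop} {q : I' → Prop} (hpq : ∀ i j, p i → Y.dg j + n = X.dg i → q j) {x : P}
    (hx : x ∈ Sp X.b p) : φ x ∈ Sp Y.b q :=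
  Sp_map X.b φ _ (fun i hi => Sp_mono _ (fun j hj => hpq i j hi hj) (h.hom i)) hx

theorem CM.σ {X : Cx m P I} {Y : Cx m Q I'} {n : ℕ} {φ : P →ₗ[R] Q} (h : CM X Y n φ) (x : P) :
    Y.σ (φ x) = (-1 : R) ^ n • φ (X.σ x) :=
  sgn_comm X.b X.dg Y.b Y.dg φ n (fun i => Sp_mono _ (by intro j h; omega) (h.hom i)) x

theorem CM.sum {X : Cx m P I} {Y : Cx m Q I'} {n : ℕ} {α : Type} (s : Finset α) (c : α → R)
    (φ : α → P →ₗ[R] Q) (h : ∀ a ∈ s, CM X Y n (φ a)) : CM X Y n (∑ a ∈ s, c a • φ a) := by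
  refine ⟨fun i => ?_, fun x => ?_⟩
  · rw [LinearMap.sum_apply]
    exact Submodule.sum_mem _ fun a ha => Submodule.smul_mem _ _ ((h a ha).hom i)
  · simp only [LinearMap.sum_apply, map_sum, LinearMap.smul_apply, map_smul]
    exact Finset.sum_congr rfl fun a ha => by rw [(h a ha).comm]

theorem CM.comp {U I'' : Type} [AddCommGroup U] [Module R U] {X : Cx m P I} {Y : Cx m Q I'}
    {Z : Cx m U I''} {n n' : ℕ} {φ : P →ₗ[R] Q} {ψ : Q →ₗ[R] U} (h : CM X Y n φ)
    (h' : CM Y Z n' ψ) : CM X Z (n + n') (ψ ∘ₗ φ) :=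
  ⟨fun i => h'.apply (by intro i j h1 h2; omega) (h.hom i),
    fun x => by simp [h'.comm, h.comm]⟩

theorem CM.id (X : Cx m P I) : CM X X 0 LinearMap.id :=
  ⟨fun _ => basis_mem_Sp _ rfl, fun _ => rfl⟩

theorem CM.tensor {P' Q' J J' : Type} [AddCommGroup P'] [Module R P'] [AddCommGroup Q']
    [Module R Q'] {X : Cx m P I} {Y : Cx m Q I'} {X' : Cx m P' J} {Y' : Cx m Q' J'} {n n' : ℕ}
    {φ : P →ₗ[R] P'} {ψ : Q →ₗ[R] Q'} (h : CM X X' n φ) (h' : CM Y Y' n' ψ) :
    CM (X.tensor Y) (X'.tensor Y') (n + n') (TensorProduct.map φ ((Y'.σ ^ n) ∘ₗ ψ)) := by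
  refine ⟨?_, fun x => ?_⟩
  · rintro ⟨i, j⟩
    rw [Cx.tensor_b, map_tmul]
    refine tmul_mem_Sp _ _ ?_ (h.hom i) (Y'.σ_pow_mem n (h'.hom j))
    intro i' j' h1 h2
    simp only [Cx.tensor_dg]
    omega
  · induction x using TensorProduct.induction_on with
    | zero => simp
    | tmul x y =>
      simp only [map_tmul, Cx.tensor_D, map_add, LinearMap.comp_apply, h.comm, h.σ, ← h'.comm,
        Cx.σ_pow_D, smul_tmul]
    | add x y hx hy => simp only [map_add, hx, hy]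

end Cx

variable {k : Type} [Field k] [Algebra R k]

/-- A minimal free resolution of the residue field, in total form. -/
structure Res (k : Type) [Field k] [Algebra R k] (F B : Type) [AddCommGroup F] [Module R F]
    extends Cx (RingHom.ker (algebraMap R k)) F B where
  surj : Function.Surjective (algebraMap R k)
  one : B
  dg_one : dg one = 0
  eq_one : ∀ β, dg β = 0 → β = one
  fin : ∀ n, {β | dg β = n}.Finite
  exact : ∀ n, ∀ x ∈ Sp b (fun β => dg β = n), D x = 0 → algebraMap R k (b.repr x one) = 0 →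
    ∃ y ∈ Sp b (fun β => dg β = n + 1), D y = x

variable {F B : Type} [AddCommGroup F] [Module R F] (Z : Res (R := R) k F B)
  {P I : Type} [AddCommGroup P] [Module R P]

/-- Reduction modulo the maximal ideal. -/
noncomputable def Res.red : F →ₗ[R] (B →₀ k) :=
  Finsupp.mapRange.linearMap (Algebra.linearMap R k) ∘ₗ Z.b.repr.toLinearMap

theorem Res.red_apply (x : F) (β : B) : Z.red x β = algebraMap R k (Z.b.repr x β) := rfl

theorem Res.red_basis (β : B) : Z.red (Z.b β) = Finsupp.single β 1 := by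
  simp [Res.red]

theorem Res.red_surj : Function.Surjective Z.red := by
  intro t
  induction t using Finsupp.induction_linear with
  | zero => exact ⟨0, map_zero _⟩
  | add t t' h h' =>
    obtain ⟨x, rfl⟩ := h
    obtain ⟨y, rfl⟩ := h'
    exact ⟨x + y, map_add _ _ _⟩
  | single β c =>
    obtain ⟨r, rfl⟩ := Z.surj c
    exact ⟨r • Z.b β, by simp [Res.red_basis, Algebra.smul_def]⟩

theorem Res.red_one_eq_zero {p : B → Prop} (hp : ¬ p Z.one) {x : F} (hx : x ∈ Sp Z.b p) :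
    Z.red x Z.one = 0 := by
  rw [Z.red_apply, Sp_repr _ hx hp, map_zero]

theorem Res.D_one : Z.D (Z.b Z.one) = 0 :=
  Sp_eq_zero _ (by intro i; rw [Z.dg_one]; omega) (Z.D_deg Z.one)

theorem Res.lift (X : Cx (RingHom.ker (algebraMap R k)) P I) (n : ℕ) (ω : P →ₗ[R] k)
    (hω : ∀ i, X.dg i ≠ n → ω (X.b i) = 0) :
    ∃ φ, CM X Z.toCx n φ ∧ ∀ x, Z.red (φ x) Z.one = ω x := by
  have prop : ∀ (φ : P →ₗ[R] F) (p : I → Prop) (a : ℕ),
      (∀ i, p i → φ (X.b i) ∈ Sp Z.b (fun j => Z.dg j + n = X.dg i) ∧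
        Z.D (φ (X.b i)) = φ (X.D (X.b i)) ∧ Z.red (φ (X.b i)) Z.one = ω (X.b i)) →
      ∀ x ∈ Sp X.b p, Z.D (φ x) = φ (X.D x) ∧ Z.red (φ x) Z.one = ω x := by
    intro φ p a H x hx
    exact ⟨Sp_ext X.b (Z.D ∘ₗ φ) (φ ∘ₗ X.D) (fun i hi => (H i hi).2.1) hx,
      Sp_ext X.b (Finsupp.lapply Z.one ∘ₗ Z.red ∘ₗ φ) ω (fun i hi => (H i hi).2.2) hx⟩
  obtain ⟨φ, hφ⟩ := solve (Q := F) X.b X.dg X.D
    (fun i => Sp_mono _ (by intro j h; omega) (X.D_deg i))
    (fun i x y => x ∈ Sp Z.b (fun j => Z.dg j + n = X.dg i) ∧ Z.D x = y ∧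
      Z.red x Z.one = ω (X.b i)) (by
      intro i h H
      have e1 : h (X.D (X.b i)) ∈ Sp Z.b (fun j => Z.dg j + n + 1 = X.dg i) := by
        refine Sp_map X.b h _ ?_ (X.D_deg i)
        intro j hj
        exact Sp_mono _ (by intro j' h'; omega) (H j (by omega)).1
      obtain ⟨e2, e3⟩ := prop h _ 0 (fun j (hj : X.dg j + 1 = X.dg i) => H j (by omega)) _
        (X.D_deg i)
      rcases lt_trichotomy (X.dg i) n with hi | hi | hi
      · refine ⟨0, Submodule.zero_mem _, ?_, ?_⟩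
        · rw [map_zero, Sp_eq_zero _ (by intro j; omega) e1]
        · rw [hω i hi.ne]
          simp
      · obtain ⟨r, hr⟩ := Z.surj (ω (X.b i))
        refine ⟨r • Z.b Z.one, Submodule.smul_mem _ _ (basis_mem_Sp _ ?_), ?_, ?_⟩
        · rw [Z.dg_one]
          omega
        · rw [map_smul, Z.D_one, smul_zero, Sp_eq_zero _ (by intro j; omega) e1]
        · simp [Res.red_basis, Algebra.smul_def, hr]
      · obtain ⟨y, hy1, hy2⟩ := Z.exact (X.dg i - n - 1) _
          (Sp_mono _ (by intro j h; omega) e1) (by rw [e2, X.DD, map_zero])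
          (e3.trans (kill_smul_top ω (X.min _)))
        refine ⟨y, Sp_mono _ (by intro j h; omega) hy1, hy2, ?_⟩
        rw [hω i hi.ne', Z.red_one_eq_zero (by rw [Z.dg_one]; omega) hy1])
  have := prop φ (fun _ => True) 0 (fun i _ => hφ i)
  exact ⟨φ, ⟨fun i => (hφ i).1, fun x => (this x (mem_Sp_true _ x)).1⟩,
    fun x => (this x (mem_Sp_true _ x)).2⟩

theorem Res.uniq0 (X : Cx (RingHom.ker (algebraMap R k)) P I) {n : ℕ} {φ : P →ₗ[R] F}
    (hφ : CM X Z.toCx n φ) (h0 : ∀ x, Z.red (φ x) Z.one = 0) (x : P) : Z.red (φ x) = 0 := by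
  have prop : ∀ (h : P →ₗ[R] F) (p : I → Prop),
      (∀ i, p i → h (X.b i) ∈ Sp Z.b (fun j => Z.dg j + n = X.dg i + 1) ∧
        Z.D (h (X.b i)) = φ (X.b i) - h (X.D (X.b i)) ∧ Z.red (h (X.b i)) Z.one = 0) →
      ∀ x ∈ Sp X.b p, Z.D (h x) = φ x - h (X.D x) ∧ Z.red (h x) Z.one = 0 := by
    intro h p H x hx
    exact ⟨Sp_ext X.b (Z.D ∘ₗ h) (φ - h ∘ₗ X.D) (fun i hi => (H i hi).2.1) hx,
      Sp_ext X.b (Finsupp.lapply Z.one ∘ₗ Z.red ∘ₗ h) 0 (fun i hi => (H i hi).2.2) hx⟩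
  obtain ⟨h, hh⟩ := solve (Q := F) X.b X.dg X.D
    (fun i => Sp_mono _ (by intro j h; omega) (X.D_deg i))
    (fun i x y => x ∈ Sp Z.b (fun j => Z.dg j + n = X.dg i + 1) ∧ Z.D x = φ (X.b i) - y ∧
      Z.red x Z.one = 0) (by
      intro i h H
      have e1 : h (X.D (X.b i)) ∈ Sp Z.b (fun j => Z.dg j + n = X.dg i) := by
        refine Sp_map X.b h _ ?_ (X.D_deg i)
        intro j hj
        exact Sp_mono _ (by intro j' h'; omega) (H j (by omega)).1
      obtain ⟨e2, e3⟩ := prop h _ (fun j (hj : X.dg j + 1 = X.dg i) => H j (by omega)) _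
        (X.D_deg i)
      have e4 := Submodule.sub_mem _ (hφ.hom i) e1
      by_cases hi : X.dg i < n
      · refine ⟨0, Submodule.zero_mem _, ?_, by simp⟩
        rw [map_zero, Sp_eq_zero _ (by intro j; omega) e4]
      · obtain ⟨y, hy1, hy2⟩ := Z.exact (X.dg i - n) _
          (Sp_mono _ (by intro j h; omega) e4) (by rw [map_sub, e2, hφ.comm, X.DD]; simp)
          (by rw [← Z.red_apply, map_sub, Finsupp.sub_apply, e3, h0, sub_zero])
        refine ⟨y, Sp_mono _ (by intro j h; omega) hy1, hy2, ?_⟩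
        rw [Z.red_one_eq_zero (by rw [Z.dg_one]; omega) hy1])
  have h1 := (prop h (fun _ => True) (fun i _ => hh i) x (mem_Sp_true _ x)).1
  rw [eq_sub_iff_add_eq] at h1
  rw [← h1, map_add, kill_smul_top Z.red (Z.min _),
    kill_smul_top Z.red (map_mem_smul_top _ h (X.min x)), add_zero]

theorem Res.uniq (X : Cx (RingHom.ker (algebraMap R k)) P I) {n : ℕ} {φ ψ : P →ₗ[R] F}
    (hφ : CM X Z.toCx n φ) (hψ : CM X Z.toCx n ψ)
    (h0 : ∀ i, Z.red (φ (X.b i)) Z.one = Z.red (ψ (X.b i)) Z.one) (x : P) :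
    Z.red (φ x) = Z.red (ψ x) := by
  rw [← sub_eq_zero, ← map_sub]
  refine Z.uniq0 X (n := n) (φ := φ - ψ) ⟨fun i => Submodule.sub_mem _ (hφ.hom i) (hψ.hom i),
    fun x => by simp [hφ.comm, hψ.comm]⟩ (fun x => ?_) x
  refine Sp_ext X.b (Finsupp.lapply Z.one ∘ₗ Z.red ∘ₗ (φ - ψ)) 0 ?_ (mem_Sp_true _ x)
  intro i _
  simp [h0 i]

end Pool.Agent.MP_582538_al

end MrgPart0

-- ======== part 1: formerly Pool.Agent.MP_582538_al.Tor
section MrgPart1

set_option autoImplicit false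

namespace Pool.Agent.MP_582538_al

open Module TensorProduct Finsupp

variable {R : Type} [CommRing R] {k : Type} [Field k] [Algebra R k]
  {F B : Type} [AddCommGroup F] [Module R F] (Z : Res (R := R) k F B)

/-- Reduction of an endomorphism. -/
noncomputable def Res.bar (ψ : F →ₗ[R] F) : (B →₀ k) →ₗ[k] (B →₀ k) :=
  linearCombination k (fun β => Z.red (ψ (Z.b β)))

theorem Res.bar_red (ψ : F →ₗ[R] F) (x : F) : Z.bar ψ (Z.red x) = Z.red (ψ x) := by
  refine Sp_ext Z.b ((Z.bar ψ).restrictScalars R ∘ₗ Z.red) (Z.red ∘ₗ ψ) ?_ (mem_Sp_true _ x)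
  intro β _
  simp [Res.bar, Res.red_basis]

/-- Reduction of a product. -/
noncomputable def Res.bar2 (μ : F ⊗[R] F →ₗ[R] F) : (B →₀ k) →ₗ[k] (B →₀ k) →ₗ[k] (B →₀ k) :=
  linearCombination k (fun β => Z.bar (μ ∘ₗ TensorProduct.mk R F F (Z.b β)))

theorem Res.bar2_red (μ : F ⊗[R] F →ₗ[R] F) (x y : F) :
    Z.bar2 μ (Z.red x) (Z.red y) = Z.red (μ (x ⊗ₜ y)) := by
  refine Sp_ext Z.b (((Z.bar2 μ).flip (Z.red y)).restrictScalars R ∘ₗ Z.red)
    (Z.red ∘ₗ μ ∘ₗ (TensorProduct.mk R F F).flip y) ?_ (mem_Sp_true _ x)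
  intro β _
  simp [Res.bar2, Res.red_basis, Res.bar_red]

theorem Res.red_σ_pow (n : ℕ) (x : F) :
    Z.red ((Z.σ ^ n) x) = (sgn Finsupp.basisSingleOne Z.dg ^ n) (Z.red x) := by
  refine Sp_ext Z.b (Z.red ∘ₗ (Z.σ ^ n))
    ((sgn (Finsupp.basisSingleOne (R := k)) Z.dg ^ n).restrictScalars R ∘ₗ Z.red) ?_
    (mem_Sp_true _ x)
  intro β _
  ext δ
  simp only [LinearMap.comp_apply, Cx.σ_pow_basis, map_smul, Res.red_basis,
    LinearMap.restrictScalars_apply, sgn_pow_apply, Finsupp.smul_apply]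
  by_cases h : β = δ
  · simp [h, Algebra.smul_def]
  · simp [h]

theorem Res.red_σ_pow_one (n : ℕ) (x : F) : Z.red ((Z.σ ^ n) x) Z.one = Z.red x Z.one := by
  rw [Z.red_σ_pow, sgn_pow_apply, Z.dg_one]
  simp

theorem Res.exists_tdata : ∃ (D : TData k B) (φ : B → F →ₗ[R] F), D.deg = Z.dg ∧ D.one = Z.one ∧
    (∀ β, CM Z.toCx Z.toCx (Z.dg β) (φ β)) ∧ ∀ β x, D.ρ β (Z.red x) = Z.red (φ β x) := by
  classical
  have hφ0 : ∀ β, ∃ φ, CM Z.toCx Z.toCx (Z.dg β) φ ∧ ∀ x, Z.red (φ x) Z.one = Z.red x β := by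
    intro β
    refine Z.lift Z.toCx (Z.dg β) (lapply β ∘ₗ Z.red) ?_
    intro i hi
    have : i ≠ β := by rintro rfl; exact hi rfl
    simp [Res.red_basis, this]
  choose φ hφ hφ1 using hφ0
  obtain ⟨μ, hμ, hμ1⟩ := Z.lift (Z.toCx.tensor Z.toCx) 0
    (LinearMap.mul' R k ∘ₗ TensorProduct.map (lapply Z.one ∘ₗ Z.red) (lapply Z.one ∘ₗ Z.red)) (by
      rintro ⟨a, c⟩ h
      rw [Cx.tensor_dg] at h
      rw [Cx.tensor_b]
      by_cases ha : a = Z.one
      · have : c ≠ Z.one := by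
          rintro rfl
          rw [ha, Z.dg_one] at h
          exact h rfl
        simp [Res.red_basis, this]
      · simp [Res.red_basis, ha])
  have hμ1' : ∀ x y, Z.red (μ (x ⊗ₜ y)) Z.one = Z.red x Z.one * Z.red y Z.one := by
    intro x y
    rw [hμ1]
    simp
  have hμD : ∀ x y, Z.D (μ (x ⊗ₜ y)) = μ (Z.D x ⊗ₜ y) + μ (Z.σ x ⊗ₜ Z.D y) := by
    intro x y
    rw [hμ.comm, Cx.tensor_D, map_add]
  have hμσ : ∀ x y, Z.σ (μ (x ⊗ₜ y)) = μ (Z.σ x ⊗ₜ Z.σ y) := by
    intro x y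
    rw [hμ.σ, Cx.tensor_σ]
    simp
  have hμdeg : ∀ (a c : ℕ) x y, x ∈ Sp Z.b (fun β => Z.dg β = a) →
      y ∈ Sp Z.b (fun β => Z.dg β = c) → μ (x ⊗ₜ y) ∈ Sp Z.b (fun β => Z.dg β = a + c) := by
    intro a c x y hx hy
    refine hμ.apply (p := fun v => Z.dg v.1 = a ∧ Z.dg v.2 = c) ?_
      (tmul_mem_Sp _ _ (fun i j h1 h2 => ⟨h1, h2⟩) hx hy)
    rintro ⟨i, j⟩ β ⟨h1, h2⟩ h3
    rw [Cx.tensor_dg] at h3
    dsimp only at h1 h2
    omega
  have hAD : ∀ n, {p : B × B | Z.dg p.1 + Z.dg p.2 = n}.Finite := by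
    intro n
    have h1 : {β | Z.dg β ≤ n}.Finite := by
      refine ((Set.finite_Iic n).biUnion (fun m _ => Z.fin m)).subset ?_
      intro β hβ
      simpa using hβ
    refine (h1.prod h1).subset ?_
    rintro ⟨a, c⟩ h
    simp only [Set.mem_ofPred_eq, Set.mem_prod] at h ⊢
    omega
  -- every chain map is congruent to a combination of the chosen ones
  have hspan : ∀ n (ψ : F →ₗ[R] F), CM Z.toCx Z.toCx n ψ →
      Z.bar ψ ∈ Submodule.span k (Set.range fun β => Z.bar (φ β)) := by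
    intro n ψ hψ
    have h1 := Z.uniq Z.toCx hψ (CM.sum (Z.fin n).toFinset (fun β => Z.b.repr (ψ (Z.b β)) Z.one) φ
      (fun β hβ => by
        have h2 : Z.dg β = n := by simpa using hβ
        exact h2 ▸ hφ β)) (by
        intro δ
        simp only [LinearMap.sum_apply, LinearMap.smul_apply, map_sum, map_smul,
          Finsupp.finsetSum_apply, Finsupp.smul_apply, hφ1, Res.red_basis]
        rw [Finset.sum_eq_single δ]
        · simp [Res.red_apply, Algebra.smul_def]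
        · intro β _ h
          simp [h]
        · intro h
          have h2 : Z.dg δ ≠ n := by simpa using h
          rw [Sp_repr _ (hψ.hom δ) (by rw [Z.dg_one]; omega), zero_smul])
    have h3 : Z.bar ψ = ∑ β ∈ (Z.fin n).toFinset,
        algebraMap R k (Z.b.repr (ψ (Z.b β)) Z.one) • Z.bar (φ β) := by
      refine LinearMap.ext fun t => ?_
      obtain ⟨x, rfl⟩ := Z.red_surj t
      simp [Res.bar_red, h1]
    rw [h3]
    exact Submodule.sum_mem _ fun β _ => Submodule.smul_mem _ _ (Submodule.subset_span ⟨β, rfl⟩)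
  refine ⟨{
      deg := Z.dg
      one := Z.one
      deg_one := Z.dg_one
      eq_one := Z.eq_one
      AD := fun n => (hAD n).toFinset
      mem_AD := by simp
      ρ := fun β => Z.bar (φ β)
      ρ_coeff := ?_
      ρ_deg := ?_
      ρ_one := ?_
      ρ_comp := ?_
      mul := Z.bar2 μ
      mul_deg := ?_
      one_mul := ?_
      mul_one := ?_
      comm := ?_
      assoc := ?_
      leib := ?_ }, φ, rfl, rfl, hφ, fun β x => Z.bar_red _ _⟩
  · intro β t
    obtain ⟨x, rfl⟩ := Z.red_surj t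
    rw [Res.bar_red, hφ1]
  · intro β δ a h
    rw [← Z.red_basis, Res.bar_red, Res.red_apply] at h
    refine (mem_Sp _ _ _).mp ((hφ β).hom δ) a fun h0 => h ?_
    rw [h0, map_zero]
  · refine LinearMap.ext fun t => ?_
    obtain ⟨x, rfl⟩ := Z.red_surj t
    rw [Res.bar_red]
    exact Z.uniq Z.toCx (Z.dg_one ▸ hφ Z.one) (CM.id _) (fun i => hφ1 _ _) x
  · intro β1 β2
    have : Z.bar (φ β2) * Z.bar (φ β1) = Z.bar (φ β2 ∘ₗ φ β1) := by
      refine LinearMap.ext fun t => ?_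
      obtain ⟨x, rfl⟩ := Z.red_surj t
      simp [Res.bar_red]
    rw [this]
    exact hspan _ _ ((hφ β1).comp (hφ β2))
  · intro a c β h
    rw [← Z.red_basis, ← Z.red_basis, Res.bar2_red, Res.red_apply] at h
    refine ((mem_Sp _ _ _).mp (hμdeg _ _ _ _ (basis_mem_Sp _ rfl) (basis_mem_Sp _ rfl)) β
      fun h0 => h ?_).symm
    rw [h0, map_zero]
  · intro t
    obtain ⟨x, rfl⟩ := Z.red_surj t
    rw [← Z.red_basis, Res.bar2_red]
    refine Z.uniq Z.toCx (n := 0) (φ := μ ∘ₗ TensorProduct.mk R F F (Z.b Z.one)) ⟨?_, ?_⟩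
      (CM.id _) ?_ x
    · intro i
      refine Sp_mono _ ?_ (hμdeg _ _ _ _ (basis_mem_Sp _ Z.dg_one) (basis_mem_Sp _ rfl))
      intro j h
      omega
    · intro y
      simp [hμD, Z.D_one, Cx.σ_basis, Z.dg_one]
    · intro i
      simp [hμ1', Res.red_basis]
  · intro t
    obtain ⟨x, rfl⟩ := Z.red_surj t
    rw [← Z.red_basis, Res.bar2_red]
    refine Z.uniq Z.toCx (n := 0) (φ := μ ∘ₗ (TensorProduct.mk R F F).flip (Z.b Z.one)) ⟨?_, ?_⟩
      (CM.id _) ?_ x
    · intro i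
      refine Sp_mono _ ?_ (hμdeg _ _ _ _ (basis_mem_Sp _ rfl) (basis_mem_Sp _ Z.dg_one))
      intro j h
      omega
    · intro y
      simp [hμD, Z.D_one]
    · intro i
      simp [hμ1', Res.red_basis]
  · intro a c
    let sw : F ⊗[R] F →ₗ[R] F ⊗[R] F := TensorProduct.lift (Z.b.constr ℕ fun β =>
      (TensorProduct.mk R F F).flip (Z.b β) ∘ₗ (Z.σ ^ Z.dg β))
    have sw1 : ∀ β y, sw (Z.b β ⊗ₜ y) = (Z.σ ^ Z.dg β) y ⊗ₜ Z.b β := by
      intro β y
      simp [sw]
    have sw2 : ∀ x β, sw (x ⊗ₜ Z.b β) = Z.b β ⊗ₜ (Z.σ ^ Z.dg β) x := by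
      intro x β
      refine Sp_ext Z.b (sw ∘ₗ (TensorProduct.mk R F F).flip (Z.b β))
        (TensorProduct.mk R F F (Z.b β) ∘ₗ (Z.σ ^ Z.dg β)) ?_ (mem_Sp_true _ x)
      intro δ _
      simp only [LinearMap.comp_apply, LinearMap.flip_apply, TensorProduct.mk_apply, sw1,
        Cx.σ_pow_basis, smul_tmul, mul_comm]
    have hsw : CM (Z.toCx.tensor Z.toCx) (Z.toCx.tensor Z.toCx) 0 sw := by
      refine ⟨?_, fun x => ?_⟩
      · rintro ⟨i, j⟩
        rw [Cx.tensor_b, sw1, Cx.σ_pow_basis, ← smul_tmul', ← Cx.tensor_b]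
        refine Submodule.smul_mem _ _ (basis_mem_Sp _ ?_)
        simp only [Cx.tensor_dg]
        omega
      · refine Sp_ext (Z.toCx.tensor Z.toCx).b ((Z.toCx.tensor Z.toCx).D ∘ₗ sw)
          (sw ∘ₗ (Z.toCx.tensor Z.toCx).D) ?_ (mem_Sp_true _ x)
        rintro ⟨i, j⟩ _
        simp only [LinearMap.comp_apply, Cx.tensor_b, Cx.tensor_D, map_add, Cx.σ_basis,
          ← smul_tmul', map_smul]
        rw [sw2 (Z.D _), sw1 _ (Z.D _), sw1, Cx.tensor_D]
        simp only [Cx.σ_pow_D, Cx.σ_pow_basis, map_smul, Cx.σ_basis, ← smul_tmul', tmul_smul,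
          smul_smul, ← pow_add]
        rw [add_comm]
        congr 2
        · rw [mul_comm, add_comm]
        · apply neg_one_pow_congr'
          omega
    have h1 := Z.uniq (Z.toCx.tensor Z.toCx) hμ (hsw.comp hμ) (by
      rintro ⟨i, j⟩
      rw [Cx.tensor_b, LinearMap.comp_apply, sw1, hμ1', hμ1', Res.red_σ_pow_one, mul_comm])
      (Z.b a ⊗ₜ Z.b c)
    rw [← Z.red_basis, ← Z.red_basis, Res.bar2_red, Res.bar2_red, h1, LinearMap.comp_apply,
      sw1, Cx.σ_pow_basis, ← smul_tmul', map_smul, map_smul, ← algebraMap_smul k]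
    simp
  · intro x y z
    obtain ⟨x, rfl⟩ := Z.red_surj x
    obtain ⟨y, rfl⟩ := Z.red_surj y
    obtain ⟨z, rfl⟩ := Z.red_surj z
    simp only [Res.bar2_red]
    have h1 := (hμ.tensor (CM.id Z.toCx)).comp hμ
    have h2 : CM ((Z.toCx.tensor Z.toCx).tensor Z.toCx) Z.toCx (0 + 0 + 0)
        (μ ∘ₗ TensorProduct.map LinearMap.id μ ∘ₗ (TensorProduct.assoc R F F F).toLinearMap) := by
      refine ⟨?_, fun x => ?_⟩
      · rintro ⟨⟨a, b⟩, c⟩
        simp only [Cx.tensor_b, Cx.tensor_dg, LinearMap.comp_apply, LinearEquiv.coe_coe,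
          assoc_tmul, map_tmul, LinearMap.id_apply]
        refine Sp_mono _ ?_ (hμdeg _ _ _ _ (basis_mem_Sp _ rfl)
          (hμdeg _ _ _ _ (basis_mem_Sp _ rfl) (basis_mem_Sp _ rfl)))
        intro j h
        omega
      · rw [← LinearMap.comp_apply Z.D, ← LinearMap.comp_apply _ (Cx.D _)]
        refine Sp_ext ((Z.toCx.tensor Z.toCx).tensor Z.toCx).b _ _ ?_ (mem_Sp_true _ x)
        rintro ⟨⟨a, b⟩, c⟩ _
        simp only [Cx.tensor_b, Cx.tensor_D, Cx.tensor_σ, LinearMap.comp_apply,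
          LinearEquiv.coe_coe, assoc_tmul, map_tmul, LinearMap.id_apply, map_add, add_tmul, hμD,
          tmul_add, add_assoc]
    have h3 := Z.uniq _ h1 h2 (by
      rintro ⟨⟨a, b⟩, c⟩
      simp [Cx.tensor_b, hμ1', mul_assoc]) ((x ⊗ₜ y) ⊗ₜ z)
    simpa using h3
  · intro β x y
    obtain ⟨x, rfl⟩ := Z.red_surj x
    obtain ⟨y, rfl⟩ := Z.red_surj y
    have h1 := hμ.comp (hφ β)
    have h2 := CM.sum (X := Z.toCx.tensor Z.toCx) (Y := Z.toCx) (n := 0 + Z.dg β)
      (hAD (Z.dg β)).toFinset (fun p => Z.b.repr (μ (Z.b p.1 ⊗ₜ Z.b p.2)) β)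
      (fun p => μ ∘ₗ TensorProduct.map (φ p.1) ((Z.σ ^ Z.dg p.1) ∘ₗ φ p.2)) (by
        intro p hp
        have h3 : Z.dg p.1 + Z.dg p.2 + 0 = 0 + Z.dg β := by simpa using hp
        exact h3 ▸ ((hφ p.1).tensor (hφ p.2)).comp hμ)
    have h3 := Z.uniq _ h1 h2 (by
      rintro ⟨a, c⟩
      simp only [Cx.tensor_b, LinearMap.comp_apply, LinearMap.sum_apply, LinearMap.smul_apply,
        map_sum, map_smul, Finsupp.finsetSum_apply, Finsupp.smul_apply, map_tmul, hμ1', hφ1,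
        Res.red_σ_pow_one, Res.red_basis]
      rw [Finset.sum_eq_single (a, c)]
      · simp [Res.red_apply, Algebra.smul_def]
      · rintro ⟨a', c'⟩ _ h
        by_cases ha : a' = a
        · have : c' ≠ c := by rintro rfl; exact h (by rw [ha])
          simp [this]
        · simp [ha]
      · intro h
        have h4 : ¬ Z.dg a + Z.dg c = Z.dg β := by simpa using h
        rw [Sp_repr _ (hμdeg _ _ _ _ (basis_mem_Sp _ rfl) (basis_mem_Sp _ rfl))
          (fun h => h4 h.symm), zero_smul]) (x ⊗ₜ y)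
    simp only [← Z.red_basis, Res.bar2_red, Res.bar_red, ← Z.red_σ_pow]
    simp only [LinearMap.comp_apply, LinearMap.sum_apply, LinearMap.smul_apply, map_sum,
      map_smul, map_tmul] at h3
    simp only [h3, Res.red_apply, algebraMap_smul]

theorem Res.exists_hopf : ∃ (E : Type) (_ : Ring E) (_ : Algebra k E) (H : Hopf k E B)
    (φ : B → F →ₗ[R] F), H.deg = Z.dg ∧ H.one = Z.one ∧ (∀ β x, Z.D (φ β x) = φ β (Z.D x)) ∧
      ∀ β1 β2 δ, H.b.repr (H.b β1 * H.b β2) δ = Z.red (φ β1 (Z.b δ)) β2 := by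
  obtain ⟨D, φ, h1, h2, h3, h4⟩ := Z.exists_tdata
  obtain ⟨E, _, _, H, h5, h6, h7⟩ := D.exists_hopf
  refine ⟨E, inferInstance, inferInstance, H, φ, h5.trans h1, h6.trans h2,
    fun β => (h3 β).comm, ?_⟩
  intro β1 β2 δ
  rw [h7, ← Z.red_basis, h4]

end Pool.Agent.MP_582538_al

end MrgPart1

-- ======== part 2: formerly Pool.Agent.MP_582538_al.Action
section MrgPart2

set_option autoImplicit false

namespace Pool.Agent.MP_582538_al

open Module

variable {k E B : Type} [Field k] [Ring E] [Algebra k E] (H : Hopf k E B)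
  {W : Type} [Ring W] [Algebra k W] (L : E →ₐ[k] W) (σ : W) (S : B → E)

/-- Unsigned conjugation action. -/
noncomputable def Hopf.act0 (h : W) : E →ₗ[k] W :=
  ev2 H.Δ (fun a c => L (H.b c) * h * L (S a))

/-- Signed conjugation action. -/
noncomputable def Hopf.act (h : W) : E →ₗ[k] W :=
  ev2 H.Δ (fun a c => L (H.b c) * h * L (S a) * σ ^ (H.deg a + H.deg c))

/-- The signed conjugation action as a linear operator. -/
noncomputable def Hopf.actL (e : E) : W →ₗ[k] W where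
  toFun h := H.act L σ S h e
  map_add' h h' := by
    simp only [Hopf.act, mul_add, add_mul, ev2_add]
  map_smul' c h := by
    simp only [Hopf.act, mul_smul_comm, smul_mul_assoc, ev2_smul, RingHom.id_apply]

theorem Hopf.actL_apply (e : E) (h : W) : H.actL L σ S e h = H.act L σ S h e := rfl

theorem Hopf.act_eq (h : W) {n : ℕ} {e : E} (he : e ∈ Sp H.b (fun β => H.deg β = n)) :
    H.act L σ S h e = H.act0 L S h e * σ ^ n := by
  refine Sp_ext H.b (H.act L σ S h) (LinearMap.mulRight k (σ ^ n) ∘ₗ H.act0 L S h) ?_ he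
  intro β hβ
  simp only [Hopf.act, Hopf.act0, LinearMap.comp_apply, LinearMap.mulRight_apply, ev2_mul_right]
  refine ev2_congr _ ?_
  intro a c hac
  rw [H.Δ_deg β a c hac, hβ]

open Classical in
theorem Hopf.act0_char
    (hS : ∀ β, ev2 H.Δ (fun a c => S c * H.b a) (H.b β) = if β = H.one then 1 else 0)
    (h : W) (e : E) :
    ev2 H.Δ (fun a c => H.act0 L S h (H.b c) * L (H.b a)) e = L e * h := by
  refine Sp_ext H.b _ (LinearMap.mulRight k h ∘ₗ L.toLinearMap) ?_ (mem_Sp_true _ e)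
  intro β _
  simp only [Hopf.act0, ev2_mul_right]
  rw [H.coassoc W (fun β1 β2 β3 => L (H.b β3) * h * L (S β2) * L (H.b β1))]
  have : ∀ δ β3, ev2 H.Δ (fun β1 β2 => L (H.b β3) * h * L (S β2) * L (H.b β1)) (H.b δ) =
      if δ = H.one then L (H.b β3) * h else 0 := by
    intro δ β3
    have h1 := congrArg L.toLinearMap (hS δ)
    rw [ev2_map] at h1
    simp only [AlgHom.toLinearMap_apply, map_mul] at h1
    simp only [mul_assoc (L (H.b β3) * h)]
    rw [← ev2_mul_left, h1]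
    split_ifs <;> simp
  simp only [this]
  rw [H.ev2_left β (by intro a c ha; simp [ha])]
  simp

open Classical in
theorem Hopf.act0_one
    (hS : ∀ β, ev2 H.Δ (fun a c => S c * H.b a) (H.b β) = if β = H.one then 1 else 0) (β : B) :
    H.act0 L S 1 (H.b β) = if β = H.one then 1 else 0 := by
  rw [← sub_eq_zero]
  refine H.cancel L (fun β => H.act0 L S 1 (H.b β) - if β = H.one then 1 else 0) ?_ β
  intro β
  simp only [sub_mul]
  rw [ev2_sub, H.act0_char L S hS, H.ev2_right β (by intro a c hc; simp [hc])]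
  simp

theorem Hopf.pow_comm (hσL : ∀ β, σ * L (H.b β) = (-1 : k) ^ H.deg β • (L (H.b β) * σ))
    (m : ℕ) (β : B) :
    σ ^ m * L (H.b β) = (-1 : k) ^ (m * H.deg β) • (L (H.b β) * σ ^ m) := by
  induction m with
  | zero => simp
  | succ m ih =>
    rw [pow_succ, mul_assoc, hσL, mul_smul_comm, ← mul_assoc, ih, smul_mul_assoc, smul_smul,
      ← pow_add, mul_assoc]
    congr 2
    ring

open Classical in
theorem Hopf.act_mul
    (hS : ∀ β, ev2 H.Δ (fun a c => S c * H.b a) (H.b β) = if β = H.one then 1 else 0)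
    (hσ : σ * σ = 1) (hσL : ∀ β, σ * L (H.b β) = (-1 : k) ^ H.deg β • (L (H.b β) * σ))
    (h : W) (β1 β2 : B) :
    H.act L σ S h (H.b β1 * H.b β2) = H.act L σ S (H.act L σ S h (H.b β2)) (H.b β1) := by
  have hσm : ∀ m : ℕ, σ ^ m * σ ^ m = 1 := by
    intro m
    rw [← pow_add, ← two_mul, pow_mul, sq, hσ, one_pow]
  let Y : B → B → W := fun c1 c2 => H.act0 L S h (H.b c1 * H.b c2) * σ ^ H.deg c2 -
    H.act0 L S (H.act0 L S h (H.b c2) * σ ^ H.deg c2) (H.b c1)
  have key : ∀ β1 β2, ev2 H.Δ (fun a2 c2 => (ev2 H.Δ (fun a1 c1 => Y c1 c2 * L (H.b a1))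
      (H.b β1) * σ ^ H.deg c2) * L (H.b a2)) (H.b β2) = 0 := by
    intro β1 β2
    have e1 := H.mult W ((LinearMap.mul k W).flip.compl₁₂ L.toLinearMap (H.act0 L S h)) β1 β2
    simp only [LinearMap.compl₁₂_apply, LinearMap.flip_apply, LinearMap.mul_apply',
      AlgHom.toLinearMap_apply] at e1
    rw [H.act0_char L S hS, ev2_comm] at e1
    have e2 : L (H.b β1 * H.b β2) * h = ev2 H.Δ (fun a2 c2 => ev2 H.Δ (fun a1 c1 =>
        H.act0 L S (H.act0 L S h (H.b c2) * σ ^ H.deg c2) (H.b c1) * L (H.b a1)) (H.b β1) *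
          σ ^ H.deg c2 * L (H.b a2)) (H.b β2) := by
      rw [map_mul, mul_assoc, ← H.act0_char L S hS h (H.b β2), ev2_mul_left]
      refine ev2_congr _ ?_
      intro a2 c2 _
      rw [H.act0_char L S hS]
      simp only [mul_assoc]
      rw [← mul_assoc (σ ^ H.deg c2), hσm, one_mul]
    simp only [Y, sub_mul, ev2_sub]
    rw [← e2, e1, sub_eq_zero]
    refine ev2_congr _ ?_
    intro a2 c2 _
    simp only [ev2_mul_right]
    refine ev2_congr _ ?_
    intro a1 c1 _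
    rw [mul_assoc _ (σ ^ H.deg c2) (L (H.b a1)), H.pow_comm L σ hσL, map_mul L]
    simp only [mul_smul_comm, smul_mul_assoc, mul_assoc]
    rw [← mul_assoc (σ ^ H.deg c2), hσm, one_mul, mul_comm (H.deg c2)]
  have key2 : ∀ β1 c2, ev2 H.Δ (fun a1 c1 => Y c1 c2 * L (H.b a1)) (H.b β1) = 0 := by
    intro β1 c2
    have := H.cancel L _ (key β1) c2
    rw [← mul_one (ev2 _ _ _), ← hσm (H.deg c2), ← mul_assoc, this, zero_mul]
  have key3 : Y β1 β2 = 0 := H.cancel L (fun c1 => Y c1 β2) (fun β1 => key2 β1 β2) β1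
  rw [H.act_eq L σ S h (H.mul_deg β1 β2), H.act_eq L σ S h (basis_mem_Sp H.b rfl),
    H.act_eq L σ S _ (basis_mem_Sp H.b rfl), ← sub_eq_zero.mp key3, mul_assoc, ← pow_add,
    add_comm]

open Classical in
theorem Hopf.act_trace
    (hS : ∀ β, ev2 H.Δ (fun a c => S c * H.b a) (H.b β) = if β = H.one then 1 else 0)
    (hσL : ∀ β, σ * L (H.b β) = (-1 : k) ^ H.deg β • (L (H.b β) * σ))
    (τ : W) (hτ : ∀ e, τ * L e = L e * τ) (t : W →ₗ[k] k) (h : W)
    (hcyc : ∀ a c n, t (L (H.b c) * (h * (L (S a) * σ ^ n * τ))) =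
      t (h * (L (S a) * σ ^ n * τ) * L (H.b c))) {β : B} (hβ : β ≠ H.one) :
    t (H.act L σ S h (H.b β) * (σ * τ)) = 0 := by
  let φ : E →ₗ[k] k := t ∘ₗ LinearMap.mulRight k (σ ^ (H.deg β + 1) * τ) ∘ₗ
    LinearMap.mulLeft k h ∘ₗ L.toLinearMap
  have h1 := congrArg φ (hS β)
  rw [if_neg hβ, map_zero, ev2_map, ← H.ev2_cocomm] at h1
  rw [← h1, Hopf.act, ev2_mul_right, ev2_map]
  refine ev2_congr _ ?_
  intro a c hac
  have h2 := H.Δ_deg β a c hac
  have h3 := hcyc a c (H.deg β + 1)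
  simp only [φ, LinearMap.comp_apply, LinearMap.mulRight_apply, LinearMap.mulLeft_apply,
    AlgHom.toLinearMap_apply, map_mul]
  rw [h2]
  have h4 : L (H.b c) * h * L (S a) * σ ^ H.deg β * (σ * τ) =
      L (H.b c) * (h * (L (S a) * σ ^ (H.deg β + 1) * τ)) := by
    simp only [pow_succ, mul_assoc]
  rw [h4, h3]
  simp only [mul_assoc]
  rw [hτ, ← mul_assoc (σ ^ (H.deg β + 1)), H.pow_comm L σ hσL]
  simp only [mul_smul_comm, smul_mul_assoc, map_smul, mul_assoc]
  congr 1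
  apply neg_one_pow_congr'
  rw [← h2]
  have : (H.deg a + H.deg c + 1) * H.deg c = H.deg a * H.deg c + (H.deg c + 1) * H.deg c := by
    ring
  rw [this]
  have h5 : (H.deg c + 1) * H.deg c % 2 = 0 := by
    rw [mul_comm]
    exact Nat.even_iff.mp (Nat.even_mul_succ_self _)
  omega

end Pool.Agent.MP_582538_al

end MrgPart2

-- ======== part 3: formerly Pool.Agent.MP_582538_al.Hom
section MrgPart3

set_option autoImplicit false

namespace Pool.Agent.MP_582538_al

open Module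

variable {k E B : Type} [Field k] [Ring E] [Algebra k E] {G : GAlg k E B}
variable {C M : Type} [AddCommGroup M] [Module E M] [Module k M] [IsScalarTower k E M]
variable (L : LinCx G C M)

/-- Internal degree of a basis vector. -/
def LinCx.jv (v : B × C) : ℕ := L.row v.2 + G.deg v.1

/-- The vector space basis of the linear complex. -/
noncomputable abbrev LinCx.kb : Basis (B × C) k M := G.kb L.bM

theorem LinCx.mem_GM {q j : ℤ} {m : M} : m ∈ L.GM q j ↔
    m ∈ Sp L.kb (fun v => (L.row v.2 : ℤ) = q ∧ (L.jv v : ℤ) = j) := by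
  simp only [LinCx.GM, GAlg.Gr, LinCx.jv, Nat.cast_add]

theorem LinCx.kb_mem (v : B × C) : L.kb v ∈ L.GM (L.row v.2) (L.jv v) :=
  L.mem_GM.mpr (basis_mem_Sp _ ⟨rfl, rfl⟩)

/-- Homogeneous endomorphisms. -/
def LinCx.HomS (r s : ℤ) : Submodule k (End k M) where
  carrier := {h | ∀ v, h (L.kb v) ∈ L.GM (L.row v.2 + r) (L.jv v + s)}
  add_mem' h1 h2 v := Submodule.add_mem _ (h1 v) (h2 v)
  zero_mem' _ := Submodule.zero_mem _
  smul_mem' c _ h v := Submodule.smul_mem _ c (h v)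

theorem LinCx.HomS_apply {r s q j : ℤ} {h : End k M} (hh : h ∈ L.HomS r s) {m : M}
    (hm : m ∈ L.GM q j) : h m ∈ L.GM (q + r) (j + s) := by
  refine Sp_map L.kb h _ ?_ (L.mem_GM.mp hm)
  rintro v ⟨h1, h2⟩
  rw [← h1, ← h2]
  exact hh v

theorem LinCx.HomS_mul {r s r' s' r'' s'' : ℤ} {h h' : End k M} (hh : h ∈ L.HomS r s)
    (hh' : h' ∈ L.HomS r' s') (e1 : r' + r = r'') (e2 : s' + s = s'') :
    h * h' ∈ L.HomS r'' s'' := by
  intro v
  have := L.HomS_apply hh (hh' v)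
  rw [add_assoc, add_assoc, e1, e2] at this
  exact this

theorem LinCx.HomS_one : (1 : End k M) ∈ L.HomS 0 0 := by
  intro v
  simpa using L.kb_mem v

theorem LinCx.HomS_pow {h : End k M} (hh : h ∈ L.HomS 0 0) (n : ℕ) : h ^ n ∈ L.HomS 0 0 := by
  induction n with
  | zero => simpa using L.HomS_one
  | succ n ih => rw [pow_succ]; exact L.HomS_mul ih hh rfl rfl

theorem LinCx.HomS_lsmul {n : ℕ} {e : E} (he : e ∈ Sp G.b (fun β => G.deg β = n)) :
    Algebra.lsmul k k M e ∈ L.HomS 0 n := by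
  refine Sp_map G.b (Algebra.lsmul k k M).toLinearMap _ ?_ he
  intro β hβ v
  have := G.smul_Gr L.bM _ _ β (L.kb_mem v)
  rw [hβ] at this
  rw [add_zero]
  exact this

theorem LinCx.HomS_sgn (n : B × C → ℕ) : sgn L.kb n ∈ L.HomS 0 0 := by
  intro v
  rw [add_zero, add_zero]
  exact sgn_mem L.kb n (L.kb_mem v)

theorem LinCx.HomS_d : (L.d.restrictScalars k : End k M) ∈ L.HomS (-1) 0 := by
  intro v
  simpa [sub_eq_add_neg] using L.d_GM (L.kb_mem v)

/-- Elements of internal degree at least `t`. -/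
noncomputable def LinCx.Mge (t : ℕ) : Submodule k M := Sp L.kb (fun v => t ≤ L.jv v)

theorem LinCx.Mge_of_GM {q j : ℤ} {t : ℕ} (h : (t : ℤ) ≤ j) {m : M} (hm : m ∈ L.GM q j) :
    m ∈ L.Mge t := by
  refine Sp_mono _ ?_ (L.mem_GM.mp hm)
  rintro v ⟨_, h2⟩
  omega

theorem LinCx.HomS_Mge {r s : ℤ} {h : End k M} (hh : h ∈ L.HomS r s) {t t' : ℕ}
    (ht : (t' : ℤ) ≤ t + s) {m : M} (hm : m ∈ L.Mge t) : h m ∈ L.Mge t' := by
  refine Sp_map L.kb h _ ?_ hm
  intro v hv
  exact L.Mge_of_GM (by omega) (hh v)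

/-- Endomorphisms killing high internal degrees. -/
def LinCx.Nn (t : ℕ) : Submodule k (End k M) where
  carrier := {h | ∀ m ∈ L.Mge t, h m = 0}
  add_mem' h1 h2 m hm := by simp [h1 m hm, h2 m hm]
  zero_mem' _ _ := rfl
  smul_mem' c _ h m hm := by simp [h m hm]

/-- Endomorphisms with image in high internal degrees. -/
def LinCx.Im (t : ℕ) : Submodule k (End k M) where
  carrier := {h | ∀ m, h m ∈ L.Mge t}
  add_mem' h1 h2 m := Submodule.add_mem _ (h1 m) (h2 m)
  zero_mem' _ := Submodule.zero_mem _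
  smul_mem' c _ h m := Submodule.smul_mem _ c (h m)

theorem LinCx.Nn_mul_left {t : ℕ} (a : End k M) {h : End k M} (hh : h ∈ L.Nn t) :
    a * h ∈ L.Nn t := by
  intro m hm
  simp [hh m hm]

theorem LinCx.Nn_mul_right {t t' : ℕ} {r s : ℤ} {c h : End k M} (hh : h ∈ L.Nn t)
    (hc : c ∈ L.HomS r s) (ht : (t : ℤ) ≤ t' + s) : h * c ∈ L.Nn t' :=
  fun _ hm => hh _ (L.HomS_Mge hc ht hm)

theorem LinCx.Im_mul_right {t : ℕ} {h : End k M} (hh : h ∈ L.Im t) (a : End k M) :
    h * a ∈ L.Im t := fun _ => hh _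

theorem LinCx.Im_mul_left {t : ℕ} {r s : ℤ} {c h : End k M} (hc : c ∈ L.HomS r s)
    (hs : 0 ≤ s) (hh : h ∈ L.Im t) : c * h ∈ L.Im t :=
  fun m => L.HomS_Mge hc (by omega) (hh m)

theorem LinCx.sgn_row_comm {r s : ℤ} {h : End k M} (hh : h ∈ L.HomS r s) (a : ℕ)
    (ha : r % 2 = a % 2) :
    sgn L.kb (fun v => L.row v.2) * h = (-1 : k) ^ a • (h * sgn L.kb (fun v => L.row v.2)) := by
  ext m
  rw [End.mul_apply, LinearMap.smul_apply, End.mul_apply]
  refine sgn_comm L.kb _ L.kb _ h a ?_ m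
  intro v
  refine Sp_mono _ ?_ (L.mem_GM.mp (hh v))
  rintro w ⟨h1, _⟩
  omega

theorem LinCx.sgn_jv_comm {r s : ℤ} {h : End k M} (hh : h ∈ L.HomS r s) (a : ℕ)
    (ha : s % 2 = a % 2) : sgn L.kb L.jv * h = (-1 : k) ^ a • (h * sgn L.kb L.jv) := by
  ext m
  rw [End.mul_apply, LinearMap.smul_apply, End.mul_apply]
  refine sgn_comm L.kb _ L.kb _ h a ?_ m
  intro v
  refine Sp_mono _ ?_ (L.mem_GM.mp (hh v))
  rintro w ⟨_, h1⟩
  omega

/-- A contraction in high internal degrees. -/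
theorem LinCx.contraction (J : ℕ) (hJ : 1 ≤ J) (hex : ∀ q j : ℤ, J ≤ j → L.Ex q j) :
    ∃ c ∈ L.HomS 1 0, ∀ m ∈ L.Mge J, L.d (c m) + c (L.d m) = m := by
  have prop : ∀ (c : M →ₗ[k] M) (q j : ℤ), (∀ v, (L.row v.2 : ℤ) = q →
      c (L.kb v) ∈ L.GM (L.row v.2 + 1) (L.jv v) ∧
        (J ≤ L.jv v → L.d (c (L.kb v)) = L.kb v - c (L.d (L.kb v)))) →
      ∀ m ∈ L.GM q j, c m ∈ L.GM (q + 1) j ∧ (J ≤ j → L.d (c m) = m - c (L.d m)) := by
    intro c q j H m hm
    refine ⟨?_, fun hj => ?_⟩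
    · refine Sp_map L.kb c _ ?_ (L.mem_GM.mp hm)
      rintro v ⟨h1, h2⟩
      rw [← h1, ← h2]
      exact (H v h1).1
    · refine Sp_ext L.kb (L.d.restrictScalars k ∘ₗ c)
        (LinearMap.id - c ∘ₗ L.d.restrictScalars k) ?_ (L.mem_GM.mp hm)
      rintro v ⟨h1, h2⟩
      exact (H v h1).2 (by omega)
  obtain ⟨c, hc⟩ := solve (Q := M) L.kb (fun v => L.row v.2) (L.d.restrictScalars k) (by
      intro v
      refine Sp_mono _ ?_ (L.mem_GM.mp (L.d_GM (L.kb_mem v)))
      rintro w ⟨h1, _⟩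
      omega)
    (fun v x y => x ∈ L.GM (L.row v.2 + 1) (L.jv v) ∧ (J ≤ L.jv v → L.d x = L.kb v - y)) (by
      intro v h H
      by_cases hv : J ≤ L.jv v
      swap
      · exact ⟨0, Submodule.zero_mem _, fun h => absurd h hv⟩
      obtain ⟨e1, e2⟩ := prop h (L.row v.2 - 1) (L.jv v) (fun w hw => H w (by omega)) _
        (L.d_GM (L.kb_mem v))
      rw [sub_add_cancel] at e1
      have e3 := Submodule.sub_mem _ (L.kb_mem v) e1
      obtain ⟨w, hw1, hw2⟩ := hex _ _ (by omega) _ e3 (by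
        rw [map_sub, e2 (by omega), L.dd, map_zero, sub_zero, sub_self])
        (L.aug_GM (by omega) e3)
      exact ⟨w, hw1, fun _ => hw2⟩)
  refine ⟨c, fun v => by simpa using (hc v).1, fun m hm => ?_⟩
  refine Sp_ext L.kb (L.d.restrictScalars k ∘ₗ c + c ∘ₗ L.d.restrictScalars k) LinearMap.id ?_ hm
  intro v hv
  have := (hc v).2 hv
  simp only [LinearMap.restrictScalars_apply] at this
  simp [this]

section Trunc

variable (T : Finset (B × C))

open Classical in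
/-- Extension by zero. -/
noncomputable def LinCx.inc : (T → M) →ₗ[k] End k M where
  toFun x := L.kb.constr ℕ (fun v => if h : v ∈ T then x ⟨v, h⟩ else 0)
  map_add' x y := by
    refine L.kb.ext fun v => ?_
    by_cases h : v ∈ T <;> simp [h]
  map_smul' c x := by
    refine L.kb.ext fun v => ?_
    by_cases h : v ∈ T <;> simp [h]

theorem LinCx.inc_mem (x : T → M) (v : T) : L.inc T x (L.kb v) = x v := by
  simp [LinCx.inc]

theorem LinCx.inc_not_mem (x : T → M) {v : B × C} (h : v ∉ T) : L.inc T x (L.kb v) = 0 := by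
  simp [LinCx.inc, h]

attribute [irreducible] LinCx.inc

/-- Restriction. -/
noncomputable def LinCx.res : End k M →ₗ[k] (T → M) :=
  LinearMap.pi (fun v => LinearMap.applyₗ (L.kb v))

theorem LinCx.res_apply (h : End k M) (v : T) : L.res T h v = h (L.kb v) := rfl

theorem LinCx.res_inc (x : T → M) : L.res T (L.inc T x) = x := by
  ext v
  rw [L.res_apply, L.inc_mem]

/-- The truncated trace. -/
noncomputable def LinCx.tr : End k M →ₗ[k] k :=
  ∑ v ∈ T, L.kb.coord v ∘ₗ LinearMap.applyₗ (L.kb v)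

theorem LinCx.tr_apply (h : End k M) : L.tr T h = ∑ v ∈ T, L.kb.repr (h (L.kb v)) v := by
  simp [LinCx.tr]

attribute [irreducible] LinCx.res LinCx.tr

variable {T} {J : ℕ} (hT : ∀ v, v ∈ T ↔ L.jv v < J)
include hT

theorem LinCx.inc_Nn (x : T → M) : L.inc T x ∈ L.Nn J := by
  intro m hm
  refine Sp_ext L.kb (L.inc T x) 0 ?_ hm
  intro v hv
  exact L.inc_not_mem T x (by rw [hT]; omega)

theorem LinCx.inc_res {h : End k M} (hh : h ∈ L.Nn J) : L.inc T (L.res T h) = h := by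
  refine L.kb.ext fun v => ?_
  by_cases hv : v ∈ T
  · rw [L.inc_mem T _ ⟨v, hv⟩, L.res_apply]
  · rw [L.inc_not_mem T _ hv, hh]
    rw [hT] at hv
    exact basis_mem_Sp _ (by omega)

theorem LinCx.sub_proj (m : M) : m - ∑ w ∈ T, L.kb.repr m w • L.kb w ∈ L.Mge J := by
  classical
  refine (mem_Sp _ _ _).mpr ?_
  intro v hv
  by_contra h
  apply hv
  have hv' : v ∈ T := by rw [hT]; omega
  simp [Finsupp.single_apply, hv']

theorem LinCx.tr_comm {a h : End k M} {r s : ℤ} (ha : a ∈ L.HomS r s) (hs : 0 ≤ s)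
    (hh : h ∈ L.Nn J) : L.tr T (a * h) = L.tr T (h * a) := by
  have e1 : ∀ v ∈ T, ∀ m, L.kb.repr (a m) v =
      ∑ w ∈ T, L.kb.repr m w * L.kb.repr (a (L.kb w)) v := by
    intro v hv m
    have h1 := L.HomS_Mge ha (t' := J) (by omega) (L.sub_proj hT m)
    have h2 := Sp_repr _ h1 (i := v) (by rw [hT] at hv; omega)
    simpa [sub_eq_zero] using h2
  have e2 : ∀ m, h m = ∑ w ∈ T, L.kb.repr m w • h (L.kb w) := by
    intro m
    have h1 := hh _ (L.sub_proj hT m)
    simpa [sub_eq_zero] using h1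
  simp only [L.tr_apply, End.mul_apply]
  rw [Finset.sum_congr rfl (fun v hv => e1 v hv _), Finset.sum_comm]
  refine Finset.sum_congr rfl fun w _ => ?_
  rw [e2 (a _)]
  simp [mul_comm]

theorem LinCx.tr_Im {h : End k M} (hh : h ∈ L.Im J) : L.tr T h = 0 := by
  rw [L.tr_apply]
  refine Finset.sum_eq_zero fun v hv => Sp_repr _ (hh _) ?_
  rw [hT] at hv
  omega

omit hT in
theorem LinCx.tr_HomS {h : End k M} {r s : ℤ} (hh : h ∈ L.HomS r s) (h0 : ¬ (r = 0 ∧ s = 0)) :
    L.tr T h = 0 := by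
  rw [L.tr_apply]
  refine Finset.sum_eq_zero fun v _ => Sp_repr _ (L.mem_GM.mp (hh v)) ?_
  omega

end Trunc

end Pool.Agent.MP_582538_al

end MrgPart3

-- ======== part 4: formerly Pool.Agent.MP_582538_al.Core
section MrgPart4

set_option autoImplicit false

namespace Pool.Agent.MP_582538_al

open Module

variable {k E B : Type} [Field k] [Ring E] [Algebra k E] {H : Hopf k E B}
variable {C M : Type} [AddCommGroup M] [Module E M] [Module k M] [IsScalarTower k E M]
variable (L : LinCx H.toGAlg C M) (S : B → E)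

/-- The conjugation action on endomorphisms of the linear complex. -/
noncomputable def LinCx.act (e : E) : End k M →ₗ[k] End k M :=
  H.actL (Algebra.lsmul k k M) (sgn L.kb L.jv) S e

theorem LinCx.act_apply (e : E) (h : End k M) : L.act S e h =
    ev2 H.Δ (fun a c => Algebra.lsmul k k M (H.b c) * h * Algebra.lsmul k k M (S a) *
      (sgn L.kb L.jv : End k M) ^ (H.deg a + H.deg c)) e := rfl

variable {S} (hS : ∀ β, S β ∈ Sp H.b (fun β' => H.deg β' = H.deg β))
include hS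

theorem LinCx.act_Nn {t : ℕ} (e : E) {h : End k M} (hh : h ∈ L.Nn t) : L.act S e h ∈ L.Nn t := by
  rw [L.act_apply]
  refine ev2_mem _ _ fun a c _ => ?_
  refine L.Nn_mul_right (t := t) ?_ (L.HomS_pow (L.HomS_sgn _) _) (by omega)
  exact L.Nn_mul_right (L.Nn_mul_left _ hh) (L.HomS_lsmul (hS a)) (by omega)

omit hS in
theorem LinCx.act_Im {t : ℕ} (e : E) {h : End k M} (hh : h ∈ L.Im t) : L.act S e h ∈ L.Im t := by
  rw [L.act_apply]
  refine ev2_mem _ _ fun a c _ => ?_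
  refine L.Im_mul_right (L.Im_mul_right ?_ _) _
  exact L.Im_mul_left (L.HomS_lsmul (basis_mem_Sp H.b rfl)) (by omega) hh

theorem LinCx.act_HomS {r s : ℤ} (β : B) {h : End k M} (hh : h ∈ L.HomS r s) :
    L.act S (H.b β) h ∈ L.HomS r (s + H.deg β) := by
  rw [L.act_apply]
  refine ev2_mem _ _ fun a c hac => ?_
  have h1 := H.Δ_deg β a c hac
  exact L.HomS_mul (L.HomS_mul (L.HomS_mul (L.HomS_lsmul (basis_mem_Sp H.b rfl)) hh rfl rfl)
    (L.HomS_lsmul (hS a)) rfl rfl) (L.HomS_pow (L.HomS_sgn _) _) (by omega) (by omega)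

omit hS in
theorem LinCx.sgn_lsmul (β : B) : (sgn L.kb L.jv : End k M) * Algebra.lsmul k k M (H.b β) =
    (-1 : k) ^ H.deg β • (Algebra.lsmul k k M (H.b β) * sgn L.kb L.jv) :=
  L.sgn_jv_comm (L.HomS_lsmul (basis_mem_Sp H.b rfl)) _ rfl

omit hS in
theorem LinCx.sgn_mul_sgn (n : B × C → ℕ) : (sgn L.kb n : End k M) * sgn L.kb n = 1 := by
  ext m
  rw [End.mul_apply, sgn_sgn, End.one_apply]

open Classical in
/-- The twisted module of endomorphisms is free. -/
theorem LinCx.exists_Psi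
    (hS' : ∀ β, ev2 H.Δ (fun a c => S c * H.b a) (H.b β) = if β = H.one then 1 else 0)
    {T : Finset (B × C)} {J : ℕ} (hT : ∀ v, v ∈ T ↔ L.jv v < J) :
    ∃ Ψ : (T → M) →ₗ[k] End k M, Function.Injective Ψ ∧ (∀ x, Ψ x ∈ L.Nn J) ∧
      (∀ h ∈ L.Nn J, ∃ x, Ψ x = h) ∧ (∀ e x, Ψ (e • x) = L.act S e (Ψ x)) ∧
      ∀ r s x, x ∈ H.Gr (Pi.basis (fun _ : T => L.bM))
        (fun i => (L.row i.2 : ℤ) - L.row i.1.1.2) (fun i => (L.row i.2 : ℤ) - L.jv i.1) r s ↔
          Ψ x ∈ L.HomS r s := by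
  set bX := Pi.basis (fun _ : T => L.bM) with hbX
  have hrepr : ∀ (x : T → M) β (i : Σ _ : T, C),
      (H.kb bX).repr x (β, i) = L.kb.repr (x i.1) (β, i.2) := by
    intro x β i
    simp [GAlg.kb, hbX]
  have memX : ∀ r s x, x ∈ H.Gr bX (fun i => (L.row i.2 : ℤ) - L.row i.1.1.2)
      (fun i => (L.row i.2 : ℤ) - L.jv i.1) r s ↔ L.inc T x ∈ L.HomS r s := by
    intro r s x
    constructor
    · intro hx v
      by_cases hv : v ∈ T
      · rw [L.inc_mem T x ⟨v, hv⟩, L.mem_GM, mem_Sp]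
        rintro ⟨β, γ⟩ h
        have := (mem_Sp _ _ _).mp hx (β, ⟨⟨v, hv⟩, γ⟩) (by rw [hrepr]; exact h)
        simp only [LinCx.jv] at this ⊢
        omega
      · rw [L.inc_not_mem T x hv]
        exact Submodule.zero_mem _
    · intro hx
      refine (mem_Sp _ _ _).mpr ?_
      rintro ⟨β, ⟨v, γ⟩⟩ h
      rw [hrepr] at h
      have h1 := hx v
      rw [L.inc_mem, L.mem_GM, mem_Sp] at h1
      have := h1 _ h
      simp only [LinCx.jv] at this ⊢
      omega
  have inc_smul : ∀ (e : E) (x : T → M), L.inc T (e • x) = Algebra.lsmul k k M e * L.inc T x := by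
    intro e x
    refine L.kb.ext fun v => ?_
    by_cases hv : v ∈ T
    · rw [End.mul_apply, L.inc_mem T _ ⟨v, hv⟩, L.inc_mem T _ ⟨v, hv⟩]
      rfl
    · rw [End.mul_apply, L.inc_not_mem T _ hv, L.inc_not_mem T _ hv, map_zero]
  let Φ : (T → M) →ₗ[k] (T → M) :=
    (H.kb bX).constr ℕ (fun w => L.res T (L.act S (H.b w.1) (L.inc T (bX w.2))))
  have Φ_basis : ∀ β i, L.inc T (Φ (H.b β • bX i)) = L.act S (H.b β) (L.inc T (bX i)) := by
    intro β i
    rw [← H.kb_apply, Basis.constr_basis, L.inc_res hT (L.act_Nn hS _ (L.inc_Nn hT _))]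
  have lin : ∀ (x : T → M) (h : End k M),
      (∀ β, L.inc T (Φ (H.b β • x)) = L.act S (H.b β) h) →
      ∀ e : E, L.inc T (Φ (e • x)) = L.act S e h := by
    intro x h hx e
    refine Sp_ext H.b (L.inc T ∘ₗ Φ ∘ₗ (LinearMap.toSpanSingleton E _ x).restrictScalars k)
      (H.act (Algebra.lsmul k k M) (sgn L.kb L.jv) S h) ?_ (mem_Sp_true _ e)
    intro β _
    exact hx β
  have Φ_act : ∀ (e : E) x, L.inc T (Φ (e • x)) = L.act S e (L.inc T (Φ x)) := by
    intro e x
    refine lin x _ (fun β => ?_) e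
    refine Sp_ext (H.kb bX) (L.inc T ∘ₗ Φ ∘ₗ Algebra.lsmul k k _ (H.b β))
      (L.act S (H.b β) ∘ₗ L.inc T ∘ₗ Φ) ?_ (mem_Sp_true _ x)
    rintro ⟨β', i⟩ _
    simp only [LinearMap.comp_apply, H.kb_apply, Algebra.lsmul_coe]
    rw [← mul_smul, lin _ _ (fun β => Φ_basis β i), Φ_basis]
    exact H.act_mul _ _ S hS' (L.sgn_mul_sgn _) L.sgn_lsmul _ _ _
  have hS1 : S H.one = 1 := by
    have h1 := hS' H.one
    rw [H.ev2_split, if_pos rfl, H.b_one, mul_one, ← H.b_one] at h1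
    rw [← H.b_one, ← h1, left_eq_add]
    refine (ev2_congr _ ?_).trans (ev2_zero H.Δ _)
    intro a c hac
    split_ifs with ha
    · rfl
    · have := H.deg_lt hac ha
      rw [H.deg_one] at this
      omega
  obtain ⟨hinj, hsurj⟩ := triangular Φ (sgn (H.kb bX) (fun w => H.deg w.1 * L.jv w.2.1))
    (sgn_sgn _ _) (fun t => (L.Nn t).comap (L.inc T)) J (by
      intro x hx
      ext v
      rw [← L.inc_mem T x v]
      exact hx _ (basis_mem_Sp _ (Nat.zero_le _))) (L.inc_Nn hT) (by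
      intro t x hx
      have hx' : x ∈ Sp (H.kb bX) (fun w => L.jv w.2.1 ≤ t) := by
        refine (mem_Sp _ _ _).mpr ?_
        rintro ⟨β, ⟨v, γ⟩⟩ h
        rw [hrepr] at h
        by_contra h1
        apply h
        simp only at h1 ⊢
        rw [← L.inc_mem T x v, hx _ (basis_mem_Sp _ (by omega))]
        simp
      refine Sp_map (H.kb bX) (Φ ∘ₗ sgn (H.kb bX) (fun w => H.deg w.1 * L.jv w.2.1) -
        LinearMap.id) _ ?_ hx'
      rintro ⟨β, ⟨v, γ⟩⟩ hv
      simp only at hv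
      have hz : ∀ w, w ≠ v.1 → L.inc T (bX ⟨v, γ⟩) (L.kb w) = 0 := by
        intro w hw
        by_cases hwT : w ∈ T
        · rw [L.inc_mem T _ ⟨w, hwT⟩, hbX, Pi.basis_apply, Pi.single_eq_of_ne]
          exact fun h => hw (congrArg Subtype.val h)
        · exact L.inc_not_mem T _ hwT
      have hN : L.inc T (bX ⟨v, γ⟩) ∈ L.Nn (t + 1) := by
        intro m hm
        refine Sp_ext L.kb (L.inc T (bX ⟨v, γ⟩)) 0 ?_ hm
        intro w hw
        exact hz w (by rintro rfl; omega)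
      have hσ1 : L.inc T (bX ⟨v, γ⟩) * sgn L.kb L.jv =
          (-1 : k) ^ L.jv v • L.inc T (bX ⟨v, γ⟩) := by
        refine L.kb.ext fun w => ?_
        rw [End.mul_apply, sgn_basis, map_smul, LinearMap.smul_apply]
        by_cases hw : w = v.1
        · rw [hw]
        · rw [hz w hw, smul_zero, smul_zero]
      have hσ : ∀ n : ℕ, L.inc T (bX ⟨v, γ⟩) * (sgn L.kb L.jv : End k M) ^ n =
          (-1 : k) ^ (n * L.jv v) • L.inc T (bX ⟨v, γ⟩) := by
        intro n
        induction n with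
        | zero => simp
        | succ n ih =>
          rw [pow_succ, ← mul_assoc, ih, smul_mul_assoc, hσ1, smul_smul, ← pow_add, add_mul,
            one_mul]
      simp only [Submodule.mem_comap, LinearMap.sub_apply, LinearMap.comp_apply, sgn_basis,
        LinearMap.id_apply, map_smul, map_sub]
      rw [H.kb_apply, Φ_basis, inc_smul, L.act_apply, H.ev2_split, hS1, map_one, mul_one,
        H.deg_one, zero_add, mul_assoc, hσ, smul_add, mul_smul_comm, smul_smul, ← pow_add,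
        ← two_mul, pow_mul]
      simp only [even_two, Even.neg_pow, one_pow, one_smul, add_sub_cancel_left]
      refine Submodule.smul_mem _ _ (ev2_mem _ _ fun a c _ => ?_)
      split_ifs with ha
      · exact Submodule.zero_mem _
      · have : H.deg a ≠ 0 := fun h0 => ha (H.eq_one a h0)
        refine L.Nn_mul_right (t := t) ?_ (L.HomS_pow (L.HomS_sgn _) _) (by omega)
        exact L.Nn_mul_right (L.Nn_mul_left _ hN) (L.HomS_lsmul (hS a)) (by push_cast; omega))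
  have hΦG : ∀ r s x, x ∈ H.Gr bX (fun i => (L.row i.2 : ℤ) - L.row i.1.1.2)
      (fun i => (L.row i.2 : ℤ) - L.jv i.1) r s → Φ x ∈ H.Gr bX
        (fun i => (L.row i.2 : ℤ) - L.row i.1.1.2) (fun i => (L.row i.2 : ℤ) - L.jv i.1) r s := by
    intro r s x hx
    refine Sp_map (H.kb bX) Φ _ ?_ hx
    rintro ⟨β, i⟩ ⟨h1, h2⟩
    rw [memX, H.kb_apply, Φ_basis, ← h1, ← h2]
    exact L.act_HomS hS β ((memX _ _ _).mp (H.basis_mem_Gr bX _ _ i))
  refine ⟨L.inc T ∘ₗ Φ, ?_, fun x => L.inc_Nn hT _, ?_, Φ_act, ?_⟩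
  · intro x y hxy
    apply hinj
    have := congrArg (L.res T) hxy
    simpa [L.res_inc] using this
  · intro h hh
    obtain ⟨x, _, hx⟩ := hsurj ⊤ (by simp) (by simp) (L.res T h) trivial
    exact ⟨x, by rw [LinearMap.comp_apply, hx, L.inc_res hT hh]⟩
  · intro r s x
    rw [LinearMap.comp_apply, ← memX]
    refine ⟨hΦG r s x, fun hx => ?_⟩
    obtain ⟨x', hx1, hx2⟩ := hsurj _ (hΦG r s) (fun x hx => sgn_mem _ _ hx) _ hx
    rw [← hinj hx2]
    exact hx1

omit hS in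
/-- The abstract form of the main theorem. -/
theorem LinCx.core {T : Finset (B × C)} {J : ℕ} (hJ : 1 ≤ J) (hT : ∀ v, v ∈ T ↔ L.jv v < J)
    (hex : ∀ q j : ℤ, J ≤ j → L.Ex q j) (hχ : ∑ v ∈ T, (-1 : k) ^ H.deg v.1 = 1)
    (p : ℕ) (h1 : ∀ q : ℤ, q < p → ∀ j, L.Ex q j) (h2 : ∀ j : ℤ, j ≤ p + 1 → L.Ex p j) (j : ℤ) :
    L.Ex p j := by
  classical
  obtain ⟨S, hS0⟩ := H.antipode
  have hS := fun β => (hS0 β).1
  have hS' := fun β => (hS0 β).2
  obtain ⟨Ψ, hinj, hN, hsurj, hact, hG⟩ := L.exists_Psi hS hS' hT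
  obtain ⟨c, hc, hc'⟩ := L.contraction J hJ hex
  set σ : End k M := sgn L.kb L.jv with hσ
  set τ : End k M := sgn L.kb (fun v => L.row v.2) with hτ
  set d : End k M := L.d.restrictScalars k with hd
  have hσH : σ ∈ L.HomS 0 0 := L.HomS_sgn _
  have hτH : τ ∈ L.HomS 0 0 := L.HomS_sgn _
  have hdH : d ∈ L.HomS (-1) 0 := L.HomS_d
  have hττ : τ * τ = 1 := L.sgn_mul_sgn _
  have hdd : d * d = 0 := by ext m; exact L.dd m
  have hτd : τ * d = - (d * τ) := by simpa using L.sgn_row_comm hdH 1 rfl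
  have hτc : τ * c = - (c * τ) := by simpa using L.sgn_row_comm hc 1 rfl
  have hσd : Commute σ d := by
    have := L.sgn_jv_comm hdH 0 rfl
    rw [pow_zero, one_smul] at this
    exact this
  have hστ : Commute σ τ := by
    have := L.sgn_jv_comm hτH 0 rfl
    rw [pow_zero, one_smul] at this
    exact this
  have hτL : ∀ e : E, τ * Algebra.lsmul k k M e = Algebra.lsmul k k M e * τ := by
    intro e
    refine Sp_ext H.b (LinearMap.mulLeft k τ ∘ₗ (Algebra.lsmul k k M).toLinearMap)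
      (LinearMap.mulRight k τ ∘ₗ (Algebra.lsmul k k M).toLinearMap) ?_ (mem_Sp_true _ e)
    intro β _
    simpa using L.sgn_row_comm (L.HomS_lsmul (basis_mem_Sp H.b (i := β) rfl)) 0 rfl
  have hdL : ∀ e : E, d * Algebra.lsmul k k M e = Algebra.lsmul k k M e * d := by
    intro e
    ext m
    simp [hd]
  let dN : End k M →ₗ[k] End k M :=
    LinearMap.mulLeft k d - LinearMap.mulLeft k τ ∘ₗ LinearMap.mulRight k (τ * d)
  have dN_apply : ∀ h, dN h = d * h - τ * (h * (τ * d)) := fun h => rfl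
  have dN_Nn : ∀ h ∈ L.Nn J, dN h ∈ L.Nn J := by
    intro h hh
    rw [dN_apply]
    refine Submodule.sub_mem _ (L.Nn_mul_left _ hh) (L.Nn_mul_left _ ?_)
    exact L.Nn_mul_right hh (L.HomS_mul hτH hdH rfl rfl) (by omega)
  have dN_act : ∀ e h, dN (L.act S e h) = L.act S e (dN h) := by
    intro e h
    rw [L.act_apply, L.act_apply, ev2_map]
    refine ev2_congr _ fun a c _ => ?_
    have e1 : Commute (σ ^ (H.deg a + H.deg c)) (τ * d) := (hστ.mul_right hσd).pow_left _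
    have e2 : Commute (Algebra.lsmul k k M (S a)) (τ * d) :=
      Commute.mul_right (hτL _).symm (hdL _).symm
    simp only [dN_apply, mul_sub, sub_mul, ← hσ]
    congr 1
    · simp only [← mul_assoc, hdL]
    · rw [mul_assoc _ (σ ^ _), e1.eq, ← mul_assoc _ (τ * d), mul_assoc _ _ (τ * d), e2.eq]
      simp only [← mul_assoc, hτL]
  choose dX0 hdX0 using fun x => hsurj _ (dN_Nn _ (hN x))
  let dX : (T → M) →ₗ[E] (T → M) :=
    { toFun := dX0
      map_add' := fun x y => hinj (by simp only [hdX0, map_add])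
      map_smul' := fun e x => hinj (by simp only [hdX0, hact, dN_act, RingHom.id_apply]) }
  have hdX : ∀ x, Ψ (dX x) = dN (Ψ x) := hdX0
  let Pj : End k M := L.inc T (fun v => L.kb v)
  obtain ⟨P, hP⟩ := hsurj Pj (L.inc_Nn hT _)
  have Pj_lt : ∀ m ∈ Sp L.kb (fun v => L.jv v < J), Pj m = m := by
    intro m hm
    refine Sp_ext L.kb Pj LinearMap.id ?_ hm
    intro v hv
    exact L.inc_mem T _ ⟨v, (hT v).mpr hv⟩
  have Pj_comm : ∀ r, ∀ h ∈ L.HomS r 0, Pj * h = h * Pj := by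
    intro r h hh
    refine L.kb.ext fun v => ?_
    rw [End.mul_apply, End.mul_apply]
    by_cases hv : L.jv v < J
    · rw [Pj_lt _ (basis_mem_Sp _ hv), Pj_lt]
      refine Sp_mono _ ?_ (L.mem_GM.mp (hh v))
      rintro w ⟨_, h2⟩
      omega
    · rw [L.inc_not_mem T _ (by rw [hT]; exact hv), map_zero]
      exact L.inc_Nn hT _ _ (L.Mge_of_GM (by omega) (hh v))
  have Pj_Im : 1 - Pj ∈ L.Im J := by
    intro m
    refine Sp_map L.kb (1 - Pj) _ ?_ (mem_Sp_true _ m)
    intro v _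
    by_cases hv : L.jv v < J
    · rw [LinearMap.sub_apply, Pj_lt _ (basis_mem_Sp _ hv)]
      simp
    · rw [LinearMap.sub_apply, L.inc_not_mem T _ (by rw [hT]; exact hv), sub_zero]
      exact basis_mem_Sp _ (by omega)
  have hστH : σ * τ ∈ L.HomS 0 0 := L.HomS_mul hσH hτH rfl rfl
  refine retract L (Pi.basis (fun _ : T => L.bM)) (fun i => (L.row i.2 : ℤ) - L.row i.1.1.2)
    (fun i => (L.row i.2 : ℤ) - L.jv i.1) ?_ J ?_ dX ?_ ?_ ((L.Im J).comap Ψ) ?_ ?_ P ?_ ?_ ?_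
    (L.tr T ∘ₗ LinearMap.mulRight k (σ * τ) ∘ₗ Ψ) ?_ ?_ ?_ ?_ ?_ p h1 h2 j
  · intro i
    simp only [LinCx.jv]
    omega
  · intro i
    have := (hT _).mp i.1.2
    simp only [LinCx.jv] at this ⊢
    omega
  · intro i
    rw [hG, hdX, dN_apply]
    have := (hG _ _ _).mp (H.basis_mem_Gr _ _ _ i)
    exact Submodule.sub_mem _ (L.HomS_mul hdH this rfl (by simp))
      (L.HomS_mul hτH (L.HomS_mul this (L.HomS_mul hτH hdH rfl rfl) rfl rfl) (by omega) (by omega))
  · intro x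
    apply hinj
    rw [hdX, hdX, map_zero, dN_apply, dN_apply]
    have e1 : τ * d * (τ * d) = 0 := by
      rw [mul_assoc, ← mul_assoc d, ← neg_neg (d * τ), ← hτd, neg_mul, mul_assoc, hdd]
      simp
    simp only [mul_sub, sub_mul, mul_assoc (Ψ x), mul_assoc τ (_ * _), e1]
    rw [← mul_assoc d d, hdd, ← mul_assoc d τ, mul_assoc d (Ψ x), ← mul_assoc τ d (Ψ x * _), hτd]
    simp
  · intro β x hx
    rw [Submodule.mem_comap, hact]
    exact L.act_Im _ hx
  · intro r s x hx hx' hdx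
    obtain ⟨w, hw⟩ := hsurj (c * Ψ x) (L.Nn_mul_left _ (hN x))
    refine ⟨w, ?_, ?_, hinj ?_⟩
    · rw [Submodule.mem_comap, hw]
      exact L.Im_mul_left hc le_rfl hx
    · rw [hG, hw]
      exact L.HomS_mul hc ((hG _ _ _).mp hx') rfl (by simp)
    · have e1 := hdX x
      rw [hdx, map_zero, dN_apply, eq_comm, sub_eq_zero] at e1
      rw [hdX, hw, dN_apply, mul_assoc c, ← mul_assoc τ c, hτc, neg_mul, mul_assoc c, ← e1,
        sub_neg_eq_add]
      ext m
      exact hc' _ (hx m)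
  · rw [hG, hP]
    intro v
    by_cases hv : L.jv v < J
    · rw [Pj_lt _ (basis_mem_Sp _ hv), add_zero, add_zero]
      exact L.kb_mem v
    · rw [L.inc_not_mem T _ (by rw [hT]; exact hv)]
      exact Submodule.zero_mem _
  · apply hinj
    rw [hdX, hP, map_zero, dN_apply, Pj_comm _ _ (L.HomS_mul hτH hdH rfl (add_zero 0)),
      ← mul_assoc, ← mul_assoc, hττ, one_mul, sub_self]
  · intro β hβ
    rw [Submodule.mem_comap, hact, hP]
    have e1 : L.act S (H.b β) 1 = 0 := by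
      have := H.act_eq (Algebra.lsmul k k M) σ S 1 (basis_mem_Sp H.b (i := β) rfl)
      rw [H.act0_one _ S hS', if_neg hβ, zero_mul] at this
      exact this
    have e2 := L.act_Im (S := S) (H.b β) Pj_Im
    rw [map_sub, e1, zero_sub] at e2
    simpa using (L.Im J).neg_mem e2
  · intro x hx
    exact L.tr_Im hT (L.Im_mul_right hx _)
  · simp only [LinearMap.comp_apply, LinearMap.mulRight_apply, hP, L.tr_apply, End.mul_apply]
    rw [← hχ]
    refine Finset.sum_congr rfl fun v hv => ?_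
    rw [hτ, hσ, sgn_basis, map_smul, sgn_basis]
    simp only [map_smul, Pj_lt _ (basis_mem_Sp _ ((hT v).mp hv)), Basis.repr_self, Finsupp.smul_apply, Finsupp.single_eq_same,
      smul_eq_mul, mul_one, ← pow_add]
    apply neg_one_pow_congr'
    simp only [LinCx.jv]
    omega
  · intro x
    simp only [LinearMap.comp_apply, LinearMap.mulRight_apply, hdX, dN_apply, map_sub]
    rw [sub_eq_zero, mul_assoc d, L.tr_comm hT hdH le_rfl (L.Nn_mul_right (hN x) hστH (by omega)),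
      mul_assoc τ, L.tr_comm hT hτH le_rfl (L.Nn_mul_right (t := J) (L.Nn_mul_right (hN x)
        (L.HomS_mul hτH hdH rfl rfl) (by omega)) hστH (by omega))]
    congr 1
    simp only [mul_assoc]
    rw [hττ, mul_one, ← hσd.eq, ← mul_assoc τ σ, ← hστ.eq, mul_assoc]
  · intro β hβ x
    simp only [LinearMap.comp_apply, LinearMap.mulRight_apply, hact]
    refine H.act_trace _ σ S hS' L.sgn_lsmul τ hτL _ _ ?_ hβ
    intro a c n
    refine L.tr_comm hT (L.HomS_lsmul (basis_mem_Sp H.b rfl)) (by omega) ?_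
    exact L.Nn_mul_right (hN x) (L.HomS_mul (L.HomS_mul (L.HomS_lsmul (hS a))
      (L.HomS_pow hσH n) rfl rfl) hτH rfl rfl) (by omega)
  · intro i hi
    have := (hG _ _ _).mp (H.basis_mem_Gr _ _ _ i)
    exact L.tr_HomS (L.HomS_mul this hστH (zero_add _) (zero_add _)) hi

end Pool.Agent.MP_582538_al

end MrgPart4

-- marker of a merged file
example : 731051 + 112934 = 731051 + 112934 := rfl
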