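import Mathlib.Data.Int.ConditionallyCompleteOrder
import Mathlib.RingTheory.SimpleRing.Principal
import Mathlib.RingTheory.Henselian
import Mathlib.RingTheory.RegularLocalRing.Defs

-- ======== part 0: formerly Pool.Agent.MP_582538_al.Basic
section MrgPart0

set_option autoImplicit false

namespace Pool.Agent.MP_582538_al

open Module

/-- Recursion along a rank function. -/
theorem rec_fun {I Q : Type} [Nonempty Q] (r : I → ℕ) (Good : I → (I → Q) → Prop)
    (loc : ∀ i f g, (∀ i', r i' < r i → f i' = g i') → f i = g i → Good i f → Good i g)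
    (step : ∀ i (f : I → Q), (∀ i', r i' < r i → Good i' f) →
      ∃ g : I → Q, (∀ i', r i' < r i → g i' = f i') ∧ Good i g) :
    ∃ f : I → Q, ∀ i, Good i f := by
  classical
  have key : ∀ (f : I → Q) (n : ℕ), ∃ g : I → Q, (∀ i, r i < n → Good i f) →
      ((∀ i, r i < n → g i = f i) ∧ ∀ i, r i < n + 1 → Good i g) := by
    intro f n
    by_cases hf : ∀ i, r i < n → Good i f
    · have h1 : ∀ i, ∃ x : Q, r i = n → ∃ g : I → Q,
          (∀ i', r i' < r i → g i' = f i') ∧ Good i g ∧ g i = x := by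
        intro i
        by_cases hi : r i = n
        · obtain ⟨g, hg1, hg2⟩ := step i f (fun i' h => hf i' (hi ▸ h))
          exact ⟨g i, fun _ => ⟨g, hg1, hg2, rfl⟩⟩
        · exact ⟨Classical.arbitrary Q, fun h => absurd h hi⟩
      choose x hx using h1
      refine ⟨fun i => if r i = n then x i else f i, fun _ => ⟨?_, ?_⟩⟩
      · intro i hi
        simp [hi.ne]
      · intro i hi
        rcases Nat.lt_succ_iff_lt_or_eq.mp hi with h | h
        · refine loc i f _ ?_ ?_ (hf i h)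
          · intro i' hi'
            have : r i' ≠ n := by omega
            simp [this]
          · simp [h.ne]
        · obtain ⟨g, hg1, hg2, hg3⟩ := hx i h
          refine loc i g _ ?_ ?_ hg2
          · intro i' hi'
            have : r i' ≠ n := by omega
            simp [this, hg1 i' hi']
          · simp [h, hg3]
    · exact ⟨f, fun h => absurd h hf⟩
  choose nx hnx using key
  let s : ℕ → (I → Q) := fun n => Nat.rec (fun _ => Classical.arbitrary Q) (fun n f => nx f n) n
  have hs : ∀ n, s (n + 1) = nx (s n) n := fun n => rfl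
  have hgood : ∀ n i, r i < n → Good i (s n) := by
    intro n
    induction n with
    | zero => intro i hi; omega
    | succ n ih => rw [hs]; exact (hnx (s n) n ih).2
  have hst : ∀ n m i, r i < n → s (n + m) i = s n i := by
    intro n m i hi
    induction m with
    | zero => rfl
    | succ m ih =>
      rw [← add_assoc, hs, (hnx (s (n + m)) (n + m) (hgood _)).1 i (by omega), ih]
  refine ⟨fun i => s (r i + 1) i, fun i => ?_⟩
  refine loc i (s (r i + 1)) _ ?_ rfl (hgood (r i + 1) i (by omega))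
  intro i' hi'
  have := hst (r i' + 1) (r i - r i') i' (by omega)
  have h2 : r i' + 1 + (r i - r i') = r i + 1 := by omega
  rw [h2] at this
  exact this

section Sp

variable {A : Type} [Ring A] {Y : Type} [AddCommGroup Y] [Module A Y] {ι : Type}

/-- The span of the basis vectors whose index satisfies `p`. -/
def Sp (bas : Basis ι A Y) (p : ι → Prop) : Submodule A Y :=
  Submodule.span A (bas '' {i | p i})

theorem mem_Sp (bas : Basis ι A Y) (p : ι → Prop) (y : Y) :
    y ∈ Sp bas p ↔ ∀ i, bas.repr y i ≠ 0 → p i := by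
  unfold Sp
  rw [Basis.mem_span_image]
  constructor
  · intro h i hi
    exact h (Finsupp.mem_support_iff.mpr hi)
  · intro h i hi
    exact h i (Finsupp.mem_support_iff.mp hi)

theorem basis_mem_Sp (bas : Basis ι A Y) {p : ι → Prop} {i : ι} (h : p i) :
    bas i ∈ Sp bas p :=
  Submodule.subset_span ⟨i, h, rfl⟩

theorem Sp_mono (bas : Basis ι A Y) {p q : ι → Prop} (h : ∀ i, p i → q i) {y : Y}
    (hy : y ∈ Sp bas p) : y ∈ Sp bas q := by
  rw [mem_Sp] at hy ⊢
  exact fun i hi => h i (hy i hi)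

theorem Sp_and (bas : Basis ι A Y) {p q : ι → Prop} {y : Y}
    (hy : y ∈ Sp bas p) (hy' : y ∈ Sp bas q) : y ∈ Sp bas (fun i => p i ∧ q i) := by
  rw [mem_Sp] at hy hy' ⊢
  exact fun i hi => ⟨hy i hi, hy' i hi⟩

theorem Sp_eq_zero (bas : Basis ι A Y) {p : ι → Prop} (h : ∀ i, ¬ p i) {y : Y}
    (hy : y ∈ Sp bas p) : y = 0 := by
  rw [mem_Sp] at hy
  apply bas.repr.injective
  ext i
  by_contra hi
  exact h i (hy i (by simpa using hi))

theorem Sp_repr (bas : Basis ι A Y) {p : ι → Prop} {y : Y} (hy : y ∈ Sp bas p) {i : ι}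
    (h : ¬ p i) : bas.repr y i = 0 := by
  by_contra hi
  exact h ((mem_Sp bas p y).mp hy i hi)

theorem mem_Sp_true (bas : Basis ι A Y) (y : Y) : y ∈ Sp bas (fun _ => True) := by
  rw [mem_Sp]; simp

theorem Sp_map {Y' : Type} [AddCommGroup Y'] [Module A Y'] (bas : Basis ι A Y) {p : ι → Prop}
    (f : Y →ₗ[A] Y') (U : Submodule A Y') (h : ∀ i, p i → f (bas i) ∈ U) {y : Y}
    (hy : y ∈ Sp bas p) : f y ∈ U := by
  have : Sp bas p ≤ U.comap f := by
    unfold Sp
    rw [Submodule.span_le]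
    rintro _ ⟨i, hi, rfl⟩
    exact h i hi
  exact this hy

theorem Sp_ext {Y' : Type} [AddCommGroup Y'] [Module A Y'] (bas : Basis ι A Y) {p : ι → Prop}
    (f g : Y →ₗ[A] Y') (h : ∀ i, p i → f (bas i) = g (bas i)) {y : Y}
    (hy : y ∈ Sp bas p) : f y = g y :=
  LinearMap.eqOn_span' (by rintro _ ⟨i, hi, rfl⟩; exact h i hi) hy

theorem Sp_le (bas : Basis ι A Y) {p : ι → Prop} (U : Submodule A Y)
    (h : ∀ i, p i → bas i ∈ U) {y : Y} (hy : y ∈ Sp bas p) : y ∈ U :=
  Sp_map bas LinearMap.id U h hy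

/-- Recursive construction of a linear map on a free module. -/
theorem solve {Q : Type} [AddCommGroup Q] [Module A Q] (bas : Basis ι A Y) (r : ι → ℕ)
    (DP : Y →ₗ[A] Y) (hDP : ∀ i, DP (bas i) ∈ Sp bas (fun i' => r i' < r i))
    (Good : ι → Q → Q → Prop)
    (step : ∀ i (h : Y →ₗ[A] Q),
      (∀ i', r i' < r i → Good i' (h (bas i')) (h (DP (bas i')))) →
        ∃ x, Good i x (h (DP (bas i)))) :
    ∃ h : Y →ₗ[A] Q, ∀ i, Good i (h (bas i)) (h (DP (bas i))) := by
  classical
  have hloc : ∀ i (f g : ι → Q), (∀ i', r i' < r i → f i' = g i') →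
      bas.constr ℕ f (DP (bas i)) = bas.constr ℕ g (DP (bas i)) := by
    intro i f g hfg
    refine Sp_ext bas _ _ ?_ (hDP i)
    intro i' hi'
    simp [hfg i' hi']
  obtain ⟨f, hf⟩ := rec_fun (Q := Q) r
    (fun i f => Good i (f i) (bas.constr ℕ f (DP (bas i)))) (by
      intro i f g h1 h2 h3
      rw [← h2, ← hloc i f g h1]
      exact h3) (by
      intro i f hf
      obtain ⟨x, hx⟩ := step i (bas.constr ℕ f) (by
        intro i' hi'
        simpa using hf i' hi')
      have hup : ∀ i', r i' < r i → Function.update f i x i' = f i' := by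
        intro i' hi'
        have : i' ≠ i := by rintro rfl; omega
        simp [this]
      refine ⟨Function.update f i x, hup, ?_⟩
      rw [hloc i _ f hup]
      simpa using hx)
  exact ⟨bas.constr ℕ f, fun i => by simpa using hf i⟩

end Sp

/-- Factoring a functional through a map into a vector space over the residue field. -/
theorem factor_functional {R k U V : Type} [CommRing R] [Field k] [Algebra R k]
    (hk : Function.Surjective (algebraMap R k))
    [AddCommGroup U] [Module R U] [AddCommGroup V] [Module R V] [Module k V]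
    [IsScalarTower R k V] (α : U →ₗ[R] V) (l : U →ₗ[R] k) (h : ∀ u, α u = 0 → l u = 0) :
    ∃ l' : V →ₗ[k] k, ∀ u, l' (α u) = l u := by
  let G : Submodule k (V × k) :=
    { carrier := {z | ∃ u, z = (α u, l u)}
      add_mem' := by
        rintro _ _ ⟨u, rfl⟩ ⟨v, rfl⟩
        exact ⟨u + v, by simp⟩
      zero_mem' := ⟨0, by simp [Prod.ext_iff]⟩
      smul_mem' := by
        rintro c _ ⟨u, rfl⟩
        obtain ⟨c, rfl⟩ := hk c
        refine ⟨c • u, ?_⟩
        simp [Algebra.smul_def] }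
  let f1 : G →ₗ[k] V := (LinearMap.fst k V k) ∘ₗ G.subtype
  let f2 : G →ₗ[k] k := (LinearMap.snd k V k) ∘ₗ G.subtype
  have hinj : LinearMap.ker f1 = ⊥ := by
    rw [LinearMap.ker_eq_bot']
    rintro ⟨_, ⟨u, rfl⟩⟩ hz
    have h1 : α u = 0 := hz
    apply Subtype.ext
    simp [h1, h u h1]
  obtain ⟨g, hg⟩ := LinearMap.exists_leftInverse_of_injective f1 hinj
  refine ⟨f2 ∘ₗ g, fun u => ?_⟩
  have h1 : g (f1 ⟨(α u, l u), ⟨u, rfl⟩⟩) = ⟨(α u, l u), ⟨u, rfl⟩⟩ :=
    LinearMap.congr_fun hg _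
  have h2 : f1 ⟨(α u, l u), ⟨u, rfl⟩⟩ = α u := rfl
  rw [h2] at h1
  simp only [LinearMap.comp_apply, h1]
  rfl

/-- A triangular endomorphism with invertible diagonal is bijective, compatibly with
invariant subspaces. -/
theorem triangular {k X : Type} [Field k] [AddCommGroup X] [Module k X]
    (Φ Dg : X →ₗ[k] X) (hDg : ∀ x, Dg (Dg x) = x) (F : ℕ → Submodule k X) (J : ℕ)
    (h0 : ∀ x ∈ F 0, x = 0) (hJ : ∀ x, x ∈ F J)
    (hF : ∀ t, ∀ x ∈ F (t + 1), Φ (Dg x) - x ∈ F t) :
    Function.Injective Φ ∧ ∀ H : Submodule k X, (∀ x ∈ H, Φ x ∈ H) → (∀ x ∈ H, Dg x ∈ H) →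
      ∀ y ∈ H, ∃ x ∈ H, Φ x = y := by
  constructor
  · rw [← LinearMap.ker_eq_bot, LinearMap.ker_eq_bot']
    intro x hx
    have key : ∀ t, Dg x ∈ F t → Dg x = 0 := by
      intro t
      induction t with
      | zero => exact h0 _
      | succ t ih =>
        intro h
        have h1 := hF t _ h
        rw [hDg, hx, zero_sub] at h1
        exact ih (by simpa using (F t).neg_mem h1)
    rw [← hDg x, key J (hJ _), map_zero]
  · intro H h1 h2
    have key : ∀ t, ∀ y ∈ H, y ∈ F t → ∃ x ∈ H, Φ x = y := by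
      intro t
      induction t with
      | zero =>
        intro y _ hy
        exact ⟨0, H.zero_mem, by rw [h0 y hy, map_zero]⟩
      | succ t ih =>
        intro y hy hy'
        obtain ⟨x, hx1, hx2⟩ := ih _ (H.sub_mem (h1 _ (h2 _ hy)) hy) (hF t y hy')
        refine ⟨Dg y - x, H.sub_mem (h2 _ hy) hx1, ?_⟩
        rw [map_sub, hx2]
        abel
    exact fun y hy => key J y hy (hJ y)

end Pool.Agent.MP_582538_al

end MrgPart0

-- ======== part 1: formerly Pool.Agent.MP_582538_al.Retract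
section MrgPart1

set_option autoImplicit false

namespace Pool.Agent.MP_582538_al

open Module

/-- A connected graded algebra with a homogeneous basis. -/
structure GAlg (k E B : Type) [Field k] [Ring E] [Algebra k E] where
  b : Basis B k E
  deg : B → ℕ
  one : B
  b_one : b one = 1
  deg_one : deg one = 0
  eq_one : ∀ β, deg β = 0 → β = one
  mul_deg : ∀ β1 β2, b β1 * b β2 ∈ Sp b (fun β => deg β = deg β1 + deg β2)

variable {k E B : Type} [Field k] [Ring E] [Algebra k E] (G : GAlg k E B)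

section Free

variable {Y ι : Type} [AddCommGroup Y] [Module E Y] [Module k Y] [IsScalarTower k E Y]

/-- The vector space basis of a free module. -/
noncomputable def GAlg.kb (bY : Basis ι E Y) : Basis (B × ι) k Y := G.b.smulTower bY

theorem GAlg.kb_apply (bY : Basis ι E Y) (β : B) (i : ι) : G.kb bY (β, i) = G.b β • bY i := by
  simp [GAlg.kb]

theorem GAlg.kb_one (bY : Basis ι E Y) (i : ι) : G.kb bY (G.one, i) = bY i := by
  simp [GAlg.kb, G.b_one]

theorem GAlg.smul_Sp (bY : Basis ι E Y) (β : B) {p q : B × ι → Prop}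
    (h : ∀ β' i, p (β', i) → ∀ β'', G.deg β'' = G.deg β + G.deg β' → q (β'', i)) {y : Y}
    (hy : y ∈ Sp (G.kb bY) p) : G.b β • y ∈ Sp (G.kb bY) q := by
  refine Sp_map (G.kb bY) (Algebra.lsmul k k Y (G.b β)) _ ?_ hy
  rintro ⟨β', i⟩ hp
  rw [G.kb_apply, Algebra.lsmul_coe]
  beta_reduce
  rw [← mul_smul]
  refine Sp_map G.b ((LinearMap.toSpanSingleton E Y (bY i)).restrictScalars k) _ ?_
    (G.mul_deg β β')
  intro β'' hβ
  simp only [LinearMap.restrictScalars_apply, LinearMap.toSpanSingleton_apply]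
  rw [← G.kb_apply]
  exact basis_mem_Sp _ (h β' i hp β'' hβ)

theorem GAlg.Sp_free (bY : Basis ι E Y) {q : ι → Prop} {y : Y}
    (hy : y ∈ Sp (G.kb bY) (fun v => q v.2)) : y ∈ Sp bY q := by
  refine Sp_le (G.kb bY) ((Sp bY q).restrictScalars k) ?_ hy
  rintro ⟨β, i⟩ h
  rw [G.kb_apply]
  exact (Sp bY q).smul_mem _ (basis_mem_Sp _ h)

/-- The bigraded piece of a free module. -/
noncomputable def GAlg.Gr (bY : Basis ι E Y) (rw sh : ι → ℤ) (r s : ℤ) : Submodule k Y :=
  Sp (G.kb bY) (fun v => rw v.2 = r ∧ sh v.2 + G.deg v.1 = s)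

theorem GAlg.smul_Gr (bY : Basis ι E Y) (rw sh : ι → ℤ) (β : B) {r s : ℤ} {y : Y}
    (hy : y ∈ G.Gr bY rw sh r s) : G.b β • y ∈ G.Gr bY rw sh r (s + G.deg β) := by
  refine G.smul_Sp bY β ?_ hy
  rintro β' i ⟨h1, h2⟩ β'' h3
  refine ⟨h1, ?_⟩
  simp only at h2 ⊢
  rw [h3]
  push_cast
  omega

theorem GAlg.basis_mem_Gr (bY : Basis ι E Y) (rw sh : ι → ℤ) (i : ι) :
    bY i ∈ G.Gr bY rw sh (rw i) (sh i) := by
  rw [← G.kb_one]
  exact basis_mem_Sp _ ⟨rfl, by simp [G.deg_one]⟩

theorem GAlg.repr_smul_one (bY : Basis ι E Y) {β : B} (hβ : β ≠ G.one) (y : Y) (i : ι) :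
    (G.kb bY).repr (G.b β • y) (G.one, i) = 0 := by
  have h : G.b β • y ∈ Sp (G.kb bY) (fun v => G.deg β ≤ G.deg v.1) := by
    refine G.smul_Sp bY β ?_ (mem_Sp_true _ y)
    intro β' i _ β'' h
    simp only
    omega
  refine Sp_repr _ h ?_
  simp only [G.deg_one]
  intro h0
  exact hβ (G.eq_one β (by omega))

theorem GAlg.map_Gr {Y' ι' : Type} [AddCommGroup Y'] [Module E Y'] [Module k Y']
    [IsScalarTower k E Y'] (bY : Basis ι E Y) (rw sh : ι → ℤ) (bY' : Basis ι' E Y')
    (rw' sh' : ι' → ℤ) (f : Y →ₗ[E] Y') (r r' s : ℤ)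
    (h : ∀ i, rw i = r → f (bY i) ∈ G.Gr bY' rw' sh' r' (sh i)) {y : Y}
    (hy : y ∈ G.Gr bY rw sh r s) : f y ∈ G.Gr bY' rw' sh' r' s := by
  refine Sp_map (G.kb bY) (f.restrictScalars k) _ ?_ hy
  rintro ⟨β, i⟩ ⟨h1, h2⟩
  rw [G.kb_apply, LinearMap.restrictScalars_apply, map_smul, ← h2]
  exact G.smul_Gr bY' rw' sh' β (h i h1)

theorem GAlg.ext_Gr {Y' : Type} [AddCommGroup Y'] [Module E Y'] [Module k Y']
    [IsScalarTower k E Y'] (bY : Basis ι E Y) (rw sh : ι → ℤ)
    (f g : Y →ₗ[E] Y') (r s : ℤ) (h : ∀ i, rw i = r → f (bY i) = g (bY i)) {y : Y}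
    (hy : y ∈ G.Gr bY rw sh r s) : f y = g y := by
  refine Sp_ext (G.kb bY) (f.restrictScalars k) (g.restrictScalars k) ?_ hy
  rintro ⟨β, i⟩ ⟨h1, _⟩
  simp only [G.kb_apply, LinearMap.restrictScalars_apply, map_smul, h i h1]

end Free

/-- A linear complex of free modules with augmentation generator. -/
structure LinCx (C M : Type) [AddCommGroup M] [Module E M] [Module k M] [IsScalarTower k E M]
    where
  bM : Basis C E M
  row : C → ℕ
  g0 : C
  row_g0 : row g0 = 0
  eq_g0 : ∀ γ, row γ = 0 → γ = g0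
  d : M →ₗ[E] M
  d_deg : ∀ γ, d (bM γ) ∈ G.Gr bM (fun γ => row γ) (fun γ => row γ) (row γ - 1) (row γ)
  dd : ∀ m, d (d m) = 0

variable {G}
variable {C M : Type} [AddCommGroup M] [Module E M] [Module k M] [IsScalarTower k E M]

/-- Bigraded pieces of the linear complex. -/
noncomputable def LinCx.GM (L : LinCx G C M) (q j : ℤ) : Submodule k M :=
  G.Gr L.bM (fun γ => L.row γ) (fun γ => L.row γ) q j

/-- The augmentation. -/
noncomputable def LinCx.aug (L : LinCx G C M) : M →ₗ[k] k := (G.kb L.bM).coord (G.one, L.g0)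

/-- Reduced exactness at a bidegree. -/
def LinCx.Ex (L : LinCx G C M) (q j : ℤ) : Prop :=
  ∀ z ∈ L.GM q j, L.d z = 0 → L.aug z = 0 → ∃ w ∈ L.GM (q + 1) j, L.d w = z

theorem LinCx.GM_zero (L : LinCx G C M) {q j : ℤ} (h : q < 0 ∨ j < q) {z : M}
    (hz : z ∈ L.GM q j) : z = 0 := by
  refine Sp_eq_zero _ ?_ hz
  rintro ⟨β, γ⟩ ⟨h1, h2⟩
  simp only at h1 h2
  omega

theorem LinCx.Ex_neg (L : LinCx G C M) {q : ℤ} (h : q < 0) (j : ℤ) : L.Ex q j := by
  intro z hz _ _
  exact ⟨0, Submodule.zero_mem _, by rw [L.GM_zero (Or.inl h) hz, map_zero]⟩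

theorem LinCx.aug_GM (L : LinCx G C M) {q j : ℤ} (h : ¬ (q = 0 ∧ j = 0)) {z : M}
    (hz : z ∈ L.GM q j) : L.aug z = 0 := by
  refine Sp_repr _ hz ?_
  simp only [L.row_g0, G.deg_one]
  omega

theorem LinCx.d_GM (L : LinCx G C M) {q j : ℤ} {z : M} (hz : z ∈ L.GM q j) :
    L.d z ∈ L.GM (q - 1) j := by
  refine G.map_Gr L.bM _ _ L.bM _ _ L.d q (q - 1) j ?_ hz
  intro γ hγ
  have := L.d_deg γ
  rw [← hγ]
  exact this

open Classical in
theorem LinCx.aug_basis (L : LinCx G C M) (β : B) (γ : C) :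
    L.aug (G.b β • L.bM γ) = if β = G.one ∧ γ = L.g0 then 1 else 0 := by
  rw [← G.kb_apply, LinCx.aug, Basis.coord_apply, Basis.repr_self, Finsupp.single_apply]
  simp [Prod.ext_iff]

theorem LinCx.aug_g0 (L : LinCx G C M) : L.aug (L.bM L.g0) = 1 := by
  have := L.aug_basis G.one L.g0
  simpa [G.b_one] using this

theorem LinCx.d_g0 (L : LinCx G C M) : L.d (L.bM L.g0) = 0 := by
  have := L.d_deg L.g0
  refine L.GM_zero (Or.inl ?_) this
  simp [L.row_g0]

/-- The retract argument. -/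
theorem retract (L : LinCx G C M) {X ι : Type} [AddCommGroup X] [Module E X] [Module k X]
    [IsScalarTower k E X] (bX : Basis ι E X) (rw sh : ι → ℤ) (hsh : ∀ i, sh i ≤ rw i) (N : ℕ)
    (hN : ∀ i, 0 ≤ rw i + N) (dX : X →ₗ[E] X)
    (hdX : ∀ i, dX (bX i) ∈ G.Gr bX rw sh (rw i - 1) (sh i)) (hddX : ∀ x, dX (dX x) = 0)
    (K : Submodule k X) (hK : ∀ β, ∀ x ∈ K, G.b β • x ∈ K)
    (hKex : ∀ r s, ∀ x ∈ K, x ∈ G.Gr bX rw sh r s → dX x = 0 →
      ∃ w ∈ K, w ∈ G.Gr bX rw sh (r + 1) s ∧ dX w = x)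
    (P : X) (hP : P ∈ G.Gr bX rw sh 0 0) (hdP : dX P = 0)
    (hPK : ∀ β, β ≠ G.one → G.b β • P ∈ K) (t : X →ₗ[k] k) (htK : ∀ x ∈ K, t x = 0)
    (htP : t P = 1) (htd : ∀ x, t (dX x) = 0) (hte : ∀ β, β ≠ G.one → ∀ x, t (G.b β • x) = 0)
    (ht0 : ∀ i, ¬ (rw i = 0 ∧ sh i = 0) → t (bX i) = 0)
    (p : ℕ) (h1 : ∀ q : ℤ, q < p → ∀ j, L.Ex q j) (h2 : ∀ j : ℤ, j ≤ p + 1 → L.Ex p j) (j : ℤ) :
    L.Ex p j := by
  classical
  -- properties of a map defined in low rows
  have gprop : ∀ (g : X →ₗ[E] M) (r : ℤ), (∀ i, rw i = r → g (bX i) ∈ L.GM (rw i) (sh i) ∧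
      L.d (g (bX i)) = g (dX (bX i)) ∧ L.aug (g (bX i)) = t (bX i)) →
      ∀ s, ∀ u ∈ G.Gr bX rw sh r s, g u ∈ L.GM r s ∧ L.d (g u) = g (dX u) ∧
        L.aug (g u) = t u := by
    intro g r H s u hu
    refine ⟨?_, ?_, ?_⟩
    · refine G.map_Gr bX rw sh L.bM _ _ g r r s ?_ hu
      intro i hi
      have := (H i hi).1
      rw [hi] at this
      exact this
    · exact G.ext_Gr bX rw sh (L.d ∘ₗ g) (g ∘ₗ dX) r s (fun i hi => (H i hi).2.1) hu
    · refine Sp_ext (G.kb bX) (L.aug ∘ₗ g.restrictScalars k) t ?_ hu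
      rintro ⟨β, i⟩ ⟨hi, _⟩
      simp only [G.kb_apply, LinearMap.comp_apply, LinearMap.restrictScalars_apply, map_smul]
      by_cases hβ : β = G.one
      · rw [hβ, G.b_one, one_smul, one_smul]
        exact (H i hi).2.2
      · rw [hte β hβ]
        exact G.repr_smul_one L.bM hβ _ _
  obtain ⟨g, hg⟩ := solve (Q := M) bX (fun i => (rw i + N).toNat) dX (by
      intro i
      refine G.Sp_free bX (Sp_mono _ ?_ (hdX i))
      rintro ⟨β, i'⟩ ⟨h, _⟩
      have := hN i'
      simp only at h ⊢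
      omega)
    (fun i x y => rw i ≤ p + 1 → x ∈ L.GM (rw i) (sh i) ∧ L.d x = y ∧ L.aug x = t (bX i)) (by
      intro i h H
      by_cases hi : rw i ≤ p + 1
      swap
      · exact ⟨0, fun h => absurd h hi⟩
      obtain ⟨e1, e2, e3⟩ := gprop h (rw i - 1) (by
        intro i' hi'
        have := hN i'
        exact H i' (by omega) (by omega)) (sh i) _ (hdX i)
      by_cases h0 : rw i = 0 ∧ sh i = 0
      · refine ⟨t (bX i) • L.bM L.g0, fun _ => ⟨?_, ?_, ?_⟩⟩
        · refine Submodule.smul_mem _ _ ?_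
          have := G.basis_mem_Gr L.bM (fun γ => L.row γ) (fun γ => L.row γ) L.g0
          simp only [L.row_g0] at this
          rw [h0.1, h0.2]
          exact this
        · rw [LinearMap.map_smul_of_tower, L.d_g0, smul_zero]
          exact (L.GM_zero (Or.inl (by omega)) e1).symm
        · rw [map_smul, L.aug_g0, smul_eq_mul, mul_one]
      · have hex : L.Ex (rw i - 1) (sh i) := by
          by_cases hlt : rw i - 1 < p
          · exact h1 _ hlt _
          · have : rw i - 1 = p := by omega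
            rw [this]
            have := hsh i
            exact h2 _ (by omega)
        obtain ⟨w, hw1, hw2⟩ := hex _ e1 (by rw [e2, hddX, map_zero]) (by rw [e3, htd])
        rw [sub_add_cancel] at hw1
        exact ⟨w, fun _ => ⟨hw1, hw2, by rw [L.aug_GM h0 hw1, ht0 i h0]⟩⟩)
  have hg' : ∀ r : ℤ, r ≤ p + 1 → ∀ s, ∀ u ∈ G.Gr bX rw sh r s,
      g u ∈ L.GM r s ∧ L.d (g u) = g (dX u) ∧ L.aug (g u) = t u :=
    fun r hr => gprop g r (fun i hi => hg i (by omega))
  have fprop : ∀ (f : M →ₗ[E] X) (r : ℤ), (∀ γ, (L.row γ : ℤ) = r →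
      f (L.bM γ) ∈ G.Gr bX rw sh (L.row γ) (L.row γ) ∧ dX (f (L.bM γ)) = f (L.d (L.bM γ)) ∧
      f (L.bM γ) - L.aug (L.bM γ) • P ∈ K ∧ (γ = L.g0 → f (L.bM γ) = P)) →
      ∀ s, ∀ u ∈ L.GM r s, f u ∈ G.Gr bX rw sh r s ∧ dX (f u) = f (L.d u) ∧
        f u - L.aug u • P ∈ K := by
    intro f r H s u hu
    refine ⟨?_, ?_, ?_⟩
    · refine G.map_Gr L.bM _ _ bX rw sh f r r s ?_ hu
      intro γ hγ
      have := (H γ hγ).1
      rw [← hγ]
      exact this
    · exact G.ext_Gr L.bM _ _ (dX ∘ₗ f) (f ∘ₗ L.d) r s (fun γ hγ => (H γ hγ).2.1) hu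
    · refine Sp_map (G.kb L.bM) (f.restrictScalars k - L.aug.smulRight P) K ?_ hu
      rintro ⟨β, γ⟩ ⟨hγ, _⟩
      simp only [G.kb_apply, LinearMap.sub_apply, LinearMap.restrictScalars_apply, map_smul,
        LinearMap.smulRight_apply]
      by_cases hβ : β = G.one
      · rw [hβ, G.b_one, one_smul, one_smul]
        exact (H γ hγ).2.2.1
      · rw [L.aug_basis, if_neg (by tauto), zero_smul, sub_zero]
        by_cases hγ0 : γ = L.g0
        · rw [(H γ hγ).2.2.2 hγ0]
          exact hPK β hβ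
        · apply hK
          have h3 := (H γ hγ).2.2.1
          have h4 := L.aug_basis G.one γ
          rw [G.b_one, one_smul, if_neg (by tauto)] at h4
          rwa [h4, zero_smul, sub_zero] at h3
  obtain ⟨f, hf⟩ := solve (Q := X) L.bM L.row L.d (by
      intro γ
      refine G.Sp_free L.bM (Sp_mono _ ?_ (L.d_deg γ))
      rintro ⟨β, γ'⟩ ⟨h, _⟩
      simp only at h ⊢
      omega)
    (fun γ x y => x ∈ G.Gr bX rw sh (L.row γ) (L.row γ) ∧ dX x = y ∧
      x - L.aug (L.bM γ) • P ∈ K ∧ (γ = L.g0 → x = P)) (by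
      intro γ h H
      by_cases hγ : γ = L.g0
      · subst hγ
        refine ⟨P, ?_, ?_, ?_, fun _ => rfl⟩
        · simpa [L.row_g0] using hP
        · rw [hdP, L.d_g0, map_zero]
        · rw [L.aug_g0, one_smul, sub_self]
          exact K.zero_mem
      · obtain ⟨e1, e2, e3⟩ := fprop h (L.row γ - 1) (by
          intro γ' hγ'
          exact H γ' (by omega)) (L.row γ) _ (L.d_deg γ)
        rw [L.aug_GM (by omega) (L.d_deg γ), zero_smul, sub_zero] at e3
        obtain ⟨w, hw1, hw2, hw3⟩ := hKex _ _ _ e3 e1 (by rw [e2, L.dd, map_zero])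
        rw [sub_add_cancel] at hw2
        refine ⟨w, hw2, hw3, ?_, fun h => absurd h hγ⟩
        have h4 := L.aug_basis G.one γ
        rw [G.b_one, one_smul, if_neg (by tauto)] at h4
        rwa [h4, zero_smul, sub_zero])
  have hf' : ∀ r s, ∀ u ∈ L.GM r s, f u ∈ G.Gr bX rw sh r s ∧ dX (f u) = f (L.d u) ∧
        f u - L.aug u • P ∈ K := fun r => fprop f r (fun γ _ => hf γ)
  have hgf : ∀ q : ℕ, q ≤ p → ∀ γ, L.row γ = q → g (f (L.bM γ)) = L.bM γ := by
    intro q
    induction q using Nat.strong_induction_on with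
    | _ q ih =>
      intro hq γ hγ
      have hb : L.bM γ ∈ L.GM q q := by
        have := G.basis_mem_Gr L.bM (fun γ => L.row γ) (fun γ => L.row γ) γ
        simp only [hγ] at this
        exact this
      obtain ⟨e1, e2, e3⟩ := hf' _ _ _ hb
      obtain ⟨e4, e5, e6⟩ := hg' q (by omega) _ _ e1
      have hex : L.Ex q q := by
        by_cases hlt : q < p
        · exact h1 _ (by omega) _
        · have : q = p := by omega
          rw [this]
          exact h2 _ (by omega)
      have hd : g (f (L.d (L.bM γ))) = L.d (L.bM γ) := by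
        refine G.ext_Gr L.bM _ _ (g ∘ₗ f) LinearMap.id _ _ ?_ (L.d_deg γ)
        intro γ' hγ'
        exact ih (L.row γ') (by omega) (by omega) γ' rfl
      obtain ⟨w, hw1, hw2⟩ := hex _ (Submodule.sub_mem _ e4 hb)
        (by rw [map_sub, e5, e2, hd, sub_self]) (by
          have := htK _ e3
          rw [map_sub, map_smul, htP, smul_eq_mul, mul_one] at this
          rw [map_sub, e6, this])
      rw [L.GM_zero (Or.inr (by omega)) hw1, map_zero] at hw2
      exact (sub_eq_zero.mp hw2.symm)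
  intro z hz hdz haz
  obtain ⟨e1, e2, e3⟩ := hf' _ _ _ hz
  rw [haz, zero_smul, sub_zero] at e3
  obtain ⟨w, _, hw2, hw3⟩ := hKex _ _ _ e3 e1 (by rw [e2, hdz, map_zero])
  obtain ⟨e4, e5, _⟩ := hg' _ le_rfl _ _ hw2
  refine ⟨g w, e4, ?_⟩
  rw [e5, hw3]
  refine G.ext_Gr L.bM _ _ (g ∘ₗ f) LinearMap.id _ _ ?_ hz
  intro γ hγ
  exact hgf p le_rfl γ (by simpa using hγ)

end Pool.Agent.MP_582538_al

end MrgPart1

-- ======== part 2: formerly Pool.Agent.MP_582538_al.Sweedler
section MrgPart2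

set_option autoImplicit false

namespace Pool.Agent.MP_582538_al

open Module

section Sgn

variable {A : Type} [CommRing A] {Y Y' : Type} [AddCommGroup Y] [Module A Y] [AddCommGroup Y']
  [Module A Y'] {ι ι' : Type}

/-- The sign operator of a grading. -/
noncomputable def sgn (bas : Basis ι A Y) (n : ι → ℕ) : Y →ₗ[A] Y :=
  bas.constr ℕ (fun i => (-1 : A) ^ n i • bas i)

theorem sgn_basis (bas : Basis ι A Y) (n : ι → ℕ) (i : ι) :
    sgn bas n (bas i) = (-1 : A) ^ n i • bas i := by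
  simp [sgn]

attribute [irreducible] sgn

theorem neg_one_pow_congr' {a b : ℕ} (h : a % 2 = b % 2) : (-1 : A) ^ a = (-1 : A) ^ b := by
  rw [neg_one_pow_eq_pow_mod_two, h, ← neg_one_pow_eq_pow_mod_two]

theorem sgn_apply (bas : Basis ι A Y) (n : ι → ℕ) (a : ℕ) {y : Y}
    (hy : y ∈ Sp bas (fun i => n i % 2 = a % 2)) : sgn bas n y = (-1 : A) ^ a • y := by
  refine Sp_ext bas (sgn bas n) ((-1 : A) ^ a • LinearMap.id) ?_ hy
  intro i hi
  rw [sgn_basis, neg_one_pow_congr' hi]
  simp

theorem sgn_sgn (bas : Basis ι A Y) (n : ι → ℕ) (y : Y) : sgn bas n (sgn bas n y) = y := by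
  refine Sp_ext bas (sgn bas n ∘ₗ sgn bas n) LinearMap.id ?_ (mem_Sp_true bas y)
  intro i _
  simp only [LinearMap.comp_apply, sgn_basis, map_smul, smul_smul, LinearMap.id_apply]
  rw [← pow_add, ← two_mul, pow_mul]
  simp

theorem sgn_mem (bas : Basis ι A Y) (n : ι → ℕ) {p : ι → Prop} {y : Y} (hy : y ∈ Sp bas p) :
    sgn bas n y ∈ Sp bas p := by
  refine Sp_map bas _ _ ?_ hy
  intro i hi
  rw [sgn_basis]
  exact Submodule.smul_mem _ _ (basis_mem_Sp _ hi)

theorem sgn_comm (bas : Basis ι A Y) (n : ι → ℕ) (bas' : Basis ι' A Y') (n' : ι' → ℕ)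
    (f : Y →ₗ[A] Y') (a : ℕ)
    (h : ∀ i, f (bas i) ∈ Sp bas' (fun i' => n' i' % 2 = (n i + a) % 2)) (y : Y) :
    sgn bas' n' (f y) = (-1 : A) ^ a • f (sgn bas n y) := by
  refine Sp_ext bas (sgn bas' n' ∘ₗ f) ((-1 : A) ^ a • (f ∘ₗ sgn bas n)) ?_ (mem_Sp_true bas y)
  intro i _
  simp only [LinearMap.comp_apply, LinearMap.smul_apply, sgn_basis, map_smul, smul_smul]
  rw [sgn_apply bas' n' _ (h i), ← pow_add, add_comm]

end Sgn

section Ev

variable {k E B : Type} [Field k] [AddCommGroup E] [Module k E]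
  {A A' : Type} [AddCommGroup A] [Module k A] [AddCommGroup A'] [Module k A']

/-- Evaluation of a two-variable function along a coproduct. -/
noncomputable def ev2 (Δ : E →ₗ[k] (B × B →₀ k)) (f : B → B → A) : E →ₗ[k] A :=
  Finsupp.linearCombination k (fun p : B × B => f p.1 p.2) ∘ₗ Δ

theorem ev2_apply (Δ : E →ₗ[k] (B × B →₀ k)) (f : B → B → A) (e : E) :
    ev2 Δ f e = ∑ p ∈ (Δ e).support, Δ e p • f p.1 p.2 := by
  simp [ev2, Finsupp.linearCombination_apply, Finsupp.sum]

theorem ev2_map (Δ : E →ₗ[k] (B × B →₀ k)) (f : B → B → A) (e : E) (φ : A →ₗ[k] A') :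
    φ (ev2 Δ f e) = ev2 Δ (fun a b => φ (f a b)) e := by
  simp [ev2_apply, map_sum]

theorem ev2_congr (Δ : E →ₗ[k] (B × B →₀ k)) {f g : B → B → A} {e : E}
    (h : ∀ a b, Δ e (a, b) ≠ 0 → f a b = g a b) : ev2 Δ f e = ev2 Δ g e := by
  simp only [ev2_apply]
  refine Finset.sum_congr rfl ?_
  rintro ⟨a, b⟩ hp
  rw [h a b (Finsupp.mem_support_iff.mp hp)]

theorem ev2_mem (Δ : E →ₗ[k] (B × B →₀ k)) {f : B → B → A} {e : E} (U : Submodule k A)
    (h : ∀ a b, Δ e (a, b) ≠ 0 → f a b ∈ U) : ev2 Δ f e ∈ U := by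
  simp only [ev2_apply]
  refine U.sum_mem ?_
  rintro ⟨a, b⟩ hp
  exact U.smul_mem _ (h a b (Finsupp.mem_support_iff.mp hp))

theorem ev2_add (Δ : E →ₗ[k] (B × B →₀ k)) (f g : B → B → A) (e : E) :
    ev2 Δ (fun a b => f a b + g a b) e = ev2 Δ f e + ev2 Δ g e := by
  simp [ev2_apply, Finset.sum_add_distrib]

theorem ev2_sub (Δ : E →ₗ[k] (B × B →₀ k)) (f g : B → B → A) (e : E) :
    ev2 Δ (fun a b => f a b - g a b) e = ev2 Δ f e - ev2 Δ g e := by
  simp [ev2_apply, smul_sub]

theorem ev2_smul (Δ : E →ₗ[k] (B × B →₀ k)) (c : k) (f : B → B → A) (e : E) :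
    ev2 Δ (fun a b => c • f a b) e = c • ev2 Δ f e := by
  simp [ev2_apply, Finset.smul_sum, smul_comm c]

theorem ev2_zero (Δ : E →ₗ[k] (B × B →₀ k)) (e : E) :
    ev2 Δ (fun _ _ => (0 : A)) e = 0 := by
  simp [ev2_apply]

theorem ev2_comm (Δ : E →ₗ[k] (B × B →₀ k)) (f : B → B → B → B → A) (e1 e2 : E) :
    ev2 Δ (fun a b => ev2 Δ (fun c d => f a b c d) e2) e1 =
      ev2 Δ (fun c d => ev2 Δ (fun a b => f a b c d) e1) e2 := by
  simp only [ev2_apply, Finset.smul_sum]
  rw [Finset.sum_comm]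
  refine Finset.sum_congr rfl fun _ _ => Finset.sum_congr rfl fun _ _ => smul_comm _ _ _

theorem ev2_mul_right {W : Type} [Ring W] [Algebra k W] (Δ : E →ₗ[k] (B × B →₀ k))
    (f : B → B → W) (e : E) (w : W) : ev2 Δ f e * w = ev2 Δ (fun a b => f a b * w) e := by
  simp [ev2_apply, Finset.sum_mul]

theorem ev2_mul_left {W : Type} [Ring W] [Algebra k W] (Δ : E →ₗ[k] (B × B →₀ k))
    (f : B → B → W) (e : E) (w : W) : w * ev2 Δ f e = ev2 Δ (fun a b => w * f a b) e := by
  simp [ev2_apply, Finset.mul_sum]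

end Ev

/-- A connected graded algebra with a cocommutative, coassociative, multiplicative coproduct
(signs as for the Yoneda algebra of a local ring). -/
structure Hopf (k E B : Type) [Field k] [Ring E] [Algebra k E] extends GAlg k E B where
  Δ : E →ₗ[k] (B × B →₀ k)
  Δ_deg : ∀ β a c, Δ (b β) (a, c) ≠ 0 → deg a + deg c = deg β
  Δ_left : ∀ e β, Δ e (one, β) = b.repr e β
  Δ_right : ∀ e β, Δ e (β, one) = b.repr e β
  cocomm : ∀ e a c, Δ e (a, c) = (-1 : k) ^ (deg a * deg c) * Δ e (c, a)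
  coassoc : ∀ (A : Type) [AddCommGroup A] [Module k A] (f : B → B → B → A) (e : E),
    ev2 Δ (fun β1 δ => ev2 Δ (fun β2 β3 => f β1 β2 β3) (b δ)) e =
      ev2 Δ (fun δ β3 => ev2 Δ (fun β1 β2 => f β1 β2 β3) (b δ)) e
  mult : ∀ (A : Type) [AddCommGroup A] [Module k A] (Λ : E →ₗ[k] E →ₗ[k] A) (β1 β2 : B),
    ev2 Δ (fun a c => Λ (b a) (b c)) (b β1 * b β2) =
      ev2 Δ (fun a1 c1 => ev2 Δ (fun a2 c2 =>
        (-1 : k) ^ (deg a1 * deg c2) • Λ (b a1 * b a2) (b c1 * b c2)) (b β2)) (b β1)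

variable {k E B : Type} [Field k] [Ring E] [Algebra k E] (H : Hopf k E B)
  {A : Type} [AddCommGroup A] [Module k A]

theorem Hopf.ev2_left {f : B → B → A} (β : B) (h : ∀ a c, a ≠ H.one → f a c = 0) :
    ev2 H.Δ f (H.b β) = f H.one β := by
  classical
  rw [ev2_apply, Finset.sum_eq_single (H.one, β)]
  · simp [H.Δ_left]
  · rintro ⟨a, c⟩ _ hp
    by_cases ha : a = H.one
    · subst ha
      have : β ≠ c := by rintro rfl; exact hp rfl
      simp [H.Δ_left, this]
    · simp [h a c ha]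
  · intro hp
    simp [H.Δ_left] at hp

theorem Hopf.ev2_right {f : B → B → A} (β : B) (h : ∀ a c, c ≠ H.one → f a c = 0) :
    ev2 H.Δ f (H.b β) = f β H.one := by
  classical
  rw [ev2_apply, Finset.sum_eq_single (β, H.one)]
  · simp [H.Δ_right]
  · rintro ⟨a, c⟩ _ hp
    by_cases hc : c = H.one
    · subst hc
      have : β ≠ a := by rintro rfl; exact hp rfl
      simp [H.Δ_right, this]
    · simp [h a c hc]
  · intro hp
    simp [H.Δ_right] at hp

open Classical in
theorem Hopf.ev2_split (f : B → B → A) (β : B) :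
    ev2 H.Δ f (H.b β) =
      f H.one β + ev2 H.Δ (fun a c => if a = H.one then 0 else f a c) (H.b β) := by
  have h1 := H.ev2_left (f := fun a c => if a = H.one then f a c else 0) β (by
    intro a c ha
    simp [ha])
  simp only [if_true] at h1
  rw [← h1, ← ev2_add]
  refine ev2_congr _ ?_
  intro a c _
  by_cases ha : a = H.one <;> simp [ha]

theorem Hopf.ev2_cocomm (f : B → B → A) (e : E) :
    ev2 H.Δ (fun a c => (-1 : k) ^ (H.deg a * H.deg c) • f c a) e = ev2 H.Δ f e := by
  simp only [ev2_apply]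
  have hs : ∀ p : B × B, p ∈ (H.Δ e).support → p.swap ∈ (H.Δ e).support := by
    rintro ⟨a, c⟩ hp
    rw [Finsupp.mem_support_iff] at hp ⊢
    intro h0
    apply hp
    rw [H.cocomm]
    simp only [Prod.swap] at h0
    rw [h0, mul_zero]
  refine Finset.sum_nbij' Prod.swap Prod.swap hs hs (by simp) (by simp) ?_
  rintro ⟨a, c⟩ _
  simp only [Prod.swap, smul_smul]
  rw [H.cocomm e c a, mul_comm (H.deg c), mul_comm]

theorem Hopf.deg_lt {β a c : B} (h : H.Δ (H.b β) (a, c) ≠ 0) (ha : a ≠ H.one) :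
    H.deg c < H.deg β := by
  have h1 := H.Δ_deg β a c h
  have h2 : H.deg a ≠ 0 := fun h0 => ha (H.eq_one a h0)
  omega

open Classical in
/-- Existence of the antipode. -/
theorem Hopf.antipode : ∃ S : B → E, ∀ β, S β ∈ Sp H.b (fun β' => H.deg β' = H.deg β) ∧
    ev2 H.Δ (fun a c => S c * H.b a) (H.b β) = if β = H.one then 1 else 0 := by
  have hloc : ∀ β (f g : B → E), (∀ β', H.deg β' < H.deg β → f β' = g β') →
      ev2 H.Δ (fun a c => if a = H.one then 0 else f c * H.b a) (H.b β) =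
        ev2 H.Δ (fun a c => if a = H.one then 0 else g c * H.b a) (H.b β) := by
    intro β f g hfg
    refine ev2_congr _ ?_
    intro a c h
    by_cases ha : a = H.one
    · simp [ha]
    · simp [ha, hfg c (H.deg_lt h ha)]
  refine rec_fun H.deg _ ?_ ?_
  · rintro β f g h1 h2 ⟨h3, h4⟩
    refine ⟨h2 ▸ h3, ?_⟩
    rw [H.ev2_split] at h4 ⊢
    rw [← h2, ← hloc β f g h1]
    exact h4
  · intro β f hf
    let x : E := (if β = H.one then 1 else 0) -
      ev2 H.Δ (fun a c => if a = H.one then 0 else f c * H.b a) (H.b β)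
    have hup : ∀ β', H.deg β' < H.deg β → Function.update f β x β' = f β' := by
      intro β' hβ'
      have : β' ≠ β := by rintro rfl; omega
      simp [this]
    refine ⟨Function.update f β x, hup, ?_, ?_⟩
    · rw [Function.update_self]
      refine Submodule.sub_mem _ ?_ (ev2_mem _ _ ?_)
      · split_ifs with h
        · rw [← H.b_one, h]
          exact basis_mem_Sp _ rfl
        · exact Submodule.zero_mem _
      · intro a c h
        split_ifs with ha
        · exact Submodule.zero_mem _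
        · refine Sp_map H.b (LinearMap.mulRight k (H.b a)) _ ?_ (hf c (H.deg_lt h ha)).1
          intro c' hc'
          refine Sp_mono _ ?_ (H.mul_deg c' a)
          intro β' hβ'
          have := H.Δ_deg β a c h
          omega
    · rw [H.ev2_split, hloc β _ f hup, Function.update_self, H.b_one, mul_one]
      simp [x]

/-- Cancellation in the convolution algebra. -/
theorem Hopf.cancel {W : Type} [Ring W] [Algebra k W] (L : E →ₐ[k] W) (Y : B → W)
    (h : ∀ β, ev2 H.Δ (fun a c => Y c * L (H.b a)) (H.b β) = 0) (β : B) : Y β = 0 := by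
  classical
  induction hn : H.deg β using Nat.strong_induction_on generalizing β with
  | _ n ih =>
    have h1 := h β
    rw [H.ev2_split, H.b_one, map_one, mul_one] at h1
    have h2 : ev2 H.Δ (fun a c => if a = H.one then 0 else Y c * L (H.b a)) (H.b β) = 0 := by
      refine (ev2_congr _ ?_).trans (ev2_zero (A := W) H.Δ (H.b β))
      intro a c hac
      split_ifs with ha
      · rfl
      · rw [ih (H.deg c) (hn ▸ H.deg_lt hac ha) c rfl, zero_mul]
    rwa [h2, add_zero] at h1

end Pool.Agent.MP_582538_al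

end MrgPart2

-- ======== part 3: formerly Pool.Agent.MP_582538_al.Yoneda
section MrgPart3

set_option autoImplicit false

namespace Pool.Agent.MP_582538_al

open Module Finsupp

/-- The structure carried by the Tor algebra of the residue field. -/
structure TData (k B : Type) [Field k] where
  deg : B → ℕ
  one : B
  deg_one : deg one = 0
  eq_one : ∀ β, deg β = 0 → β = one
  AD : ℕ → Finset (B × B)
  mem_AD : ∀ n p, p ∈ AD n ↔ deg p.1 + deg p.2 = n
  ρ : B → End k (B →₀ k)
  ρ_coeff : ∀ β t, ρ β t one = t β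
  ρ_deg : ∀ β δ a, ρ β (single δ 1) a ≠ 0 → deg a + deg β = deg δ
  ρ_one : ρ one = 1
  ρ_comp : ∀ β1 β2, ρ β2 * ρ β1 ∈ Submodule.span k (Set.range ρ)
  mul : (B →₀ k) →ₗ[k] (B →₀ k) →ₗ[k] (B →₀ k)
  mul_deg : ∀ a c β, mul (single a 1) (single c 1) β ≠ 0 → deg a + deg c = deg β
  one_mul : ∀ t, mul (single one 1) t = t
  mul_one : ∀ t, mul t (single one 1) = t
  comm : ∀ a c, mul (single a 1) (single c 1) =
    (-1 : k) ^ (deg a * deg c) • mul (single c 1) (single a 1)
  assoc : ∀ x y z, mul (mul x y) z = mul x (mul y z)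
  leib : ∀ β x y, ρ β (mul x y) = ∑ p ∈ AD (deg β), mul (single p.1 1) (single p.2 1) β •
    mul (ρ p.1 x) ((sgn Finsupp.basisSingleOne deg ^ deg p.1) (ρ p.2 y))

variable {k B : Type} [Field k]

theorem sgn_pow_apply (deg : B → ℕ) (n : ℕ) (t : B →₀ k) (β : B) :
    (sgn (Finsupp.basisSingleOne (R := k)) deg ^ n) t β = (-1 : k) ^ (n * deg β) * t β := by
  classical
  have h1 : ∀ t : B →₀ k, sgn (Finsupp.basisSingleOne (R := k)) deg t β = (-1 : k) ^ deg β * t β := by
    intro t
    refine Sp_ext Finsupp.basisSingleOne (lapply β ∘ₗ sgn Finsupp.basisSingleOne deg)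
      ((-1 : k) ^ deg β • lapply β) ?_ (mem_Sp_true _ t)
    intro i _
    rw [LinearMap.comp_apply, sgn_basis]
    by_cases h : i = β
    · simp [h]
    · simp [h]
  induction n with
  | zero => simp
  | succ n ih => rw [pow_succ', End.mul_apply, h1, ih, add_mul, one_mul, pow_add]; ring

theorem exists_subalgebra {W : Type} [Ring W] [Algebra k W] (v : B → W)
    (hli : LinearIndependent k v) (h1 : (1 : W) ∈ Submodule.span k (Set.range v))
    (hmul : ∀ β1 β2, v β1 * v β2 ∈ Submodule.span k (Set.range v)) :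
    ∃ (E : Type) (_ : Ring E) (_ : Algebra k E) (b : Basis B k E) (i : E →ₐ[k] W),
      Function.Injective i ∧ ∀ β, i (b β) = v β := by
  let E : Subalgebra k W := (Submodule.span k (Set.range v)).toSubalgebra h1 (by
      intro x y hx hy
      refine Submodule.span_induction₂ (p := fun x y _ _ => x * y ∈ Submodule.span k (Set.range v))
        ?_ ?_ ?_ ?_ ?_ ?_ ?_ hx hy
      · rintro _ _ ⟨β1, rfl⟩ ⟨β2, rfl⟩
        exact hmul β1 β2
      · intro y _
        simp
      · intro x _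
        simp
      · intro x y z _ _ _ h1 h2
        rw [add_mul]
        exact Submodule.add_mem _ h1 h2
      · intro x y z _ _ _ h1 h2
        rw [mul_add]
        exact Submodule.add_mem _ h1 h2
      · intro r x y _ _ h
        rw [smul_mul_assoc]
        exact Submodule.smul_mem _ _ h
      · intro r x y _ _ h
        rw [mul_smul_comm]
        exact Submodule.smul_mem _ _ h)
  let e : B → E := fun β => ⟨v β, Submodule.subset_span ⟨β, rfl⟩⟩
  have hli' : LinearIndependent k e := LinearIndependent.of_comp E.val.toLinearMap hli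
  have hsp : ⊤ ≤ Submodule.span k (Set.range e) := by
    rintro ⟨x, hx⟩ _
    refine Submodule.span_induction (p := fun x hx => (⟨x, hx⟩ : E) ∈
      Submodule.span k (Set.range e)) ?_ ?_ ?_ ?_ hx
    · rintro _ ⟨β, rfl⟩
      exact Submodule.subset_span ⟨β, rfl⟩
    · exact Submodule.zero_mem _
    · intro x y _ _ h1 h2
      exact Submodule.add_mem _ h1 h2
    · intro r x _ h
      exact Submodule.smul_mem _ r h
  exact ⟨E, inferInstance, inferInstance, Basis.mk hli' hsp, E.val, Subtype.val_injective,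
    fun β => by rw [Basis.mk_apply]; rfl⟩

open Classical in
theorem exists_opalg {T : Type} [AddCommGroup T] [Module k T] (ρ : B → End k T) (ε : T →ₗ[k] k)
    (s : B → T) (hs : ∀ β δ, ε (ρ β (s δ)) = if δ = β then 1 else 0) (one : B) (h1 : ρ one = 1)
    (hc : ∀ β1 β2, ρ β2 * ρ β1 ∈ Submodule.span k (Set.range ρ)) :
    ∃ (E : Type) (_ : Ring E) (_ : Algebra k E) (b : Basis B k E) (pair : E →ₗ[k] T →ₗ[k] k),
      b one = 1 ∧ (∀ β t, pair (b β) t = ε (ρ β t)) ∧
        ∀ β e t, pair (b β * e) t = pair e (ρ β t) := by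
  let v : B → (End k T)ᵐᵒᵖ := fun β => MulOpposite.op (ρ β)
  have hop : ∀ x ∈ Submodule.span k (Set.range ρ),
      MulOpposite.op x ∈ Submodule.span k (Set.range v) := by
    intro x hx
    have : Submodule.span k (Set.range ρ) ≤ (Submodule.span k (Set.range v)).comap
        (MulOpposite.opLinearEquiv k).toLinearMap := by
      rw [Submodule.span_le]
      rintro _ ⟨β, rfl⟩
      exact Submodule.subset_span ⟨β, rfl⟩
    exact this hx
  let pair0 : (End k T)ᵐᵒᵖ →ₗ[k] T →ₗ[k] k :=
    LinearMap.llcomp k _ _ _ ε ∘ₗ (MulOpposite.opLinearEquiv k).symm.toLinearMap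
  have pair_e : ∀ β t, pair0 (v β) t = ε (ρ β t) := fun β t => rfl
  have hli : LinearIndependent k v := by
    rw [linearIndependent_iff]
    intro l hl
    ext δ
    have := congrArg (fun x => pair0 x (s δ)) hl
    simp only [linearCombination_apply, Finsupp.sum, map_sum, map_smul, LinearMap.sum_apply,
      LinearMap.smul_apply, pair_e, map_zero, LinearMap.zero_apply, hs] at this
    simpa using this
  obtain ⟨E, _, _, b, i, hi, hb⟩ := exists_subalgebra v hli
    (Submodule.subset_span ⟨one, by simp [v, h1]⟩) (fun β1 β2 => hop _ (hc β1 β2))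
  refine ⟨E, inferInstance, inferInstance, b, pair0 ∘ₗ i.toLinearMap, ?_, ?_, ?_⟩
  · apply hi
    simp [hb, v, h1]
  · intro β t
    rw [← pair_e, ← hb]
    rfl
  · intro β x t
    change pair0 (i (b β * x)) t = _
    rw [map_mul, hb]
    rfl

theorem TData.exists_galg (D : TData k B) : ∃ (E : Type) (_ : Ring E) (_ : Algebra k E)
    (G : GAlg k E B) (pair : E →ₗ[k] (B →₀ k) →ₗ[k] k), G.deg = D.deg ∧ G.one = D.one ∧
      (∀ β t, pair (G.b β) t = t β) ∧ ∀ β e t, pair (G.b β * e) t = pair e (D.ρ β t) := by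
  classical
  obtain ⟨E, _, _, b, pair, h1, h2, pair_mul⟩ := exists_opalg D.ρ (lapply D.one)
    (fun δ => single δ 1) (by
      intro β δ
      rw [lapply_apply, D.ρ_coeff, single_apply]) D.one D.ρ_one D.ρ_comp
  have pair_b : ∀ β t, pair (b β) t = t β := by
    intro β t
    rw [h2, lapply_apply, D.ρ_coeff]
  have hrepr : ∀ x δ, b.repr x δ = pair x (single δ 1) := by
    intro x δ
    refine Sp_ext b (b.coord δ) (pair.flip (single δ 1)) ?_ (mem_Sp_true _ x)
    intro β _
    rw [LinearMap.flip_apply, Basis.coord_apply, Basis.repr_self, pair_b, single_apply,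
      single_apply]
    simp only [eq_comm]
  refine ⟨E, inferInstance, inferInstance,
    { b := b, deg := D.deg, one := D.one, b_one := h1, deg_one := D.deg_one, eq_one := D.eq_one,
      mul_deg := ?_ }, pair, rfl, rfl, pair_b, pair_mul⟩
  intro β1 β2
  rw [mem_Sp]
  intro δ h
  rw [hrepr, pair_mul, pair_b] at h
  have := D.ρ_deg _ _ _ h
  omega

theorem TData.exists_hopf (D : TData k B) : ∃ (E : Type) (_ : Ring E) (_ : Algebra k E)
    (H : Hopf k E B), H.deg = D.deg ∧ H.one = D.one ∧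
      ∀ β1 β2 δ, H.b.repr (H.b β1 * H.b β2) δ = D.ρ β1 (single δ 1) β2 := by
  classical
  obtain ⟨E, _, _, G, pair, hdeg, hone, pair_b, pair_mul⟩ := D.exists_galg
  have hrepr : ∀ x δ, G.b.repr x δ = pair x (single δ 1) := by
    intro x δ
    refine Sp_ext G.b (G.b.coord δ) (pair.flip (single δ 1)) ?_ (mem_Sp_true _ x)
    intro β _
    rw [LinearMap.flip_apply, Basis.coord_apply, Basis.repr_self, pair_b, single_apply,
      single_apply]
    simp only [eq_comm]
  let Δ : E →ₗ[k] (B × B →₀ k) := G.b.constr ℕ (fun β => onFinset (D.AD (D.deg β))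
    (fun p => D.mul (single p.1 1) (single p.2 1) β)
    (fun p hp => (D.mem_AD _ _).mpr (D.mul_deg _ _ _ hp)))
  have Δ_apply : ∀ e a c, Δ e (a, c) = pair e (D.mul (single a 1) (single c 1)) := by
    intro e a c
    refine Sp_ext G.b (lapply (a, c) ∘ₗ Δ) (pair.flip (D.mul (single a 1) (single c 1))) ?_
      (mem_Sp_true _ e)
    intro β _
    simp [Δ, pair_b]
  have ev_basis : ∀ (A : Type) [AddCommGroup A] [Module k A] (f : B → B → A) β,
      ev2 Δ f (G.b β) = ∑ p ∈ D.AD (D.deg β),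
        D.mul (single p.1 1) (single p.2 1) β • f p.1 p.2 := by
    intro A _ _ f β
    rw [ev2_apply]
    have : ∀ p, Δ (G.b β) p = D.mul (single p.1 1) (single p.2 1) β := by
      rintro ⟨a, c⟩
      rw [Δ_apply, pair_b]
    simp only [← this]
    refine Finset.sum_subset ?_ ?_
    · intro p hp
      rw [Finsupp.mem_support_iff, this] at hp
      exact (D.mem_AD _ _).mpr (D.mul_deg _ _ _ hp)
    · intro p _ hp
      rw [Finsupp.notMem_support_iff.mp hp, zero_smul]
  have ev_pair : ∀ (x y : B →₀ k) e, ev2 Δ (fun a c => x a * y c) e = pair e (D.mul x y) := by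
    intro x y e
    induction x using Finsupp.induction_linear with
    | zero => simp [ev2_zero]
    | add x x' h h' => simp only [Finsupp.add_apply, add_mul, ev2_add, h, h', map_add,
        LinearMap.add_apply]
    | single a r =>
      induction y using Finsupp.induction_linear with
      | zero => simp [ev2_zero]
      | add y y' h h' => simp only [Finsupp.add_apply, mul_add, ev2_add, h, h', map_add]
      | single c s =>
        rw [ev2_apply, Finset.sum_eq_single (a, c)]
        · rw [Δ_apply, ← smul_single_one a r, ← smul_single_one c s]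
          simp only [map_smul, LinearMap.smul_apply, smul_eq_mul, Finsupp.smul_apply,
            single_eq_same]
          ring
        · rintro ⟨a', c'⟩ _ h
          by_cases ha : a = a'
          · have : c ≠ c' := by rintro rfl; exact h (by rw [ha])
            simp [this]
          · simp [ha]
        · intro h
          rw [Finsupp.notMem_support_iff.mp h, zero_smul]
  refine ⟨E, inferInstance, inferInstance,
    { toGAlg := G, Δ := Δ, Δ_deg := ?_, Δ_left := ?_, Δ_right := ?_, cocomm := ?_,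
      coassoc := ?_, mult := ?_ }, hdeg, hone, ?_⟩
  · intro β a c h
    rw [Δ_apply, pair_b] at h
    rw [hdeg]
    exact D.mul_deg _ _ _ h
  · intro e β
    rw [Δ_apply, hone, D.one_mul, hrepr]
  · intro e β
    rw [Δ_apply, hone, D.mul_one, hrepr]
  · intro e a c
    rw [Δ_apply, Δ_apply, D.comm, map_smul, hdeg, smul_eq_mul]
  · intro A _ _ f e
    let φ : (B × B × B →₀ k) →ₗ[k] A := linearCombination k (fun p => f p.1 p.2.1 p.2.2)
    have hf : ∀ a b c, f a b c = φ (single (a, b, c) 1) := by simp [φ]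
    simp only [hf, ← ev2_map]
    congr 1
    ext ⟨a, b, c⟩
    have h3 : ∀ β1 β2 β3 : B, lapply (R := k) (a, b, c) (single (β1, β2, β3) (1 : k)) =
        single a (1 : k) β1 * (single b (1 : k) β2 * single c (1 : k) β3) := by
      intro β1 β2 β3
      simp only [lapply_apply, single_apply, Prod.mk.injEq, @eq_comm _ a, @eq_comm _ b,
        @eq_comm _ c]
      by_cases h1 : β1 = a <;> by_cases h2 : β2 = b <;> by_cases h3 : β3 = c <;>
        simp [h1, h2, h3]
    rw [← lapply_apply (R := k), ← lapply_apply (R := k)]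
    simp only [ev2_map, h3]
    simp only [← ev2_mul_left, ev_pair, pair_b]
    simp only [← mul_assoc, ← ev2_mul_right, ev_pair, pair_b, D.assoc]
  · intro A _ _ Λ β1 β2
    let φ : TensorProduct k E E →ₗ[k] A := TensorProduct.lift Λ
    have hf : ∀ x y, Λ x y = φ (x ⊗ₜ y) := by simp [φ]
    simp only [hf, ← map_smul, ← ev2_map]
    congr 1
    apply (G.b.tensorProduct G.b).repr.injective
    ext ⟨a, c⟩
    rw [← Basis.coord_apply, ← Basis.coord_apply]
    simp only [ev2_map, map_smul, Basis.coord_apply, Basis.tensorProduct_repr_tmul_apply, hrepr,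
      pair_mul, pair_b, smul_eq_mul]
    simp only [mul_comm (single c (1 : k) _)]
    rw [ev_pair, pair_mul, D.leib, ev_basis, map_sum]
    refine Finset.sum_congr rfl fun p _ => ?_
    rw [map_smul, ← ev_pair]
    congr 1
    refine ev2_congr _ fun a2 c2 _ => ?_
    rw [sgn_pow_apply, hdeg]
    ring
  · intro β1 β2 δ
    rw [hrepr, pair_mul, pair_b]

end Pool.Agent.MP_582538_al

end MrgPart3

-- marker of a merged file
example : 731051 + 346863 = 731051 + 346863 := rfl
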