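import Mathlib.LinearAlgebra.FreeModule.PID
import Mathlib.RingTheory.Flat.TorsionFree
import Mathlib.Algebra.Module.StablyFree.Basic
import Mathlib.RingTheory.PicardGroup
import Mathlib.RingTheory.TotallySplit
import Pool.Agent.MP_582538_al.Core

-- ======== part 0: formerly Pool.Agent.MP_582538_al.Dual
section MrgPart0

set_option autoImplicit false

namespace Pool.Agent.MP_582538_al

open Module

variable {R : Type} [CommRing R]

/-- Coordinates on the associated graded ring. -/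
structure GData (k : Type) [Field k] [Algebra R k] (C : Type) [DecidableEq C] where
  row : C → ℕ
  g0 : C
  row_g0 : row g0 = 0
  eq_g0 : ∀ γ, row γ = 0 → γ = g0
  fin : ∀ p, {γ | row γ = p}.Finite
  co : ∀ p : ℕ, ↥(RingHom.ker (algebraMap R k) ^ p) →ₗ[R] (C → k)
  co_row : ∀ p r γ, row γ ≠ p → co p r γ = 0
  co_ker : ∀ p r, co p r = 0 ↔ (r : R) ∈ RingHom.ker (algebraMap R k) ^ (p + 1)
  co_surj : ∀ p γ, row γ = p → ∃ r, co p r = Pi.single γ 1

variable {k : Type} [Field k] [Algebra R k] {F B : Type} [AddCommGroup F] [Module R F]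
  (Z : Res (R := R) k F B) {C : Type} [DecidableEq C] (Γ : GData (R := R) k C)

/-- The adic filtration of the resolution. -/
abbrev Res.Q (_ : Res (R := R) k F B) (p : ℕ) : Submodule R F :=
  RingHom.ker (algebraMap R k) ^ p • (⊤ : Submodule R F)

theorem Res.D_mem {p : ℕ} {x : F} (hx : x ∈ Z.Q p) : Z.D x ∈ Z.Q (p + 1) := by
  refine Submodule.smul_induction_on hx ?_ ?_
  · intro r hr y _
    rw [map_smul, Res.Q, pow_succ, mul_smul]
    exact Submodule.smul_mem_smul hr (Z.min y)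
  · intro x y hx hy
    rw [map_add]
    exact Submodule.add_mem _ hx hy

theorem Res.D_mem' {p : ℕ} {x : F} (hx : x ∈ Z.Q (p - 1)) : Z.D x ∈ Z.Q p := by
  cases p with
  | zero => simp [Res.Q]
  | succ p => exact Z.D_mem hx

theorem Res.D_Sp {i : ℕ} {x : F} (hx : x ∈ Sp Z.b (fun β => Z.dg β = i + 1)) :
    Z.D x ∈ Sp Z.b (fun β => Z.dg β = i) :=
  Sp_map Z.b Z.D _ (fun β hβ => Sp_mono _ (by intro j h; omega) (Z.D_deg β)) hx

/-- The differential on the adic filtration. -/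
noncomputable def Res.Dr (p : ℕ) : Z.Q p →ₗ[R] Z.Q (p + 1) :=
  Z.D.restrict (fun _ hx => Z.D_mem hx)

/-- An endomorphism on the adic filtration. -/
noncomputable def Res.rs (p : ℕ) (ψ : F →ₗ[R] F) : Z.Q p →ₗ[R] Z.Q p :=
  ψ.restrict (fun _ hx => map_mem_smul_top _ ψ hx)

/-- A coordinate on the adic filtration. -/
noncomputable def Res.cI (p : ℕ) (β : B) : Z.Q p →ₗ[R] ↥(RingHom.ker (algebraMap R k) ^ p) :=
  (Z.b.coord β).restrict (fun x hx => (mem_smul_top_iff_repr Z.b _ x).mp hx β)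

/-- The class in the associated graded module. -/
noncomputable def Res.cls (p : ℕ) : Z.Q p →ₗ[R] (B × C → k) :=
  LinearMap.pi (fun v => LinearMap.proj v.2 ∘ₗ Γ.co p ∘ₗ Z.cI p v.1)

theorem Res.cls_apply (p : ℕ) (x : Z.Q p) (β : B) (γ : C) :
    Z.cls Γ p x (β, γ) = Γ.co p (Z.cI p β x) γ := rfl

theorem Res.cls_eq_zero (p : ℕ) (x : Z.Q p) : Z.cls Γ p x = 0 ↔ x.1 ∈ Z.Q (p + 1) := by
  rw [mem_smul_top_iff_repr Z.b]
  constructor
  · intro h β
    refine (Γ.co_ker p (Z.cI p β x)).mp ?_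
    ext γ
    exact congrFun h (β, γ)
  · intro h
    ext ⟨β, γ⟩
    exact congrFun ((Γ.co_ker p (Z.cI p β x)).mpr (h β)) γ

theorem Res.cls_deg (p : ℕ) {x : Z.Q p} {q : B → Prop} (hx : x.1 ∈ Sp Z.b q) {β : B} (h : ¬ q β)
    (γ : C) : Z.cls Γ p x (β, γ) = 0 := by
  have : Z.cI p β x = 0 := Subtype.ext (Sp_repr _ hx h)
  rw [Z.cls_apply, this, map_zero, Pi.zero_apply]

/-- Elementary elements of the adic filtration. -/
noncomputable def Res.el (p : ℕ) (β : B) (r : ↥(RingHom.ker (algebraMap R k) ^ p)) : Z.Q p :=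
  ⟨r.1 • Z.b β, Submodule.smul_mem_smul r.2 trivial⟩

theorem Res.el_mem (p : ℕ) (β : B) (r : ↥(RingHom.ker (algebraMap R k) ^ p)) {q : B → Prop}
    (h : q β) : (Z.el p β r).1 ∈ Sp Z.b q :=
  Submodule.smul_mem _ _ (basis_mem_Sp _ h)

theorem Res.cI_rs_el (p : ℕ) (ψ : F →ₗ[R] F) (δ β : B)
    (r : ↥(RingHom.ker (algebraMap R k) ^ p)) :
    Z.cI p β (Z.rs p ψ (Z.el p δ r)) = Z.b.repr (ψ (Z.b δ)) β • r := by
  apply Subtype.ext
  simp [Res.cI, Res.rs, Res.el, mul_comm]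

open Classical in
theorem Res.cls_el (p : ℕ) (δ β : B) (γ : C) (r : ↥(RingHom.ker (algebraMap R k) ^ p)) :
    Z.cls Γ p (Z.el p δ r) (β, γ) = if δ = β then Γ.co p r γ else 0 := by
  split_ifs with h
  · subst h
    have : Z.cI p δ (Z.el p δ r) = r := by
      apply Subtype.ext
      simp [Res.cI, Res.el]
    rw [Z.cls_apply, this]
  · exact Z.cls_deg Γ p (Z.el_mem p δ r (q := fun β => δ = β) rfl) h γ

theorem Res.Q_ext {V : Type} [AddCommGroup V] [Module R V] (p : ℕ) (f g : Z.Q p →ₗ[R] V)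
    (h : ∀ β r, f (Z.el p β r) = g (Z.el p β r)) (x : Z.Q p) : f x = g x := by
  have : x = ∑ β ∈ (Z.b.repr x.1).support, Z.el p β (Z.cI p β x) := by
    apply Subtype.ext
    conv_lhs => rw [← Z.b.linearCombination_repr x.1, Finsupp.linearCombination_apply, Finsupp.sum]
    rw [AddSubmonoidClass.coe_finsetSum]
    rfl
  rw [this, map_sum, map_sum]
  exact Finset.sum_congr rfl fun β _ => h _ _

variable {E : Type} [Ring E] [Algebra k E] (G : GAlg k E B)
  {M : Type} [AddCommGroup M] [Module E M] [Module k M] [IsScalarTower k E M] (bM : Basis C E M)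

/-- The duality pairing. -/
noncomputable def Res.pr (p : ℕ) : Z.Q p →ₗ[R] M →ₗ[k] k :=
  ((G.kb bM).constr R).toLinearMap ∘ₗ Z.cls Γ p

theorem Res.pr_basis (p : ℕ) (x : Z.Q p) (v : B × C) :
    Z.pr Γ G bM p x (G.kb bM v) = Z.cls Γ p x v := by
  simp [Res.pr]

theorem Res.pr_zero (p : ℕ) {x : Z.Q p} (hx : x.1 ∈ Z.Q (p + 1)) (z : M) :
    Z.pr Γ G bM p x z = 0 := by
  simp [Res.pr, (Z.cls_eq_zero Γ p x).mpr hx]

theorem Res.pr_row (p : ℕ) (x : Z.Q p) {q j : ℤ} (h : q ≠ p) {z : M}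
    (hz : z ∈ G.Gr bM (fun γ => Γ.row γ) (fun γ => Γ.row γ) q j) : Z.pr Γ G bM p x z = 0 := by
  refine Sp_ext _ (Z.pr Γ G bM p x) 0 ?_ hz
  rintro ⟨β, γ⟩ ⟨h1, _⟩
  rw [Z.pr_basis, Z.cls_apply]
  exact Γ.co_row _ _ _ (by dsimp only at h1; omega)

theorem Res.pr_deg (hdeg : G.deg = Z.dg) (p : ℕ) {x : Z.Q p} {i i' : ℕ}
    (hx : x.1 ∈ Sp Z.b (fun β => Z.dg β = i')) (h : i ≠ i') {z : M}
    (hz : z ∈ G.Gr bM (fun γ => Γ.row γ) (fun γ => Γ.row γ) p (p + i)) :
    Z.pr Γ G bM p x z = 0 := by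
  refine Sp_ext _ (Z.pr Γ G bM p x) 0 ?_ hz
  rintro ⟨β, γ⟩ ⟨h1, h2⟩
  rw [Z.pr_basis]
  refine Z.cls_deg Γ p hx ?_ γ
  rw [hdeg] at h2
  dsimp only at h1 h2
  omega

theorem Res.nondeg (hdeg : G.deg = Z.dg) (p i : ℕ) {z : M}
    (hz : z ∈ G.Gr bM (fun γ => Γ.row γ) (fun γ => Γ.row γ) p (p + i))
    (h : ∀ x : Z.Q p, x.1 ∈ Sp Z.b (fun β => Z.dg β = i) → Z.pr Γ G bM p x z = 0) : z = 0 := by
  classical
  apply (G.kb bM).repr.injective
  ext ⟨β, γ⟩
  by_contra h0
  obtain ⟨h1, h2⟩ := (mem_Sp _ _ _).mp hz (β, γ) (by simpa using h0)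
  rw [hdeg] at h2
  dsimp only at h1 h2
  obtain ⟨r, hr⟩ := Γ.co_surj p γ (by omega)
  have h3 := h (Z.el p β r) (Z.el_mem p β r (by omega))
  have h4 : Z.pr Γ G bM p (Z.el p β r) = (G.kb bM).coord (β, γ) := by
    refine (G.kb bM).ext ?_
    rintro ⟨β', γ'⟩
    rw [Z.pr_basis, Z.cls_el, hr, Basis.coord_apply, Basis.repr_self, Finsupp.single_apply,
      Pi.single_apply]
    by_cases e1 : β' = β <;> by_cases e2 : γ' = γ <;> simp [e1, e2, @eq_comm _ β]
  rw [h4] at h3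
  exact h0 (by simpa using h3)

theorem Res.rep (hdeg : G.deg = Z.dg) (p i : ℕ) {U : Type} [AddCommGroup U] [Module R U]
    (ψ : U →ₗ[R] Z.Q p) (l : U →ₗ[R] k) (h : ∀ u, (ψ u).1 ∈ Z.Q (p + 1) → l u = 0) :
    ∃ z ∈ G.Gr bM (fun γ => Γ.row γ) (fun γ => Γ.row γ) p (p + i),
      ∀ u, (ψ u).1 ∈ Sp Z.b (fun β => Z.dg β = i) → Z.pr Γ G bM p (ψ u) z = l u := by
  classical
  obtain ⟨l', hl'⟩ := factor_functional Z.surj (Z.cls Γ p ∘ₗ ψ) l
    (fun u hu => h u ((Z.cls_eq_zero Γ p _).mp hu))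
  let S : Finset (B × C) := (Z.fin i).toFinset ×ˢ (Γ.fin p).toFinset
  have hS : ∀ v, v ∈ S ↔ Z.dg v.1 = i ∧ Γ.row v.2 = p := by simp [S]
  refine ⟨∑ v ∈ S, l' (Pi.single v 1) • G.kb bM v, ?_, fun u hu => ?_⟩
  · refine Submodule.sum_mem _ fun v hv => Submodule.smul_mem _ _ (basis_mem_Sp _ ?_)
    rw [hS] at hv
    rw [hdeg]
    dsimp only
    omega
  · have h1 : Z.cls Γ p (ψ u) = ∑ v ∈ S, Z.cls Γ p (ψ u) v • Pi.single v (1 : k) := by
      ext ⟨β, γ⟩
      rw [Finset.sum_apply, Finset.sum_eq_single (β, γ)]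
      · simp
      · intro v _ hv
        simp [hv]
      · intro hv
        rw [hS, not_and_or] at hv
        rcases hv with hv | hv
        · simp [Z.cls_deg Γ p hu hv]
        · simp [Z.cls_apply, Γ.co_row p _ γ hv]
    rw [← hl', LinearMap.comp_apply, h1]
    simp only [map_sum, map_smul, Z.pr_basis, smul_eq_mul, mul_comm]

theorem Res.pr_smul (φ : B → F →ₗ[R] F)
    (hφ : ∀ β1 β2 δ, G.b.repr (G.b β1 * G.b β2) δ = Z.red (φ β1 (Z.b δ)) β2)
    (p : ℕ) (β : B) (x : Z.Q p) (z : M) :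
    Z.pr Γ G bM p x (G.b β • z) = Z.pr Γ G bM p (Z.rs p (φ β) x) z := by
  classical
  refine Sp_ext (G.kb bM) (Z.pr Γ G bM p x ∘ₗ Algebra.lsmul k k M (G.b β))
    (Z.pr Γ G bM p (Z.rs p (φ β) x)) ?_ (mem_Sp_true _ z)
  rintro ⟨β2, γ⟩ _
  rw [LinearMap.comp_apply, Z.pr_basis, G.kb_apply, Algebra.lsmul_coe]
  beta_reduce
  rw [← mul_smul]
  refine Z.Q_ext p ((Z.pr Γ G bM p).flip ((G.b β * G.b β2) • bM γ))
    (LinearMap.proj (β2, γ) ∘ₗ Z.cls Γ p ∘ₗ Z.rs p (φ β)) ?_ x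
  intro δ r
  have h1 : ∀ e : E, Z.pr Γ G bM p (Z.el p δ r) (e • bM γ) = G.b.repr e δ * Γ.co p r γ := by
    intro e
    refine Sp_ext G.b (Z.pr Γ G bM p (Z.el p δ r) ∘ₗ
      (LinearMap.toSpanSingleton E M (bM γ)).restrictScalars k)
      (LinearMap.mulRight k (Γ.co p r γ) ∘ₗ G.b.coord δ) ?_ (mem_Sp_true _ e)
    intro β' _
    simp only [LinearMap.comp_apply, LinearMap.restrictScalars_apply,
      LinearMap.toSpanSingleton_apply, ← G.kb_apply, Z.pr_basis, Z.cls_el, Basis.coord_apply,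
      Basis.repr_self, LinearMap.mulRight_apply, Finsupp.single_apply, @eq_comm _ δ]
    split_ifs <;> simp
  rw [LinearMap.flip_apply, h1, hφ, LinearMap.comp_apply, LinearMap.comp_apply,
    LinearMap.proj_apply, Z.cls_apply, Z.cI_rs_el, map_smul, Pi.smul_apply, Z.red_apply,
    Algebra.smul_def]

theorem Res.exists_lincx (hdeg : G.deg = Z.dg) (hone : G.one = Z.one) (φ : B → F →ₗ[R] F)
    (hφD : ∀ β x, Z.D (φ β x) = φ β (Z.D x))
    (hφ : ∀ β1 β2 δ, G.b.repr (G.b β1 * G.b β2) δ = Z.red (φ β1 (Z.b δ)) β2) :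
    ∃ L : LinCx G C M, L.bM = bM ∧ L.row = Γ.row ∧
      ∀ p x z, Z.pr Γ G bM p x (L.d z) = Z.pr Γ G bM (p + 1) (Z.Dr p x) z := by
  have h1 : ∀ γ, ∃ z ∈ G.Gr bM (fun γ => Γ.row γ) (fun γ => Γ.row γ) (Γ.row γ - 1) (Γ.row γ),
      ∀ p x, Z.pr Γ G bM p x z = Z.cls Γ (p + 1) (Z.Dr p x) (Z.one, γ) := by
    intro γ
    rcases Nat.eq_zero_or_eq_succ_pred (Γ.row γ) with h0 | h0
    · refine ⟨0, Submodule.zero_mem _, fun p x => ?_⟩
      rw [map_zero, Z.cls_apply, Γ.co_row _ _ _ (by omega)]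
    · obtain ⟨p0, hp0⟩ : ∃ p0, Γ.row γ = p0 + 1 := ⟨_, h0⟩
      obtain ⟨z, hz1, hz2⟩ := Z.rep Γ G bM hdeg p0 1 LinearMap.id
        (LinearMap.proj (Z.one, γ) ∘ₗ Z.cls Γ (p0 + 1) ∘ₗ Z.Dr p0) (by
          intro u hu
          have := (Z.cls_eq_zero Γ _ (Z.Dr p0 u)).mpr (Z.D_mem hu)
          simp [this])
      refine ⟨z, by rw [hp0]; simpa using hz1, fun p x => ?_⟩
      by_cases hp : p0 = p
      · subst hp
        refine Z.Q_ext p0 ((Z.pr Γ G bM p0).flip z)
          (LinearMap.proj (Z.one, γ) ∘ₗ Z.cls Γ (p0 + 1) ∘ₗ Z.Dr p0) ?_ x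
        intro β r
        by_cases hβ : Z.dg β = 1
        · exact hz2 _ (Z.el_mem p0 β r hβ)
        · rw [LinearMap.flip_apply, Z.pr_deg Γ G bM hdeg p0 (Z.el_mem p0 β r rfl) (Ne.symm hβ) hz1]
          refine (Z.cls_deg Γ _ (q := fun j => Z.dg j + 1 = Z.dg β) ?_ ?_ γ).symm
          · change Z.D (r.1 • Z.b β) ∈ _
            rw [map_smul]
            exact Submodule.smul_mem _ _ (Z.D_deg β)
          · rw [Z.dg_one]
            omega
      · rw [Z.pr_row Γ G bM p x (by omega) hz1, Z.cls_apply, Γ.co_row _ _ _ (by omega)]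
  choose dz hdz1 hdz2 using h1
  let d : M →ₗ[E] M := bM.constr ℕ dz
  have hd : ∀ γ, d (bM γ) = dz γ := fun γ => by simp [d]
  have adj : ∀ p x z, Z.pr Γ G bM p x (d z) = Z.pr Γ G bM (p + 1) (Z.Dr p x) z := by
    intro p x z
    refine Sp_ext (G.kb bM) (Z.pr Γ G bM p x ∘ₗ d.restrictScalars k)
      (Z.pr Γ G bM (p + 1) (Z.Dr p x)) ?_ (mem_Sp_true _ z)
    rintro ⟨β, γ⟩ _
    rw [LinearMap.comp_apply, LinearMap.restrictScalars_apply, G.kb_apply, map_smul,
      Z.pr_smul Γ G bM φ hφ, Z.pr_smul Γ G bM φ hφ, hd, hdz2, ← G.kb_one, Z.pr_basis, hone]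
    have : Z.Dr p (Z.rs p (φ β) x) = Z.rs (p + 1) (φ β) (Z.Dr p x) := Subtype.ext (hφD β x)
    rw [this]
  refine ⟨{
    bM := bM
    row := Γ.row
    g0 := Γ.g0
    row_g0 := Γ.row_g0
    eq_g0 := Γ.eq_g0
    d := d
    d_deg := fun γ => hd γ ▸ hdz1 γ
    dd := ?_ }, rfl, rfl, adj⟩
  intro z
  refine Sp_ext bM (d ∘ₗ d) 0 ?_ (mem_Sp_true _ z)
  intro γ _
  have h2 := G.map_Gr bM _ _ bM _ _ d (Γ.row γ - 1) (Γ.row γ - 1 - 1) _ (by
    intro γ' hγ'
    rw [hd, ← hγ']
    exact hdz1 γ') (hdz1 γ)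
  rw [LinearMap.comp_apply, hd, LinearMap.zero_apply]
  by_cases h3 : Γ.row γ < 2
  · refine Sp_eq_zero _ ?_ h2
    rintro ⟨β, γ'⟩ ⟨h, _⟩
    dsimp only at h
    omega
  · obtain ⟨p, hp⟩ : ∃ p, Γ.row γ = p + 2 := ⟨Γ.row γ - 2, by omega⟩
    refine Z.nondeg Γ G bM hdeg p 2 ?_ ?_
    · rw [hp] at h2
      convert h2 using 2 <;> push_cast <;> ring
    · intro x _
      rw [adj, ← hd, adj]
      have : Z.Dr (p + 1) (Z.Dr p x) = 0 := Subtype.ext (Z.DD x)
      rw [this, map_zero, LinearMap.zero_apply]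

end Pool.Agent.MP_582538_al

end MrgPart0

-- ======== part 1: formerly Pool.Agent.MP_582538_al.Total
section MrgPart1

set_option autoImplicit false

namespace Pool.Agent.MP_582538_al

open Module

variable {R : Type} [CommRing R] {k : Type} [Field k] [Algebra R k] {F B : Type}
  [AddCommGroup F] [Module R F] (Z : Res (R := R) k F B) {C : Type} [DecidableEq C]
  (Γ : GData (R := R) k C)

/-- Exactness of the linear part at homological degree `i` and filtration degree `p`. -/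
def Res.Pex (i p : ℕ) : Prop :=
  ∀ x ∈ Sp Z.b (fun β => Z.dg β = i), x ∈ Z.Q p → Z.D x ∈ Z.Q (p + 2) →
    ∃ y ∈ Sp Z.b (fun β => Z.dg β = i + 1), y ∈ Z.Q (p - 1) ∧ x - Z.D y ∈ Z.Q (p + 1)

variable {E : Type} [Ring E] [Algebra k E] {G : GAlg k E B}
  {M : Type} [AddCommGroup M] [Module E M] [Module k M] [IsScalarTower k E M] (L : LinCx G C M)

theorem Res.pr_bd (adj : ∀ p x z, Z.pr Γ G L.bM p x (L.d z) = Z.pr Γ G L.bM (p + 1) (Z.Dr p x) z)
    {p : ℕ} {z : M} (hz : L.d z = 0) (x : Z.Q p) {y : F} (hy : y ∈ Z.Q (p - 1))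
    (hxy : x.1 - Z.D y ∈ Z.Q (p + 1)) : Z.pr Γ G L.bM p x z = 0 := by
  have h1 : x = ⟨x.1 - Z.D y, Submodule.sub_mem _ x.2 (Z.D_mem' hy)⟩ + ⟨Z.D y, Z.D_mem' hy⟩ := by
    apply Subtype.ext
    simp
  rw [h1, map_add, LinearMap.add_apply, Z.pr_zero Γ G L.bM p hxy, zero_add]
  cases p with
  | zero => exact Z.pr_zero Γ G L.bM 0 (Z.D_mem hy) z
  | succ p =>
    have := adj p ⟨y, hy⟩ z
    rw [hz, map_zero] at this
    exact this.symm

theorem Res.toM (hdeg : G.deg = Z.dg) (hrow : L.row = Γ.row)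
    (adj : ∀ p x z, Z.pr Γ G L.bM p x (L.d z) = Z.pr Γ G L.bM (p + 1) (Z.Dr p x) z)
    (i p : ℕ) (h : Z.Pex (i + 1) p) : L.Ex p (p + (i + 1 : ℕ)) := by
  intro z hz hdz _
  let U : Submodule R (Z.Q p) := (Sp Z.b (fun β => Z.dg β = i + 1)).comap (Z.Q p).subtype
  obtain ⟨w, hw1, hw2⟩ := Z.rep Γ G L.bM hdeg (p + 1) i (Z.Dr p ∘ₗ U.subtype)
    ((Z.pr Γ G L.bM p).flip z ∘ₗ U.subtype) (by
      intro u hu
      obtain ⟨y, _, hy2, hy3⟩ := h u.1.1 u.2 u.1.2 hu
      exact Z.pr_bd Γ L adj hdz u.1 hy2 hy3)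
  have hw : w ∈ L.GM (p + 1) (p + (i + 1 : ℕ)) := by
    rw [LinCx.GM, hrow]
    convert hw1 using 2 <;> push_cast <;> ring
  refine ⟨w, hw, ?_⟩
  rw [← sub_eq_zero]
  have h1 := L.d_GM hw
  rw [add_sub_cancel_right] at h1
  have h2 := Submodule.sub_mem _ h1 hz
  rw [LinCx.GM, hrow] at h2
  refine Z.nondeg Γ G L.bM hdeg p (i + 1) h2 ?_
  intro x hx
  rw [map_sub, adj, sub_eq_zero]
  exact hw2 ⟨x, hx⟩ (Z.D_Sp hx)

theorem Res.toM0 (hdeg : G.deg = Z.dg) (hrow : L.row = Γ.row)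
    (adj : ∀ p x z, Z.pr Γ G L.bM p x (L.d z) = Z.pr Γ G L.bM (p + 1) (Z.Dr p x) z)
    (p : ℕ) (h : 1 ≤ p → Z.Pex 0 p) : L.Ex p p := by
  intro z hz hdz haz
  refine ⟨0, Submodule.zero_mem _, ?_⟩
  rw [map_zero, eq_comm]
  rcases Nat.eq_zero_or_pos p with hp | hp
  · subst hp
    apply (G.kb L.bM).repr.injective
    ext ⟨β, γ⟩
    by_contra h0
    obtain ⟨h1, h2⟩ := (mem_Sp _ _ _).mp hz (β, γ) (by simpa using h0)
    dsimp only at h1 h2
    rw [L.eq_g0 γ (by omega), G.eq_one β (by omega)] at h0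
    exact h0 (by simpa [LinCx.aug] using haz)
  · rw [LinCx.GM, hrow] at hz
    refine Z.nondeg Γ G L.bM hdeg p 0 (by simpa using hz) ?_
    intro x hx
    have h0 : Z.D x.1 = 0 := by
      refine Sp_ext Z.b Z.D 0 ?_ hx
      intro β hβ
      rw [Z.eq_one β hβ]
      exact Z.D_one
    obtain ⟨y, _, hy2, hy3⟩ := h hp x.1 hx x.2 (by rw [h0]; exact Submodule.zero_mem _)
    exact Z.pr_bd Γ L adj hdz x hy2 hy3

theorem Res.toA (hdeg : G.deg = Z.dg) (hrow : L.row = Γ.row)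
    (adj : ∀ p x z, Z.pr Γ G L.bM p x (L.d z) = Z.pr Γ G L.bM (p + 1) (Z.Dr p x) z)
    (i p : ℕ) (hi : 1 ≤ i) (h : L.Ex p (p + i)) : Z.Pex i p := by
  intro x hx hxp hDx
  by_contra hcon
  let U : Submodule R F := Sp Z.b (fun β => Z.dg β = i + 1) ⊓ Z.Q (p - 1)
  let Dh : U →ₗ[R] Z.Q p := Z.D.restrict (fun y hy => Z.D_mem' hy.2)
  obtain ⟨z, hz1, hz2⟩ := Z.rep Γ G L.bM hdeg p i
    ((LinearMap.toSpanSingleton R (Z.Q p) ⟨x, hxp⟩).coprod Dh)
    (Algebra.linearMap R k ∘ₗ LinearMap.fst R R U) (by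
      rintro ⟨r, y⟩ hu
      by_contra hr
      have hr' : algebraMap R k r ≠ 0 := hr
      obtain ⟨s, hs⟩ := Z.surj (algebraMap R k r)⁻¹
      apply hcon
      refine ⟨-(s • y.1), Submodule.neg_mem _ (Submodule.smul_mem _ _ y.2.1),
        Submodule.neg_mem _ (Submodule.smul_mem _ _ y.2.2), ?_⟩
      have hu' : r • x + Z.D y.1 ∈ Z.Q (p + 1) := hu
      have e1 : x - Z.D (-(s • y.1)) = (1 - s * r) • x + s • (r • x + Z.D y.1) := by
        simp only [map_neg, map_smul, sub_smul, one_smul, smul_add, mul_smul]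
        abel
      rw [e1]
      refine Submodule.add_mem _ ?_ (Submodule.smul_mem _ _ hu')
      rw [Res.Q, pow_succ', mul_smul]
      refine Submodule.smul_mem_smul ?_ hxp
      rw [RingHom.mem_ker, map_sub, map_mul, hs, inv_mul_cancel₀ hr', map_one, sub_self])
  have e1 : Z.pr Γ G L.bM p ⟨x, hxp⟩ z = 1 := by
    have := hz2 (1, 0) (by simpa using hx)
    simpa using this
  have e2 : ∀ y : U, Z.pr Γ G L.bM p (Dh y) z = 0 := by
    intro y
    have h5 : (Dh y).1 ∈ Sp Z.b (fun β => Z.dg β = i) := Z.D_Sp y.2.1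
    have := hz2 (0, y) (by simpa using h5)
    simpa using this
  have hz : z ∈ L.GM p (p + i) := by
    rw [LinCx.GM, hrow]
    exact hz1
  have hdz : L.d z = 0 := by
    have h1 := L.d_GM hz
    cases p with
    | zero => exact L.GM_zero (Or.inl (by simp)) h1
    | succ p =>
      rw [LinCx.GM, hrow] at h1
      refine Z.nondeg Γ G L.bM hdeg p (i + 1) ?_ ?_
      · convert h1 using 2 <;> push_cast <;> ring
      · intro y hy
        rw [adj]
        exact e2 ⟨y.1, hy, y.2⟩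
  obtain ⟨w, _, hw⟩ := h z hz hdz (L.aug_GM (by omega) hz)
  rw [← hw, adj, Z.pr_zero Γ G L.bM (p + 1) hDx] at e1
  exact zero_ne_one e1

theorem Res.main {J : ℕ} (hJ : 1 ≤ J) (T : Finset (B × C))
    (hT : ∀ v, v ∈ T ↔ Γ.row v.2 + Z.dg v.1 < J) (hχ : ∑ v ∈ T, (-1 : k) ^ Z.dg v.1 = 1)
    (hbig : ∀ i p, J ≤ p + (i + 1) → Z.Pex (i + 1) p) (h0 : ∀ p, 1 ≤ p → Z.Pex 0 p)
    (h1 : ∀ p, (∀ s, s < p → Z.Pex 2 s) → Z.Pex 1 p) (p i : ℕ) : Z.Pex (i + 1) p := by
  obtain ⟨E, _, _, H, φ, hdeg, hone, hφD, hφ⟩ := Z.exists_hopf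
  obtain ⟨L, hb, hrow, adj⟩ := Z.exists_lincx Γ H.toGAlg (Finsupp.basisSingleOne (R := E)) hdeg
    hone φ hφD hφ
  rw [← hb] at adj
  have key : ∀ (q j : ℤ), (∀ p i : ℕ, q = p → j = p + (i + 1 : ℕ) → Z.Pex (i + 1) p) →
      L.Ex q j := by
    intro q j h
    by_cases hq : q < 0
    · exact L.Ex_neg hq j
    obtain ⟨p, rfl⟩ := Int.eq_ofNat_of_zero_le (not_lt.mp hq)
    rcases lt_trichotomy j p with hj | hj | hj
    · intro z hz _ _
      exact ⟨0, Submodule.zero_mem _, by rw [L.GM_zero (Or.inr hj) hz, map_zero]⟩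
    · rw [hj]
      exact Z.toM0 Γ L hdeg hrow adj p (h0 p)
    · obtain ⟨i, hi⟩ : ∃ i : ℕ, j = p + (i + 1 : ℕ) := ⟨(j - p - 1).toNat, by omega⟩
      rw [hi]
      exact Z.toM Γ L hdeg hrow adj i p (h p i rfl hi)
  induction p using Nat.strong_induction_on generalizing i with
  | _ p ih =>
    refine Z.toA Γ L hdeg hrow adj (i + 1) p (by omega) ?_
    refine L.core (T := T) hJ ?_ ?_ ?_ p ?_ ?_ _
    · intro v
      rw [hT, LinCx.jv, hrow, hdeg]
    · intro q j hj
      exact key q j fun p i h1 h2 => hbig i p (by omega)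
    · rw [hdeg]
      exact hχ
    · intro q hq j
      exact key q j fun p' i h1 _ => ih p' (by omega) i
    · intro j hj
      refine key p j fun p' i h2 h3 => ?_
      have : i = 0 := by omega
      have h4 : p' = p := by omega
      rw [this, h4]
      exact h1 p fun s hs => ih s hs 1

end Pool.Agent.MP_582538_al

end MrgPart1

-- ======== part 2: formerly Pool.Agent.MP_582538_al.CommAlg
section MrgPart2

set_option autoImplicit false

namespace Pool.Agent.MP_582538_al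

open Module IsLocalRing

variable {R : Type} [CommRing R]

theorem exists_lift {P Q Q' : Type} [AddCommGroup P] [Module R P] [AddCommGroup Q] [Module R Q]
    [AddCommGroup Q'] [Module R Q'] [Module.Projective R P] (g : Q →ₗ[R] Q') (f : P →ₗ[R] Q')
    (h : ∀ x, f x ∈ LinearMap.range g) : ∃ l : P →ₗ[R] Q, ∀ x, g (l x) = f x := by
  obtain ⟨l, hl⟩ := Module.projective_lifting_property g.rangeRestrict (f.codRestrict _ h)
    g.surjective_rangeRestrict
  exact ⟨l, fun x => congrArg Subtype.val (LinearMap.congr_fun hl x)⟩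

theorem length_quot_add {M N : Type} [AddCommGroup M] [Module R M] [AddCommGroup N] [Module R N]
    (d : M →ₗ[R] N) (A : Submodule R M) (U V : Submodule R N) (h : U.comap d = A)
    (hV : U ⊔ LinearMap.range d = V) :
    Module.length R (N ⧸ U) = Module.length R (M ⧸ A) + Module.length R (N ⧸ V) := by
  subst h hV
  refine Module.length_eq_add_of_exact ((U.comap d).mapQ U d le_rfl)
    (U.mapQ (U ⊔ LinearMap.range d) LinearMap.id le_sup_left) ?_ ?_ ?_
  · rw [← LinearMap.ker_eq_bot, LinearMap.ker_eq_bot']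
    intro x hx
    obtain ⟨x, rfl⟩ := Submodule.Quotient.mk_surjective _ x
    rw [Submodule.mapQ_apply, Submodule.Quotient.mk_eq_zero] at hx
    exact (Submodule.Quotient.mk_eq_zero _).mpr hx
  · intro y
    obtain ⟨y, rfl⟩ := Submodule.Quotient.mk_surjective _ y
    exact ⟨Submodule.Quotient.mk y, rfl⟩
  · intro y
    obtain ⟨y, rfl⟩ := Submodule.Quotient.mk_surjective _ y
    rw [Submodule.mapQ_apply, Submodule.Quotient.mk_eq_zero, LinearMap.id_apply]
    constructor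
    · intro hy
      obtain ⟨u, hu, _, ⟨x, rfl⟩, rfl⟩ := Submodule.mem_sup.mp hy
      refine ⟨Submodule.Quotient.mk x, ?_⟩
      rw [Submodule.mapQ_apply, Submodule.Quotient.eq]
      simpa using hu
    · rintro ⟨x, hx⟩
      obtain ⟨x, rfl⟩ := Submodule.Quotient.mk_surjective _ x
      rw [Submodule.mapQ_apply, Submodule.Quotient.eq] at hx
      refine Submodule.mem_sup.mpr ⟨-(d x - y), U.neg_mem hx, d x, ⟨x, rfl⟩, by abel⟩

theorem pow_smul_anti {M : Type} [AddCommGroup M] [Module R M] (I : Ideal R) {p q : ℕ}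
    (h : p ≤ q) {x : M} (hx : x ∈ I ^ q • (⊤ : Submodule R M)) :
    x ∈ I ^ p • (⊤ : Submodule R M) :=
  Submodule.smul_mono_left (Ideal.pow_le_pow_right h) hx

theorem smul_mem_pow_succ {M : Type} [AddCommGroup M] [Module R M] {I : Ideal R} {p : ℕ} {r : R}
    (hr : r ∈ I) {x : M} (hx : x ∈ I ^ p • (⊤ : Submodule R M)) :
    r • x ∈ I ^ (p + 1) • (⊤ : Submodule R M) := by
  rw [pow_succ', mul_smul]
  exact Submodule.smul_mem_smul hr hx

theorem map_mem_pow_succ {M N : Type} [AddCommGroup M] [Module R M] [AddCommGroup N] [Module R N]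
    {I : Ideal R} (d : M →ₗ[R] N) (hd : LinearMap.range d ≤ I • ⊤) {p : ℕ} {x : M}
    (hx : x ∈ I ^ p • (⊤ : Submodule R M)) : d x ∈ I ^ (p + 1) • (⊤ : Submodule R N) := by
  have h1 : d x ∈ (I ^ p • (⊤ : Submodule R M)).map d := ⟨x, hx, rfl⟩
  rw [Submodule.map_smul'', Submodule.map_top] at h1
  rw [pow_succ, mul_smul]
  exact smul_mono_right _ hd h1

section Res

variable {F : ℕ → Type} [∀ n, AddCommGroup (F n)] [∀ n, Module R (F n)]
  (m : Ideal R) (d : ∀ n, F (n + 1) →ₗ[R] F n)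

/-- Exactness of the linear part, in terms of the terms of the resolution. -/
def PP (n p : ℕ) : Prop :=
  ∀ x : F (n + 1), x ∈ m ^ p • (⊤ : Submodule R (F (n + 1))) →
    d n x ∈ m ^ (p + 2) • (⊤ : Submodule R (F n)) →
    x ∈ m ^ (p + 1) • (⊤ : Submodule R (F (n + 1))) ⊔
      Submodule.map (d (n + 1)) (m ^ (p - 1) • (⊤ : Submodule R (F (n + 1 + 1))))

variable {m d} (h0 : LinearMap.range (d 0) = m • ⊤)
  (hex : ∀ n, LinearMap.ker (d n) = LinearMap.range (d (n + 1)))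

theorem dd_zero (hex : ∀ n, LinearMap.ker (d n) = LinearMap.range (d (n + 1))) (n : ℕ)
    (x : F (n + 1 + 1)) : d n (d (n + 1) x) = 0 := by
  have : d (n + 1) x ∈ LinearMap.ker (d n) := by
    rw [hex]
    exact ⟨x, rfl⟩
  exact this

include h0 hex in
theorem homotopy [∀ n, Module.Projective R (F n)] {r : R} (hr : r ∈ m) (n : ℕ) :
    ∃ (h : F n →ₗ[R] F (n + 1)) (h' : F (n + 1) →ₗ[R] F (n + 1 + 1)),
      ∀ x, r • x = d (n + 1) (h' x) + h (d n x) := by
  have step : ∀ n (h : F n →ₗ[R] F (n + 1)), (∀ x, d n (h (d n x)) = r • d n x) →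
      ∃ h' : F (n + 1) →ₗ[R] F (n + 1 + 1), ∀ x, r • x = d (n + 1) (h' x) + h (d n x) := by
    intro n h hh
    obtain ⟨l, hl⟩ := exists_lift (d (n + 1)) (r • LinearMap.id - h ∘ₗ d n) (by
      intro x
      rw [← hex, LinearMap.mem_ker]
      simp [hh])
    exact ⟨l, fun x => by simp [hl]⟩
  have key : ∀ n, ∃ h : F n →ₗ[R] F (n + 1), ∀ x, d n (h (d n x)) = r • d n x := by
    intro n
    induction n with
    | zero =>
      obtain ⟨l, hl⟩ := exists_lift (d 0) (r • LinearMap.id) (by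
        intro x
        rw [h0]
        exact Submodule.smul_mem_smul hr trivial)
      exact ⟨l, fun x => by simp [hl]⟩
    | succ n ih =>
      obtain ⟨h, hh⟩ := ih
      obtain ⟨h', hh'⟩ := step n h hh
      refine ⟨h', fun x => ?_⟩
      rw [hh', dd_zero hex, map_zero, add_zero]
  obtain ⟨h, hh⟩ := key n
  obtain ⟨h', hh'⟩ := step n h hh
  exact ⟨h, h', hh'⟩

include h0 hex in
theorem eventually_PP [IsNoetherianRing R] [∀ n, Module.Projective R (F n)]
    [∀ n, Module.Finite R (F n)] (n : ℕ) : ∃ p0, ∀ p, p0 ≤ p → PP m d n p := by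
  let Zf : m.Filtration (F (n + 1)) :=
    { N := fun p => m ^ p • ⊤ ⊓ (m ^ (p + 2) • (⊤ : Submodule R (F n))).comap (d n)
      mono := fun p x hx => ⟨pow_smul_anti m (Nat.le_succ p) hx.1,
        pow_smul_anti m (Nat.le_succ (p + 2)) hx.2⟩
      smul_le := fun p => Submodule.smul_le.mpr fun r hr x hx =>
        ⟨smul_mem_pow_succ hr hx.1, by
          rw [SetLike.mem_coe, Submodule.mem_comap, map_smul]
          exact smul_mem_pow_succ hr hx.2⟩ }
  obtain ⟨n0, hn0⟩ : Zf.Stable :=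
    (m.stableFiltration_stable ⊤).of_le (F' := Zf) (fun p => inf_le_left)
  refine ⟨n0 + 1, fun p hp x hx1 hx2 => ?_⟩
  obtain ⟨q, rfl⟩ : ∃ q, p = q + 1 := ⟨p - 1, by omega⟩
  have hx : x ∈ m • Zf.N q := by
    rw [hn0 q (by omega)]
    exact ⟨hx1, hx2⟩
  refine Submodule.smul_induction_on hx ?_ (fun _ _ => Submodule.add_mem _)
  intro r hr z hz
  obtain ⟨h, h', hh⟩ := homotopy h0 hex hr n
  rw [hh, add_comm (d (n + 1) _)]
  exact Submodule.add_mem_sup (map_mem_smul_top _ h hz.2) ⟨_, map_mem_smul_top _ h' hz.1, rfl⟩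

include h0 hex in
theorem exists_J [IsNoetherianRing R] [∀ n, Module.Projective R (F n)]
    [∀ n, Module.Finite R (F n)] (hN : ∃ N, ∀ n, N ≤ n → ∀ p, PP m d n p) :
    ∃ J, 1 ≤ J ∧ ∀ n p, J ≤ p + (n + 1) → PP m d n p := by
  obtain ⟨N, hN⟩ := hN
  choose p0 hp0 using eventually_PP h0 hex
  refine ⟨N + 1 + ∑ n ∈ Finset.range N, p0 n, by omega, fun n p h => ?_⟩
  by_cases hn : N ≤ n
  · exact hN n hn p
  · have := Finset.single_le_sum (f := p0) (fun _ _ => Nat.zero_le _)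
      (Finset.mem_range.mpr (not_le.mp hn))
    exact hp0 n p (by omega)

include h0 in
theorem row_zero {p : ℕ} (hp : 1 ≤ p) {x : F 0} (hx : x ∈ m ^ p • (⊤ : Submodule R (F 0))) :
    ∃ y ∈ m ^ (p - 1) • (⊤ : Submodule R (F 1)), d 0 y = x := by
  obtain ⟨q, rfl⟩ : ∃ q, p = q + 1 := ⟨p - 1, by omega⟩
  rw [pow_succ, mul_smul, ← h0, ← Submodule.map_top, ← Submodule.map_smul''] at hx
  exact hx

include h0 hex in
theorem PP_zero (p : ℕ) (h : ∀ s, s < p → PP m d 1 s) : PP m d 0 p := by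
  intro x hx1 hx2
  obtain ⟨y, hy1, hy2⟩ := row_zero h0 (by omega) hx2
  have h1 : x - y ∈ LinearMap.range (d 1) := by
    rw [← hex, LinearMap.mem_ker, map_sub, hy2, sub_self]
  have h2 : x - y ∈ m ^ p • (⊤ : Submodule R (F 1)) :=
    Submodule.sub_mem _ hx1 (pow_smul_anti m (by omega) hy1)
  have key : ∀ s, s ≤ p - 1 → ∃ z ∈ m ^ s • (⊤ : Submodule R (F 2)), d 1 z = x - y := by
    intro s
    induction s with
    | zero =>
      intro _
      obtain ⟨z, hz⟩ := h1
      exact ⟨z, by simp, hz⟩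
    | succ s ih =>
      intro hs
      obtain ⟨z, hz1, hz2⟩ := ih (by omega)
      obtain ⟨z', hz', _, ⟨w, _, rfl⟩, rfl⟩ := Submodule.mem_sup.mp
        (h s (by omega) z hz1 (by rw [hz2]; exact pow_smul_anti m (by omega) h2))
      refine ⟨z', hz', ?_⟩
      rw [← hz2, map_add, dd_zero hex, add_zero]
  obtain ⟨z, hz1, hz2⟩ := key _ le_rfl
  exact Submodule.mem_sup.mpr ⟨y, hy1, x - y, ⟨z, hz1, hz2⟩, by abel⟩

include h0 hex in
theorem comap_trunc [IsNoetherianRing R] [IsLocalRing R] [∀ n, Module.Finite R (F n)]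
    (hm : m ≠ ⊤) {J : ℕ} (hJ : 1 ≤ J) (hbig : ∀ n p, J ≤ p + (n + 1) → PP m d n p)
    (hmin : ∀ n, LinearMap.range (d n) ≤ m • ⊤) (n : ℕ) :
    (m ^ (J - n) • (⊤ : Submodule R (F n))).comap (d n) =
      m ^ (J - (n + 1)) • ⊤ ⊔ LinearMap.range (d (n + 1)) := by
  have ac : ∀ n (x : F (n + 1)), x ∈ m ^ (J - (n + 1)) • (⊤ : Submodule R (F (n + 1))) →
      d n x = 0 → ∃ y ∈ m ^ (J - (n + 1 + 1)) • (⊤ : Submodule R (F (n + 1 + 1))),
        d (n + 1) y = x := by
    intro n x hx hdx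
    let N := (m ^ (J - (n + 1 + 1)) • (⊤ : Submodule R (F (n + 1 + 1)))).map (d (n + 1))
    have key : ∀ q, ∃ y ∈ N, x - y ∈ m ^ (J - (n + 1) + q) • (⊤ : Submodule R (F (n + 1))) := by
      intro q
      induction q with
      | zero => exact ⟨0, N.zero_mem, by simpa using hx⟩
      | succ q ih =>
        obtain ⟨_, ⟨y, hy, rfl⟩, h2⟩ := ih
        obtain ⟨x', hx', _, ⟨y', hy', rfl⟩, h3⟩ := Submodule.mem_sup.mp
          (hbig n _ (by omega) _ h2 (by rw [map_sub, hdx, dd_zero hex]; simp))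
        refine ⟨d (n + 1) (y + y'),
          ⟨y + y', Submodule.add_mem _ hy (pow_smul_anti m (by omega) hy'), rfl⟩, ?_⟩
        rw [map_add, ← sub_sub, ← h3, add_sub_cancel_right]
        exact hx'
    have h1 : N.mkQ x ∈ (⨅ i : ℕ, m ^ i • ⊤ : Submodule R (F (n + 1) ⧸ N)) := by
      rw [Submodule.mem_iInf]
      intro q
      obtain ⟨y, hy, h2⟩ := key q
      have := map_mem_smul_top _ N.mkQ (pow_smul_anti m (Nat.le_add_left q _) h2)
      rwa [map_sub, Submodule.mkQ_apply N y, (Submodule.Quotient.mk_eq_zero N).mpr hy,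
        sub_zero] at this
    rw [Ideal.iInf_pow_smul_eq_bot_of_isLocalRing m hm, Submodule.mem_bot, Submodule.mkQ_apply,
      Submodule.Quotient.mk_eq_zero] at h1
    exact h1
  ext x
  rw [Submodule.mem_comap]
  constructor
  · intro hx
    have : ∃ y ∈ m ^ (J - (n + 1)) • (⊤ : Submodule R (F (n + 1))), d n y = d n x := by
      cases n with
      | zero => exact row_zero h0 hJ hx
      | succ n => exact ac n _ hx (dd_zero hex n x)
    obtain ⟨y, hy1, hy2⟩ := this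
    refine Submodule.mem_sup.mpr ⟨y, hy1, x - y, ?_, by abel⟩
    rw [← hex, LinearMap.mem_ker, map_sub, hy2, sub_self]
  · intro hx
    obtain ⟨y, hy, _, ⟨z, rfl⟩, rfl⟩ := Submodule.mem_sup.mp hx
    rw [map_add, dd_zero hex, add_zero]
    exact pow_smul_anti m (by omega) (map_mem_pow_succ (d n) (hmin n) hy)

include h0 hex in
theorem euler [IsNoetherianRing R] [IsLocalRing R] [∀ n, Module.Finite R (F n)]
    (hm : m ≠ ⊤) {J : ℕ} (hJ : 1 ≤ J) (hbig : ∀ n p, J ≤ p + (n + 1) → PP m d n p)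
    (hmin : ∀ n, LinearMap.range (d n) ≤ m • ⊤) (q : ℕ → ℕ)
    (hq : ∀ n, Module.length R (F n ⧸ m ^ (J - n) • (⊤ : Submodule R (F n))) = q n)
    (h1 : Module.length R (F 0 ⧸ m • (⊤ : Submodule R (F 0))) = 1) :
    ∑ n ∈ Finset.range J, (-1 : ℤ) ^ n * q n = 1 := by
  let w : ℕ → ℕ∞ := fun n =>
    Module.length R (F n ⧸ (m ^ (J - n) • (⊤ : Submodule R (F n)) ⊔ LinearMap.range (d n)))
  have hw : ∀ n, (q n : ℕ∞) = w (n + 1) + w n := by
    intro n
    rw [← hq]
    exact length_quot_add (d n) _ _ _ (comap_trunc h0 hex hm hJ hbig hmin n) rfl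
  have hfin : ∀ n, w n ≠ ⊤ := by
    intro n h
    have := hw n
    rw [h, add_top] at this
    exact ENat.natCast_ne_top _ this
  have hw' : ∀ n, q n = (w (n + 1)).toNat + (w n).toNat := by
    intro n
    rw [← ENat.toNat_add (hfin _) (hfin _), ← hw, ENat.toNat_natCast]
  have hw0 : w 0 = 1 := by
    have : m ^ (J - 0) • (⊤ : Submodule R (F 0)) ⊔ LinearMap.range (d 0) = m • ⊤ := by
      rw [h0, sup_eq_right]
      intro x hx
      simpa using pow_smul_anti m (p := 1) hJ hx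
    simp only [w]
    rw [this, h1]
  have hwJ : w J = 0 := by
    have : m ^ (J - J) • (⊤ : Submodule R (F J)) ⊔ LinearMap.range (d J) = ⊤ := by simp
    simp only [w]
    rw [this, Module.length_eq_zero]
  have key : ∀ n, ∑ i ∈ Finset.range n, (-1 : ℤ) ^ i * q i =
      (w 0).toNat - (-1) ^ n * (w n).toNat := by
    intro n
    induction n with
    | zero => simp
    | succ n ih =>
      rw [Finset.sum_range_succ, ih, hw' n]
      push_cast
      ring
  rw [key, hw0, hwJ]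
  simp

end Res

theorem exists_coord [IsLocalRing R] (N : Type) [AddCommGroup N] [Module R N] [Module.Finite R N] :
    ∃ (c : ℕ) (π : N →ₗ[R] (Fin c → ResidueField R)), Function.Surjective π ∧
      LinearMap.ker π = maximalIdeal R • ⊤ := by
  let _ : Module (ResidueField R) (N ⧸ maximalIdeal R • (⊤ : Submodule R N)) :=
    (Module.isTorsionBySet_quotient_ideal_smul N (maximalIdeal R)).module
  have : IsScalarTower R (ResidueField R) (N ⧸ maximalIdeal R • (⊤ : Submodule R N)) :=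
    IsScalarTower.of_algebraMap_smul (by
      intro r x
      obtain ⟨x, rfl⟩ := Submodule.Quotient.mk_surjective _ x
      rfl)
  have : Module.Finite (ResidueField R) (N ⧸ maximalIdeal R • (⊤ : Submodule R N)) :=
    Module.Finite.of_restrictScalars_finite R _ _
  let e := (Module.finBasis (ResidueField R) (N ⧸ maximalIdeal R • (⊤ : Submodule R N))).equivFun
  refine ⟨_, e.toLinearMap.restrictScalars R ∘ₗ (maximalIdeal R • (⊤ : Submodule R N)).mkQ,
    e.surjective.comp (Submodule.mkQ_surjective _), ?_⟩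
  ext x
  simp

theorem length_residue [IsLocalRing R] : Module.length R (ResidueField R) = 1 :=
  Module.length_eq_one_iff.mpr
    (isSimpleModule_iff_isCoatom.mpr (Ideal.isMaximal_def.mp (maximalIdeal.isMaximal R)))

theorem length_pi_quot (I : Ideal R) (b : ℕ) :
    Module.length R ((Fin b → R) ⧸ I • (⊤ : Submodule R (Fin b → R))) =
      b * Module.length R (R ⧸ I) := by
  have h1 : LinearMap.ker (I.mkQ.compLeft (Fin b)) = I • ⊤ := by
    ext x
    rw [mem_smul_top_iff_repr (Pi.basisFun R (Fin b)), LinearMap.mem_ker, funext_iff]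
    simp [Ideal.Quotient.eq_zero_iff_mem]
  have h2 : Function.Surjective (I.mkQ.compLeft (Fin b)) := by
    intro y
    choose x hx using fun i => I.mkQ_surjective (y i)
    exact ⟨x, funext hx⟩
  rw [← h1, (LinearMap.quotKerEquivOfSurjective _ h2).length_eq]
  simp

theorem length_quot_pow [IsLocalRing R] {m : Ideal R} (c : ℕ → ℕ)
    (π : ∀ p, ↥(m ^ p) →ₗ[R] (Fin (c p) → ResidueField R)) (h1 : ∀ p, Function.Surjective (π p))
    (h2 : ∀ p r, π p r = 0 ↔ (r : R) ∈ m ^ (p + 1)) (s : ℕ) :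
    Module.length R (R ⧸ m ^ s) = (∑ p ∈ Finset.range s, c p : ℕ) := by
  induction s with
  | zero =>
    have : m ^ 0 = ⊤ := by simp
    rw [this, Module.length_eq_zero]
    simp
  | succ s ih =>
    rw [length_quot_add (m ^ s).subtype (LinearMap.ker (π s)) (m ^ (s + 1)) (m ^ s)
      (by ext r; simp [h2]) (by
        rw [Submodule.range_subtype, sup_eq_right]
        exact Ideal.pow_le_pow_right (by omega)), ih,
      (LinearMap.quotKerEquivOfSurjective _ (h1 s)).length_eq, Finset.sum_range_succ]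
    simp [length_residue, add_comm]

end Pool.Agent.MP_582538_al

end MrgPart2

-- ======== part 3: formerly Pool.Agent.MP_582538_al.Final
section MrgPart3

set_option autoImplicit false

namespace Pool.Agent.MP_582538_al

open Module IsLocalRing

variable {R : Type} [CommRing R]

section Tot

variable (b : ℕ → ℕ)

/-- Inclusion of a term into the total module. -/
noncomputable def inj (n : ℕ) : (Fin (b n) → R) →ₗ[R] ((Σ n, Fin (b n)) →₀ R) :=
  (Pi.basisFun R (Fin (b n))).constr ℕ (fun i => Finsupp.single ⟨n, i⟩ 1)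

/-- Projection of the total module onto a term. -/
noncomputable def prj (n : ℕ) : ((Σ n, Fin (b n)) →₀ R) →ₗ[R] (Fin (b n) → R) :=
  LinearMap.pi (fun i => Finsupp.lapply ⟨n, i⟩)

theorem inj_basis (n : ℕ) (i : Fin (b n)) :
    inj b n (Pi.basisFun R (Fin (b n)) i) = Finsupp.basisSingleOne ⟨n, i⟩ := by
  rw [inj, Basis.constr_basis]
  simp

theorem prj_inj (n : ℕ) (x : Fin (b n) → R) : prj b n (inj b n x) = x := by
  refine Sp_ext (Pi.basisFun R (Fin (b n))) (prj b n ∘ₗ inj b n) LinearMap.id ?_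
    (mem_Sp_true _ x)
  intro i _
  rw [LinearMap.comp_apply, inj_basis]
  ext j
  simp [prj, Finsupp.single_apply, Pi.single_apply, eq_comm]

theorem inj_mem (n : ℕ) (x : Fin (b n) → R) :
    inj b n x ∈ Sp Finsupp.basisSingleOne (fun β => β.1 = n) := by
  refine Sp_map (Pi.basisFun R (Fin (b n))) (inj b n) _ ?_ (mem_Sp_true _ x)
  intro i _
  rw [inj_basis]
  exact basis_mem_Sp _ rfl

theorem inj_prj (n : ℕ) {x : (Σ n, Fin (b n)) →₀ R}
    (hx : x ∈ Sp Finsupp.basisSingleOne (fun β => β.1 = n)) : inj b n (prj b n x) = x := by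
  refine Sp_ext _ (inj b n ∘ₗ prj b n) LinearMap.id ?_ hx
  rintro ⟨n', i⟩ rfl
  rw [LinearMap.comp_apply, LinearMap.id_apply, ← inj_basis, prj_inj]

variable {b} (d : ∀ n : ℕ, (Fin (b (n + 1)) → R) →ₗ[R] (Fin (b n) → R))

/-- The total differential. -/
noncomputable def totD : ((Σ n, Fin (b n)) →₀ R) →ₗ[R] ((Σ n, Fin (b n)) →₀ R) :=
  Finsupp.basisSingleOne.constr ℕ (fun β => match β with
    | ⟨0, _⟩ => 0
    | ⟨n + 1, i⟩ => inj b n (d n (Pi.basisFun R _ i)))

theorem totD_zero (x : Fin (b 0) → R) : totD d (inj b 0 x) = 0 := by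
  refine Sp_ext (Pi.basisFun R (Fin (b 0))) (totD d ∘ₗ inj b 0) 0 ?_ (mem_Sp_true _ x)
  intro i _
  rw [LinearMap.comp_apply, inj_basis, totD, Basis.constr_basis]
  rfl

theorem totD_succ (n : ℕ) (x : Fin (b (n + 1)) → R) :
    totD d (inj b (n + 1) x) = inj b n (d n x) := by
  refine Sp_ext (Pi.basisFun R (Fin (b (n + 1)))) (totD d ∘ₗ inj b (n + 1)) (inj b n ∘ₗ d n) ?_
    (mem_Sp_true _ x)
  intro i _
  rw [LinearMap.comp_apply, inj_basis, totD, Basis.constr_basis]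
  rfl

theorem sigma_fin_finite (c : ℕ → ℕ) (n : ℕ) : {β : Σ n, Fin (c n) | β.1 = n}.Finite := by
  refine (Set.finite_range (fun i : Fin (c n) => (⟨n, i⟩ : Σ n, Fin (c n)))).subset ?_
  rintro ⟨n', i⟩ rfl
  exact ⟨i, rfl⟩

theorem exists_res [IsLocalRing R] (hb : b 0 = 1)
    (h0 : LinearMap.range (d 0) = maximalIdeal R • ⊤)
    (hex : ∀ n, LinearMap.ker (d n) = LinearMap.range (d (n + 1)))
    (hmin : ∀ n, LinearMap.range (d n) ≤ maximalIdeal R • ⊤) :
    ∃ Z : Res (R := R) (ResidueField R) ((Σ n, Fin (b n)) →₀ R) (Σ n, Fin (b n)),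
      Z.b = Finsupp.basisSingleOne ∧ Z.dg = Sigma.fst ∧ Z.D = totD d := by
  have hm : RingHom.ker (algebraMap R (ResidueField R)) = maximalIdeal R := ker_residue
  have hsub : ∀ i j : Fin (b 0), i = j := by
    intro i j
    apply Fin.ext
    omega
  refine ⟨{
    b := Finsupp.basisSingleOne
    dg := Sigma.fst
    D := totD d
    D_deg := ?_
    DD := ?_
    min := ?_
    surj := residue_surjective
    one := ⟨0, ⟨0, by omega⟩⟩
    dg_one := rfl
    eq_one := ?_
    fin := sigma_fin_finite b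
    exact := ?_ }, rfl, rfl, rfl⟩
  · rintro ⟨n, i⟩
    rw [← inj_basis]
    cases n with
    | zero => rw [totD_zero]; exact Submodule.zero_mem _
    | succ n =>
      rw [totD_succ]
      exact Sp_mono _ (by intro j h; dsimp only; omega) (inj_mem b n _)
  · intro x
    refine Sp_ext Finsupp.basisSingleOne (totD d ∘ₗ totD d) 0 ?_ (mem_Sp_true _ x)
    rintro ⟨n, i⟩ _
    rw [← inj_basis, LinearMap.comp_apply, LinearMap.zero_apply]
    rcases n with _ | _ | n
    · rw [totD_zero, map_zero]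
    · rw [totD_succ, totD_zero]
    · rw [totD_succ, totD_succ, dd_zero (F := fun n => Fin (b n) → R) hex, map_zero]
  · intro x
    refine Sp_map Finsupp.basisSingleOne (totD d) _ ?_ (mem_Sp_true _ x)
    rintro ⟨n, i⟩ _
    rw [← inj_basis, hm]
    cases n with
    | zero => rw [totD_zero]; exact Submodule.zero_mem _
    | succ n =>
      rw [totD_succ]
      exact map_mem_smul_top _ _ (hmin n ⟨_, rfl⟩)
  · rintro ⟨n, i⟩ rfl
    rw [hsub i ⟨0, by omega⟩]
  · intro n x hx hD h1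
    have : prj b n x ∈ LinearMap.range (d n) := by
      cases n with
      | zero =>
        rw [h0, mem_smul_top_iff_repr (Pi.basisFun R _)]
        intro i
        rw [hsub i ⟨0, by omega⟩, ← hm]
        exact h1
      | succ n =>
        rw [← hex, LinearMap.mem_ker, ← prj_inj b n (d n _), ← totD_succ, inj_prj b _ hx, hD,
          map_zero]
    obtain ⟨y, hy⟩ := this
    exact ⟨inj b (n + 1) y, inj_mem b _ y, by rw [totD_succ, hy, inj_prj b _ hx]⟩

end Tot

theorem exists_gdata [IsLocalRing R] [IsNoetherianRing R] : ∃ (c : ℕ → ℕ)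
    (Γ : GData (R := R) (ResidueField R) (Σ p, Fin (c p))), Γ.row = Sigma.fst ∧
      ∀ s, Module.length R (R ⧸ maximalIdeal R ^ s) = (∑ p ∈ Finset.range s, c p : ℕ) := by
  have hm : RingHom.ker (algebraMap R (ResidueField R)) = maximalIdeal R := ker_residue
  choose c π h1 h2 using fun p : ℕ =>
    exists_coord (R := R) ↥(RingHom.ker (algebraMap R (ResidueField R)) ^ p)
  have h3 : ∀ p r, π p r = 0 ↔ (r : R) ∈ RingHom.ker (algebraMap R (ResidueField R)) ^ (p + 1) := by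
    intro p r
    rw [← LinearMap.mem_ker, h2, Submodule.mem_smul_top_iff, pow_succ', ← hm, smul_eq_mul]
  have h4 := length_quot_pow c π h1 h3
  rw [hm] at h4
  have h5 : c 0 = 1 := by
    have := h4 1
    rw [pow_one] at this
    have h6 : (1 : ℕ∞) = (∑ p ∈ Finset.range 1, c p : ℕ) := length_residue.symm.trans this
    simpa using h6.symm
  refine ⟨c, {
    row := Sigma.fst
    g0 := ⟨0, ⟨0, by omega⟩⟩
    row_g0 := rfl
    eq_g0 := ?_
    fin := sigma_fin_finite c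
    co := fun p => (Function.ExtendByZero.linearMap (ResidueField R)
      (Sigma.mk (β := fun p => Fin (c p)) p)).restrictScalars R ∘ₗ π p
    co_row := ?_
    co_ker := ?_
    co_surj := ?_ }, rfl, h4⟩
  · rintro ⟨p, i⟩ rfl
    congr 1
    apply Fin.ext
    omega
  · intro p r γ h
    refine Function.extend_apply' _ _ _ ?_
    rintro ⟨i, rfl⟩
    exact h rfl
  · intro p r
    rw [← h3]
    constructor
    · intro h
      ext i
      have := congrFun h ⟨p, i⟩
      exact ((sigma_mk_injective (β := fun p => Fin (c p))).extend_apply _ _ i).symm.trans this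
    · intro h
      rw [LinearMap.comp_apply, h, map_zero]
  · rintro p ⟨p', i⟩ rfl
    obtain ⟨r, hr⟩ := h1 p' (Pi.single i 1)
    refine ⟨r, ?_⟩
    rw [LinearMap.comp_apply, hr]
    ext ⟨q, j⟩
    by_cases hq : q = p'
    · subst hq
      refine ((sigma_mk_injective (β := fun p => Fin (c p))).extend_apply _ _ j).trans ?_
      simp [Pi.single_apply]
    · rw [Pi.single_eq_of_ne (fun h => hq (congrArg Sigma.fst h))]
      refine Function.extend_apply' _ _ _ ?_
      rintro ⟨i, h⟩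
      exact hq (congrArg Sigma.fst h).symm

theorem final [IsLocalRing R] [IsNoetherianRing R] {b : ℕ → ℕ}
    (d : ∀ n : ℕ, (Fin (b (n + 1)) → R) →ₗ[R] (Fin (b n) → R))
    (ε : (Fin (b 0) → R) →ₗ[R] ResidueField R) (hε : Function.Surjective ε)
    (hker : LinearMap.ker ε = LinearMap.range (d 0))
    (hex : ∀ n, LinearMap.ker (d n) = LinearMap.range (d (n + 1)))
    (hmin : ∀ n, LinearMap.range (d n) ≤ maximalIdeal R • ⊤)
    (hN : ∃ N, ∀ n, N ≤ n → ∀ p, PP (F := fun n => Fin (b n) → R) (maximalIdeal R) d n p) (n p : ℕ) :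
    PP (F := fun n => Fin (b n) → R) (maximalIdeal R) d n p := by
  classical
  have hm : RingHom.ker (algebraMap R (ResidueField R)) = maximalIdeal R := ker_residue
  have h0 : LinearMap.range (d 0) = maximalIdeal R • ⊤ := by
    refine le_antisymm (hmin 0) fun x hx => ?_
    rw [← hker]
    exact kill_smul_top (k := ResidueField R) ε (hm ▸ hx)
  have hl : Module.length R ((Fin (b 0) → R) ⧸ maximalIdeal R •
      (⊤ : Submodule R (Fin (b 0) → R))) = 1 := by
    rw [← h0, ← hker, (LinearMap.quotKerEquivOfSurjective ε hε).length_eq, length_residue]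
  have hb : b 0 = 1 := by
    have h1 : Module.length R (R ⧸ maximalIdeal R) = 1 := length_residue
    rw [length_pi_quot, h1, mul_one] at hl
    exact_mod_cast hl
  obtain ⟨J, hJ, hbig⟩ := exists_J (F := fun n => Fin (b n) → R) h0 hex hN
  obtain ⟨Z, hZb, hZdg, hZD⟩ := exists_res d hb h0 hex hmin
  obtain ⟨c, Γ, hrow, hlen⟩ := exists_gdata (R := R)
  have hχ := euler (F := fun n => Fin (b n) → R) h0 hex (maximalIdeal.isMaximal R).ne_top hJ hbig hmin
    (fun n => b n * ∑ p ∈ Finset.range (J - n), c p) (by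
      intro n
      rw [length_pi_quot, hlen, Nat.cast_mul]) hl
  have hQ : ∀ p, Z.Q p = maximalIdeal R ^ p • ⊤ := fun p => by rw [Res.Q, hm]
  have toP : ∀ n p, PP (F := fun n => Fin (b n) → R) (maximalIdeal R) d n p → Z.Pex (n + 1) p := by
    intro n p h x hx h1 h2
    rw [hQ] at h1 h2
    rw [hZb, hZdg] at hx
    rw [hZD, ← inj_prj b _ hx, totD_succ] at h2
    have h3 := map_mem_smul_top _ (prj b n) h2
    rw [prj_inj] at h3
    obtain ⟨x', hx', _, ⟨y, hy, rfl⟩, h4⟩ := Submodule.mem_sup.mp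
      (h _ (map_mem_smul_top _ (prj b (n + 1)) h1) h3)
    refine ⟨inj b _ y, ?_, ?_, ?_⟩
    · rw [hZb, hZdg]
      exact inj_mem b _ y
    · rw [hQ]
      exact map_mem_smul_top _ _ hy
    · rw [hQ, hZD, totD_succ, ← inj_prj b _ hx, ← h4, map_add, add_sub_cancel_right]
      exact map_mem_smul_top _ _ hx'
  have ofP : ∀ n p, Z.Pex (n + 1) p → PP (F := fun n => Fin (b n) → R) (maximalIdeal R) d n p := by
    intro n p h x h1 h2
    obtain ⟨y, hy, h3, h4⟩ := h (inj b _ x) (by rw [hZb, hZdg]; exact inj_mem b _ x)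
      (by rw [hQ]; exact map_mem_smul_top _ _ h1)
      (by rw [hQ, hZD, totD_succ]; exact map_mem_smul_top _ _ h2)
    rw [hQ] at h3 h4
    rw [hZb, hZdg] at hy
    rw [hZD, ← inj_prj b _ hy, totD_succ, ← map_sub] at h4
    have h5 := map_mem_smul_top _ (prj b (n + 1)) h4
    rw [prj_inj] at h5
    exact Submodule.mem_sup.mpr ⟨_, h5, _, ⟨_, map_mem_smul_top _ (prj b _) h3, rfl⟩, by abel⟩
  let SB : Finset (Σ n, Fin (b n)) := (Finset.range J).sigma fun _ => Finset.univ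
  let SC : Finset (Σ n, Fin (c n)) := (Finset.range J).sigma fun _ => Finset.univ
  refine ofP n p (Z.main Γ hJ ((SB ×ˢ SC).filter fun v => v.2.1 + v.1.1 < J) ?_ ?_
    (fun i p h => toP i p (hbig i p h)) ?_ ?_ p n)
  · intro v
    simp only [hrow, hZdg, SB, SC, Finset.mem_filter, Finset.mem_product, Finset.mem_sigma,
      Finset.mem_range, Finset.mem_univ, and_true]
    omega
  · have h1 := congrArg (Int.cast : ℤ → ResidueField R) hχ
    push_cast at h1
    refine Eq.trans ?_ h1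
    rw [hZdg, Finset.sum_filter, Finset.sum_product, Finset.sum_sigma]
    refine Finset.sum_congr rfl fun n hn => ?_
    simp only [SC, Finset.sum_sigma, Finset.sum_const, Finset.card_univ, Fintype.card_fin,
      nsmul_eq_mul]
    rw [mul_left_comm, Finset.mul_sum (Finset.range (J - n))]
    congr 1
    have h2 : Finset.range (J - n) = (Finset.range J).filter fun p => p + n < J := by
      ext p
      simp only [Finset.mem_range, Finset.mem_filter]
      omega
    rw [h2, Finset.sum_filter]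
    refine Finset.sum_congr rfl fun p _ => ?_
    split_ifs <;> simp [mul_comm]
  · intro p hp x hx h1 _
    rw [hQ] at h1
    rw [hZb, hZdg] at hx
    obtain ⟨y, hy1, hy2⟩ := row_zero (F := fun n => Fin (b n) → R) h0 hp (map_mem_smul_top _ (prj b 0) h1)
    refine ⟨inj b _ y, ?_, ?_, ?_⟩
    · rw [hZb, hZdg]
      exact inj_mem b _ y
    · rw [hQ]
      exact map_mem_smul_top _ _ hy1
    · rw [hZD, totD_succ, hy2, inj_prj b _ hx, sub_self]
      exact Submodule.zero_mem _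
  · intro p h
    exact toP 0 p (PP_zero (F := fun n => Fin (b n) → R) h0 hex p fun s hs => ofP 1 s (h s hs))

end Pool.Agent.MP_582538_al

end MrgPart3

-- marker of a merged file
example : 731051 + 198824 = 731051 + 198824 := rfl
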